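import Pool.Agent.TH268.HB.LowerH
import Pool.Agent.TH268.TB.Multi

/-!
# The order parameter in the abstract model
-/

set_option autoImplicit false

open Finset BigOperators

namespace Pool.Agent.TH268.HB

open Pool.Agent.H11R2.BEC Pool.Agent.TH268.TB

theorem errH_leT {d : ℕ} (j : ℕ) :
    errH d j (2 ^ (d * j / 2)) (1 / (2 : ℝ) ^ (d * j / 2)) ≤
      32 * (1 / (2 : ℝ) ^ (d * j / 2)) := by
  have h2 := var_boundH d j
  set w : ℝ := 1 / (2 : ℝ) ^ (d * j / 2) with hw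
  have hw0 : 0 < w := by positivity
  have hw1 : w ≤ 1 := by
    rw [hw, div_le_one (by positivity)]
    exact one_le_pow₀ (by norm_num)
  have hww : w ^ 2 ≤ w := by nlinarith
  unfold errH
  simp only []
  set v : ℝ := (7 * ((2 ^ (d * j / 2) : ℕ) : ℝ) ^ 2 + 6 * ((2 : ℝ) ^ (d * j)) ^ 2 /
      ((2 ^ (d * j / 2) : ℕ) : ℝ) ^ 2) / ((2 : ℝ) ^ (d * j)) ^ 2 with hv
  have h5 : v / w ≤ 13 * w := by
    rw [div_le_iff₀ hw0]
    calc v ≤ 13 * w ^ 2 := h2
      _ = 13 * w * w := by ring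
  linarith

section

variable {d J : ℕ} {q β : ℝ} {ψ : (Site d J → Bool) → WF (Site d J)}
    {E lam : (Site d J → Bool) → ℝ}

theorem IsGibbsH.anti (h : IsGibbsH q β ψ E lam) (s : ℕ) (hs : s < J) :
    ∑ m, lam m * cohH (s + 1) (ψ m) ≤ ∑ m, lam m * cohH s (ψ m) :=
  Finset.sum_le_sum fun m _ => mul_le_mul_of_nonneg_left (cohH_antitone hs (ψ m)) (h.nonneg m)

theorem IsGibbsH.anti' (h : IsGibbsH q β ψ E lam) : ∀ s t : ℕ, s ≤ t → t ≤ J →
    ∑ m, lam m * cohH t (ψ m) ≤ ∑ m, lam m * cohH s (ψ m) := by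
  intro s t' hst
  induction t', hst using Nat.le_induction with
  | base => intro _; exact le_rfl
  | succ n hn' ih => intro hle; exact (h.anti n (by omega)).trans (ih (by omega))

theorem IsGibbsH.coh_nonneg' (h : IsGibbsH q β ψ E lam) (s : ℕ) :
    0 ≤ ∑ m, lam m * cohH s (ψ m) :=
  Finset.sum_nonneg fun m _ => mul_nonneg (h.nonneg m) (coh_nonneg0 s (ψ m))

theorem cohH_zero_le {ψ : WF (Site d J)} (hψ : Pool.Agent.H11R2.BEC.nsq ψ = 1) :
    cohH 0 ψ ≤ 1 := by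
  have h2 : cohH 0 ψ = 3 / 4 := by
    have h3 : ∀ z : Site d J, ∑ a, Pool.Agent.H11R2.BEC.nsq (avS a 0 z ψ) = 3 / 4 := by
      intro z
      have h4 := gH_diag ψ z
      rw [hψ, mul_one] at h4
      rw [← h4]
      unfold gH
      refine Finset.sum_congr rfl fun a _ => ?_
      rw [← t3a_nsq, avS_cube]
      congr 1
      rw [Nat.mul_zero, pow_zero, div_one, one_smul]
      have h5 : ∀ u : Fin d → Fin (2 ^ 0), op1 (z + cu J u) (sgA a) ψ = op1 z (sgA a) ψ := by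
        intro u
        have h6 : (cu J u : Site d J) = 0 := by
          funext ν
          have h7 : (u ν : ℕ) = 0 := by
            have h8 := (u ν).2
            have h9 : 2 ^ 0 = 1 := pow_zero 2
            omega
          simp only [cu, h7, Nat.cast_zero, Pi.zero_apply]
        rw [h6, add_zero]
      rw [Finset.sum_congr rfl fun u _ => h5 u, Finset.sum_const, Finset.card_univ,
        Fintype.card_fun, Fintype.card_fin]
      simp
    unfold cohH
    rw [Finset.sum_congr rfl fun z _ => h3 z, Finset.sum_const, Finset.card_univ, nsmul_eq_mul,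
      ki_card_site]
    field_simp
  rw [h2]; norm_num

theorem IsGibbsH.coh_le_one (h : IsGibbsH q β ψ E lam) (s : ℕ) (hs : s ≤ J) :
    ∑ m, lam m * cohH s (ψ m) ≤ 1 := by
  refine (h.anti' 0 s (Nat.zero_le _) hs).trans ?_
  rw [← h.sum]
  refine Finset.sum_le_sum fun m _ => ?_
  calc lam m * cohH 0 (ψ m) ≤ lam m * 1 :=
        mul_le_mul_of_nonneg_left (cohH_zero_le (h.nsq m)) (h.nonneg m)
    _ = lam m := mul_one _

/-- The multiscale inequality. -/
theorem multiTH (hd : 1 ≤ d) (hq : 3 / 4 ≤ q) (hq1 : q < 1) (hβ : 0 < β)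
    (h : IsGibbsH q β ψ E lam) (m : ℕ) (hm : 2 * m ≤ J) :
    ∑ i, lam i * cohH (2 * m) (ψ i) - ∑ i, lam i * cohH J (ψ i) ≤
      16 * d * (1 + Cd d) * (1 - q) * (∑ i, lam i * cohH 0 (ψ i) - ∑ i, lam i * cohH J (ψ i)) +
      28 * (32 + 12 / β) * (8 / 9) ^ m := by
  have hq0 : 0 ≤ q := by linarith
  have hC0 : 0 ≤ Cd d := by unfold Cd; positivity
  refine summation' (d := d) (J := J) (q := q) (B := 32 + 12 / β) (C := Cd d) hq hq1
    (by positivity) hC0 (fun s => ∑ i, lam i * cohH s (ψ i)) (fun s hs => h.anti s hs) ?_ m hm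
  intro j hj
  have h1 := keyTH hj hq0 hq1.le hβ h (2 ^ (d * j / 2)) Nat.one_le_two_pow
    (θ := 1 / (2 : ℝ) ^ (d * j / 2)) (by positivity)
  have h2 := errH_leT (d := d) j
  have h3 := log_boundH d j hβ
  have h4 := pow_half_le hd j
  have h5 : ∑ s ∈ range j, cf q J s * ((∑ i, lam i * cohH s (ψ i) - ∑ i, lam i * cohH j (ψ i))
    - (1 / 2 : ℝ) ^ (j - s) * (d * (∑ i, lam i * cohH s (ψ i) - ∑ i, lam i * cohH j (ψ i))
      + 2 * d * Cd d * ∑ i' ∈ range (j + 1), (1 / 2 : ℝ) ^ (j - i') *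
        (∑ i, lam i * cohH i' (ψ i) - ∑ i, lam i * cohH (i' + 1) (ψ i))))
      ≤ ∑ s ∈ range j, cf q J s * ∑ i, lam i * usH s j (ψ i) := by
    apply Finset.sum_le_sum
    intro s hs
    refine mul_le_mul_of_nonneg_left ?_ (cf_nonneg hq0 hq1.le _ _)
    have h6 : ∑ i, lam i * ((cohH s (ψ i) - cohH j (ψ i))
      - (1 / 2 : ℝ) ^ (j - s) * (d * (cohH s (ψ i) - cohH j (ψ i))
        + 2 * d * Cd d * ∑ i' ∈ range (j + 1), (1 / 2 : ℝ) ^ (j - i') *
          (cohH i' (ψ i) - cohH (i' + 1) (ψ i)))) ≤ ∑ i, lam i * usH s j (ψ i) :=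
      Finset.sum_le_sum fun i _ => mul_le_mul_of_nonneg_left
        (usH_lower (Finset.mem_range.1 hs) hj (ψ i)) (h.nonneg i)
    refine le_trans (le_of_eq ?_) h6
    have e1 : ∑ i, lam i * ∑ i' ∈ range (j + 1), (1 / 2 : ℝ) ^ (j - i') *
          (cohH i' (ψ i) - cohH (i' + 1) (ψ i)) =
        ∑ i' ∈ range (j + 1), (1 / 2 : ℝ) ^ (j - i') *
        (∑ i, lam i * cohH i' (ψ i) - ∑ i, lam i * cohH (i' + 1) (ψ i)) := by
      simp only [Finset.mul_sum]
      rw [Finset.sum_comm]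
      refine Finset.sum_congr rfl fun i' _ => ?_
      rw [← Finset.sum_sub_distrib, Finset.mul_sum]
      refine Finset.sum_congr rfl fun i _ => ?_
      ring
    rw [← e1]
    have e2 : ∀ i, lam i * ((cohH s (ψ i) - cohH j (ψ i))
      - (1 / 2 : ℝ) ^ (j - s) * (d * (cohH s (ψ i) - cohH j (ψ i))
        + 2 * d * Cd d * ∑ i' ∈ range (j + 1), (1 / 2 : ℝ) ^ (j - i') *
          (cohH i' (ψ i) - cohH (i' + 1) (ψ i)))) =
        (lam i * cohH s (ψ i) - lam i * cohH j (ψ i)) - (1 / 2 : ℝ) ^ (j - s) *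
        (d * (lam i * cohH s (ψ i) - lam i * cohH j (ψ i)) + 2 * d * Cd d *
          (lam i * ∑ i' ∈ range (j + 1), (1 / 2 : ℝ) ^ (j - i') *
          (cohH i' (ψ i) - cohH (i' + 1) (ψ i)))) := fun i => by ring
    rw [Finset.sum_congr rfl fun i _ => e2 i]
    simp only [Finset.sum_sub_distrib, Finset.sum_add_distrib, ← Finset.mul_sum]
  have hB0 : 0 ≤ 32 + 12 / β := by positivity
  have h7 : (32 + 12 / β) * (1 / (2 : ℝ) ^ (d * j / 2)) ≤
      (32 + 12 / β) * (1 / 2 : ℝ) ^ (j / 2) := mul_le_mul_of_nonneg_left h4 hB0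
  have h8 : (32 + 12 / β) * (1 / (2 : ℝ) ^ (d * j / 2)) =
      32 * (1 / (2 : ℝ) ^ (d * j / 2)) + 12 / β * (1 / (2 : ℝ) ^ (d * j / 2)) := by
    ring
  linarith

end

theorem heis_abs (d : ℕ) (hd : 1 ≤ d) (β ε m : ℝ) (hβ : 0 < β) (hε : 0 < ε) (hm : 0 ≤ m)
    (hm1 : m = Real.tanh (β * m / 2)) (hm2 : 0 < m ∨ β ≤ 2) :
    ∃ δ : ℝ, 0 < δ ∧ ∃ J₀ : ℕ, ∀ q : ℝ, 1 - δ ≤ q → q < 1 → ∀ β' : ℝ, |β' - β| ≤ δ →
      ∀ J ≥ J₀, ∀ (ψ : (Site d J → Bool) → WF (Site d J))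
        (E lam : (Site d J → Bool) → ℝ), IsGibbsH q β' ψ E lam →
        |∑ i, lam i * cohH J (ψ i) - m ^ 2 / 4| ≤ ε := by
  obtain ⟨δ1, hδ1, t1, ht1, ht1', H1⟩ := mf_stability β 0 (ε / 2) m hβ (by positivity) hm hm1 hm2
  have hC0 : 0 ≤ Cd d := by unfold Cd; positivity
  have hd0 : (1 : ℝ) ≤ d := by exact_mod_cast hd
  set B0 : ℝ := 32 + 24 / β with hB0
  set C0 : ℝ := 26 + 24 / β with hC0def
  have hB0p : 0 < B0 := by rw [hB0]; positivity
  have hC0p : 0 < C0 := by rw [hC0def]; positivity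
  set K : ℝ := 16 * d * (1 + Cd d) with hK
  have hK0 : 0 < K := by rw [hK]; positivity
  have hmax : max 0 ((m ^ 2 - (0 : ℝ) ^ 2) / 4) = m ^ 2 / 4 := by
    rw [max_eq_right] <;> ring_nf
    positivity
  -- choice of the scale
  obtain ⟨k, hk⟩ : ∃ k : ℕ, 28 * B0 * (8 / 9 : ℝ) ^ k ≤ ε / 8 := by
    obtain ⟨k, hk⟩ := exists_pow_lt_of_lt_one (show 0 < ε / 8 / (28 * B0) by positivity)
      (show (8 / 9 : ℝ) < 1 by norm_num)
    refine ⟨k, ?_⟩
    calc 28 * B0 * (8 / 9 : ℝ) ^ k ≤ 28 * B0 * (ε / 8 / (28 * B0)) := by gcongr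
      _ = ε / 8 := by field_simp
  obtain ⟨n, hn⟩ : ∃ n : ℕ, C0 * (1 / 2 : ℝ) ^ n ≤ δ1 / 2 := by
    obtain ⟨n, hn⟩ := exists_pow_lt_of_lt_one (show 0 < δ1 / 2 / C0 by positivity)
      (show (1 / 2 : ℝ) < 1 by norm_num)
    refine ⟨n, ?_⟩
    calc C0 * (1 / 2 : ℝ) ^ n ≤ C0 * (δ1 / 2 / C0) := by gcongr
      _ = δ1 / 2 := by field_simp
  set δ : ℝ := min δ1 (min (min (β / 2) (1 / 4)) (min (δ1 / (8 * C0))
    (min (ε / (8 * (2 * k + 1))) (ε / (8 * K))))) with hδ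
  have hδp : 0 < δ := by
    rw [hδ]; positivity
  have g1 : δ ≤ δ1 := min_le_left _ _
  have g2 : δ ≤ β / 2 := (min_le_right _ _).trans ((min_le_left _ _).trans (min_le_left _ _))
  have g3 : δ ≤ 1 / 4 := (min_le_right _ _).trans ((min_le_left _ _).trans (min_le_right _ _))
  have g4 : δ ≤ δ1 / (8 * C0) :=
    (min_le_right _ _).trans ((min_le_right _ _).trans (min_le_left _ _))
  have g5 : δ ≤ ε / (8 * (2 * k + 1)) :=
    (min_le_right _ _).trans ((min_le_right _ _).trans ((min_le_right _ _).trans (min_le_left _ _)))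
  have g6 : δ ≤ ε / (8 * K) :=
    (min_le_right _ _).trans ((min_le_right _ _).trans ((min_le_right _ _).trans (min_le_right _ _)))
  refine ⟨δ, hδp, max (2 * k + 1) (2 * n), ?_⟩
  intro q hq hq1 β' hβ' J hJ ψ E lam hG
  have hJ1 : 2 * k + 1 ≤ J := (le_max_left _ _).trans hJ
  have hJ2 : 2 * n ≤ J := (le_max_right _ _).trans hJ
  have hq34 : 3 / 4 ≤ q := by linarith
  have hq0 : 0 ≤ q := by linarith
  have hβ'2 : β / 2 ≤ β' := by have := (abs_le.1 hβ').1; linarith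
  have hβ'p : 0 < β' := by linarith
  have hinv : 12 / β' ≤ 24 / β := by
    rw [div_le_div_iff₀ hβ'p hβ]; linarith
  -- the errors
  have hhalf : (1 / 2 : ℝ) ^ (J / 2) ≤ (1 / 2 : ℝ) ^ n :=
    pow_le_pow_of_le_one (by norm_num) (by norm_num) (by omega)
  have herr : ∀ lm : ℝ, 0 < lm → lm ≤ 2 →
      (13 * lm + 12 / β') * (4 * (1 - q) + (1 / 2 : ℝ) ^ (J / 2)) ≤ δ1 := by
    intro lm h1 h2
    have h4 : 13 * lm + 12 / β' ≤ C0 := by rw [hC0def]; linarith
    have h5 : 0 ≤ 4 * (1 - q) + (1 / 2 : ℝ) ^ (J / 2) := by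
      have : (0 : ℝ) ≤ (1 / 2 : ℝ) ^ (J / 2) := by positivity
      linarith
    have h6 : C0 * (4 * (1 - q)) ≤ δ1 / 2 := by
      have h7 : C0 * (4 * (1 - q)) ≤ C0 * (4 * (δ1 / (8 * C0))) := by
        apply mul_le_mul_of_nonneg_left _ hC0p.le
        linarith
      calc _ ≤ _ := h7
        _ = δ1 / 2 := by field_simp; ring
    have h8 : C0 * (1 / 2 : ℝ) ^ (J / 2) ≤ δ1 / 2 :=
      (mul_le_mul_of_nonneg_left hhalf hC0p.le).trans hn
    calc _ ≤ C0 * (4 * (1 - q) + (1 / 2 : ℝ) ^ (J / 2)) := mul_le_mul_of_nonneg_right h4 h5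
      _ = C0 * (4 * (1 - q)) + C0 * (1 / 2 : ℝ) ^ (J / 2) := by ring
      _ ≤ δ1 := by linarith
  set a : ℕ → ℝ := fun s => ∑ i, lam i * cohH s (ψ i) with ha
  set x : ℝ := ∑ s ∈ range (J + 1), cf q J s * a s with hx
  set f : ℝ := - ((1 / β') * (Real.log (∑ m, Real.exp (-(β' * E m))) / 2 ^ (d * J))) with hf
  have hup : ∀ e, |(0 : ℝ)| / 2 ≤ e → f ≤ mfG β' 0 1 e := fun e he =>
    mf_upperH hq0 hq1.le hβ'p hG.onb hG.en e (by simpa using he)
  have hlow : ∀ lm : ℝ, 0 < lm → lm ≤ 2 → ∀ F : ℝ,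
      (∀ e, |(0 : ℝ)| / 2 ≤ e → F ≤ mfG β' 0 lm e) → F - δ1 ≤ f + (1 - lm) * x := by
    intro lm h1 h2 F hF
    have h4 := lowerHH hd hq0 hq1.le hβ'p hG h1 F (fun e he => hF e (by simpa using he))
    have h5 := herr lm h1 h2
    have h6 : F - δ1 ≤ F - (13 * lm + 12 / β') *
        (4 * (1 - q) + (1 / 2 : ℝ) ^ (J / 2)) := by linarith
    exact h6.trans h4
  have hxn : |x - m ^ 2 / 4| ≤ ε / 2 := by
    rw [← hmax]
    refine H1 β' 0 f x hβ'p (hβ'.trans g1) (by simp [hδ1.le]) hup ?_ ?_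
    · intro F hF
      have h1 := hlow (1 - t1) (by linarith) (by linarith) F hF
      have h3 : (1 - (1 - t1)) * x = t1 * x := by ring
      rw [h3] at h1
      exact h1
    · intro F hF
      have h1 := hlow (1 + t1) (by linarith) (by linarith) F hF
      have h3 : (1 - (1 + t1)) * x = - (t1 * x) := by ring
      rw [h3] at h1
      linarith
  have hanti := hG.anti'
  have haJx : a J ≤ x := by
    have h1 : ∑ s ∈ range (J + 1), cf q J s * a J ≤ x :=
      Finset.sum_le_sum fun s hs => mul_le_mul_of_nonneg_left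
        (hanti s J (by have := Finset.mem_range.1 hs; omega) le_rfl) (cf_nonneg hq0 hq1.le _ _)
    rw [← Finset.sum_mul, sum_cf, one_mul] at h1
    exact h1
  have hxa : x ≤ (1 - q ^ (2 * k + 1)) + a (2 * k) := by
    have hsplit : x ≤ ∑ s ∈ range (J + 1), cf q J s *
        ((1 - (if s < 2 * k + 1 then 0 else 1)) + a (2 * k) * 1) := by
      apply Finset.sum_le_sum
      intro s hs
      apply mul_le_mul_of_nonneg_left _ (cf_nonneg hq0 hq1.le _ _)
      have hsJ : s ≤ J := by have := Finset.mem_range.1 hs; omega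
      have h0 : 0 ≤ a (2 * k) := hG.coh_nonneg' (2 * k)
      split_ifs with hc
      · have := hG.coh_le_one s hsJ
        change a s ≤ 1 at this
        linarith
      · have := hanti (2 * k) s (by omega) hsJ
        change a s ≤ a (2 * k) at this
        linarith
    refine hsplit.trans (le_of_eq ?_)
    have h1 := sum_cf_tail (J := J) (q := q) (k := 2 * k + 1) (by omega)
    have e1 : ∀ s, cf q J s * ((1 - (if s < 2 * k + 1 then (0 : ℝ) else 1)) + a (2 * k) * 1) =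
        cf q J s * (1 + a (2 * k)) - cf q J s * (if s < 2 * k + 1 then (0 : ℝ) else 1) :=
      fun s => by ring
    rw [Finset.sum_congr rfl fun s _ => e1 s, Finset.sum_sub_distrib, ← Finset.sum_mul, sum_cf, h1]
    ring
  have hms := multiTH hd hq34 hq1 hβ'p hG k (by omega)
  have hqm : 1 - q ^ (2 * k + 1) ≤ ε / 8 := by
    have h1 := one_add_mul_le_pow (show -2 ≤ q - 1 by linarith) (2 * k + 1)
    have h2 : 1 + (q - 1) = q := by ring
    rw [h2] at h1
    push_cast at h1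
    have h3 : (2 * (k : ℝ) + 1) * (1 - q) ≤ ε / 8 := by
      calc (2 * (k : ℝ) + 1) * (1 - q) ≤ (2 * k + 1) * (ε / (8 * (2 * k + 1))) := by
            apply mul_le_mul_of_nonneg_left (by linarith) (by positivity)
        _ = ε / 8 := by field_simp
    have h4 : (2 * (k : ℝ) + 1) * (q - 1) = - ((2 * (k : ℝ) + 1) * (1 - q)) := by ring
    rw [h4] at h1
    linarith only [h1, h3]
  have hKq : K * (1 - q) ≤ ε / 8 := by
    calc K * (1 - q) ≤ K * (ε / (8 * K)) := by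
          apply mul_le_mul_of_nonneg_left (by linarith) hK0.le
      _ = ε / 8 := by field_simp
  have h0J : a 0 - a J ≤ 1 := by
    have h1 := hG.coh_le_one 0 (Nat.zero_le _)
    have h2 := hG.coh_nonneg' J
    change a 0 ≤ 1 at h1
    change 0 ≤ a J at h2
    linarith
  have h28 : 28 * (32 + 12 / β') * (8 / 9 : ℝ) ^ k ≤ ε / 8 := by
    refine le_trans ?_ hk
    apply mul_le_mul_of_nonneg_right _ (by positivity)
    rw [hB0]
    linarith
  change a (2 * k) - a J ≤ K * (1 - q) * (a 0 - a J) + 28 * (32 + 12 / β') * (8 / 9) ^ k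
    at hms
  have hKa : K * (1 - q) * (a 0 - a J) ≤ ε / 8 := by
    have h1 : 0 ≤ K * (1 - q) := mul_nonneg hK0.le (by linarith)
    calc _ ≤ K * (1 - q) * 1 := mul_le_mul_of_nonneg_left h0J h1
      _ ≤ _ := by linarith
  have hxn' := abs_le.1 hxn
  change |a J - m ^ 2 / 4| ≤ ε
  obtain ⟨hn1, hn2⟩ := hxn'
  rw [abs_le]
  constructor
  · linarith only [hn1, hxa, hqm, hms, hKa, h28, hε]
  · linarith only [hn2, haJx, hε]

end Pool.Agent.TH268.HB
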