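import Pool.Agent.TH268.HB.KeyH
import Pool.Agent.TH268.TB.CubeLow

/-!
# The mean-field bounds for one cube
-/

set_option autoImplicit false

open Finset BigOperators

namespace Pool.Agent.TH268.HB

open Pool.Agent.H11R2.BEC Pool.Agent.TH268.TB

theorem sum_ck_form (γ : Fin 3 → ℝ) (w : Bool → ℂ) :
    ∑ a, γ a * (∑ ζ, (starRingEnd ℂ) (w ζ) * ∑ b, sgA a ζ b * w b).re =
      γ 0 * ((starRingEnd ℂ) (w false) * w true).re -
      γ 1 * ((starRingEnd ℂ) (w false) * w true).im +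
      γ 2 / 2 * (‖w true‖ ^ 2 - ‖w false‖ ^ 2) := by
  have hn : ∀ z : ℂ, ‖z‖ ^ 2 = z.re ^ 2 + z.im ^ 2 := by
    intro z
    rw [← Complex.normSq_eq_norm_sq, Complex.normSq_apply]; ring
  rw [Fin.sum_univ_three, hn, hn]
  have e0 : (∑ ζ, (starRingEnd ℂ) (w ζ) * ∑ b, sgA 0 ζ b * w b).re =
      ((starRingEnd ℂ) (w false) * w true).re := by
    change (∑ ζ, (starRingEnd ℂ) (w ζ) * ∑ b, sg1 ζ b * w b).re = _
    simp only [Fintype.sum_bool, sg1]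
    norm_num
    ring
  have e1 : (∑ ζ, (starRingEnd ℂ) (w ζ) * ∑ b, sgA 1 ζ b * w b).re =
      - ((starRingEnd ℂ) (w false) * w true).im := by
    change (∑ ζ, (starRingEnd ℂ) (w ζ) * ∑ b, sg2 ζ b * w b).re = _
    simp only [Fintype.sum_bool, sg2]
    norm_num
    ring
  have e2 : (∑ ζ, (starRingEnd ℂ) (w ζ) * ∑ b, sgA 2 ζ b * w b).re =
      1 / 2 * ((w true).re ^ 2 + (w true).im ^ 2 - ((w false).re ^ 2 + (w false).im ^ 2)) := by
    change (∑ ζ, (starRingEnd ℂ) (w ζ) * ∑ b, sg3 ζ b * w b).re = _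
    simp only [Fintype.sum_bool, sg3]
    norm_num
    ring
  rw [e0, e1, e2]
  ring

theorem one_siteH (γ : Fin 3 → ℝ) (e : ℝ) (he : 0 ≤ e) (h : e ^ 2 = ∑ a, γ a ^ 2) :
    ∃ U : Matrix Bool Bool ℂ,
      (∀ w : Bool → ℂ, ∑ k, ‖∑ ζ, U k ζ * w ζ‖ ^ 2 = ∑ ζ, ‖w ζ‖ ^ 2) ∧
      (∀ k, ∑ ζ, ‖U k ζ‖ ^ 2 = 1) ∧
      (∀ w : Bool → ℂ, ∑ k, sg 0 e k * ‖∑ ζ, U k ζ * w ζ‖ ^ 2 =
        -2 * ∑ a, γ a * (∑ ζ, (starRingEnd ℂ) (w ζ) * ∑ b, sgA a ζ b * w b).re) := by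
  have hn : ∀ z : ℂ, ‖z‖ ^ 2 = z.re ^ 2 + z.im ^ 2 := by
    intro z
    rw [← Complex.normSq_eq_norm_sq, Complex.normSq_apply]; ring
  set g : ℂ := ((γ 0 : ℝ) : ℂ) - Complex.I * ((γ 1 : ℝ) : ℂ) with hg
  have hgre : g.re = γ 0 := by rw [hg]; simp
  have hgim : g.im = - γ 1 := by rw [hg]; simp
  obtain ⟨U, hU, hU1, hF⟩ := one_site (2 * γ 2) e g he (by
    rw [h, hn, hgre, hgim, Fin.sum_univ_three]; ring)
  refine ⟨U, hU, hU1, fun w => ?_⟩
  have h1 := hF w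
  have h2 := hU w
  have h3 : ∀ k, sg 0 e k = sg (2 * γ 2) e k + γ 2 := by
    intro k; unfold sg; ring
  rw [Finset.sum_congr rfl fun k _ => by rw [h3 k, add_mul], Finset.sum_add_distrib,
    ← Finset.mul_sum, h1, h2, sum_ck_form, Fintype.sum_bool,
    Complex.mul_re ((starRingEnd ℂ) g) _, Complex.conj_re g, Complex.conj_im g, hgre, hgim]
  ring

theorem pb_formH {Q : Type} [Fintype Q] [DecidableEq Q] {U : Matrix Bool Bool ℂ} {e : ℝ}
    {γ : Fin 3 → ℝ}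
    (hU : ∀ w : Bool → ℂ, ∑ k, ‖∑ ζ, U k ζ * w ζ‖ ^ 2 = ∑ ζ, ‖w ζ‖ ^ 2)
    (hF : ∀ w : Bool → ℂ, ∑ k, sg 0 e k * ‖∑ ζ, U k ζ * w ζ‖ ^ 2 =
        -2 * ∑ a, γ a * (∑ ζ, (starRingEnd ℂ) (w ζ) * ∑ b, sgA a ζ b * w b).re)
    (χ : WF Q) (y : Q) :
    ∑ K : Q → Bool, sg 0 e (K y) * ‖gip (pb U K) χ‖ ^ 2 =
      -2 * ∑ a, γ a * (ip χ (op1 y (sgA a) χ)).re := by
  have h1 := pb_marg hU (sg 0 e) _ hF χ y
  have h2 := sum_fiber y (fun K : Q → Bool => -2 * ∑ a, γ a *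
    ((starRingEnd ℂ) (χ K) * op1 y (sgA a) χ K).re)
  simp only [Fintype.card_bool, Nat.cast_ofNat] at h2
  have h4 : ∑ K : Q → Bool, (-2 * ∑ a, γ a * ((starRingEnd ℂ) (χ K) * op1 y (sgA a) χ K).re) =
      -2 * ∑ a, γ a * (ip χ (op1 y (sgA a) χ)).re := by
    rw [← Finset.mul_sum, Finset.sum_comm]
    congr 1
    refine Finset.sum_congr rfl fun a _ => ?_
    rw [← Finset.mul_sum]
    unfold ip
    rw [Complex.re_sum]
  rw [h4] at h2
  have h6 : ∑ K : Q → Bool, (-2 * ∑ a, γ a * (∑ ζ, (starRingEnd ℂ) (χ (Function.update K y ζ)) *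
        ∑ b, sgA a ζ b * χ (Function.update K y b)).re) =
      2 * (-2 * ∑ a, γ a * (ip χ (op1 y (sgA a) χ)).re) := by
    rw [← h2]
    refine Finset.sum_congr rfl fun K _ => ?_
    rw [← Finset.mul_sum, Finset.sum_comm]
    congr 1
    refine Finset.sum_congr rfl fun a _ => ?_
    rw [← Finset.mul_sum, Complex.re_sum]
    congr 1
    refine Finset.sum_congr rfl fun ζ _ => ?_
    congr 2
    unfold op1
    simp
  rw [h6] at h1
  linarith

theorem ip_tA_one {Q : Type} [Fintype Q] [DecidableEq Q] (a : Fin 3) (χ : WF Q) :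
    ip χ (tA a (fun _ => 1) χ) = ∑ y, ip χ (op1 y (sgA a) χ) := by
  unfold tA
  rw [ip_sum_right]
  refine Finset.sum_congr rfl fun y _ => ?_
  rw [Complex.ofReal_one, one_smul]

theorem square_idH {Q : Type} [Fintype Q] [DecidableEq Q] (χ F : WF Q) (c : ℝ) :
    - nsq F + nsq (F - ((c : ℝ) : ℂ) • χ) = c ^ 2 * nsq χ - 2 * (c * (ip χ F).re) := by
  have h := square_id χ F ((c : ℝ) : ℂ)
  have e : (fun η => F η - ((c : ℝ) : ℂ) * χ η) = F - ((c : ℝ) : ℂ) • χ := rfl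
  rw [e] at h
  rw [h, Complex.norm_real, Real.norm_eq_abs, sq_abs, Complex.conj_ofReal, Complex.re_ofReal_mul]

/-- the energy estimate -/
theorem cube_energyH {Q A : Type} [Fintype Q] [DecidableEq Q] [Fintype A] {lam : ℝ}
    (hlam : 0 < lam) (R : ℝ) (M : ℝ) (hM0 : 0 < M)
    (L : A → WF Q → WF Q) (c : A → Fin 3 → ℝ) (φ : WF Q) (hφ : nsq φ = 1)
    (h2 : ∀ x y, ∑ α, gH (L α φ) x y = gH φ x y)
    (h4 : ∑ α, ∑ a, nsq (tA a (fun _ => 1) (L α φ) - ((c α a : ℝ) : ℂ) • L α φ) ≤ R * nsq φ) :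
    ∑ α, ((∑ a, (lam / M * c α a) ^ 2) / lam * nsq (L α φ) + (1 / M) * ∑ y,
        (-2 * ∑ a, (lam / M * c α a) * (ip (L α φ) (op1 y (sgA a) (L α φ))).re)) -
        lam * (R / M ^ 2) ≤
      - (lam * ((1 / M ^ 2) * ∑ a, nsq (tA a (fun _ => 1) φ))) := by
  rw [hφ, mul_one] at h4
  have k1 := stabH (fun α => L α φ) φ h2 (fun _ => 1)
  -- completing the square
  have k5 : ∀ α, (∑ a, (lam / M * c α a) ^ 2) / lam * nsq (L α φ) + (1 / M) * ∑ y,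
        (-2 * ∑ a, (lam / M * c α a) * (ip (L α φ) (op1 y (sgA a) (L α φ))).re) =
      lam / M ^ 2 * (- ∑ a, nsq (tA a (fun _ => 1) (L α φ)) +
        ∑ a, nsq (tA a (fun _ => 1) (L α φ) - ((c α a : ℝ) : ℂ) • L α φ)) := by
    intro α
    have e0 : ∑ y, (-2 * ∑ a, (lam / M * c α a) * (ip (L α φ) (op1 y (sgA a) (L α φ))).re) =
        -2 * (lam / M) * ∑ a, c α a * (ip (L α φ) (tA a (fun _ => 1) (L α φ))).re := by
      rw [← Finset.mul_sum, Finset.sum_comm, mul_assoc, Finset.mul_sum univ _ (lam / M)]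
      congr 1
      refine Finset.sum_congr rfl fun a _ => ?_
      rw [ip_tA_one, Complex.re_sum, ← Finset.mul_sum]
      ring
    have e1 : - ∑ a, nsq (tA a (fun _ => 1) (L α φ)) +
        ∑ a, nsq (tA a (fun _ => 1) (L α φ) - ((c α a : ℝ) : ℂ) • L α φ) =
        ∑ a, (c α a ^ 2 * nsq (L α φ) -
          2 * (c α a * (ip (L α φ) (tA a (fun _ => 1) (L α φ))).re)) := by
      rw [← Finset.sum_neg_distrib, ← Finset.sum_add_distrib]
      exact Finset.sum_congr rfl fun a _ => square_idH _ _ _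
    rw [e0, e1, Finset.sum_sub_distrib, ← Finset.sum_mul, ← Finset.mul_sum]
    have e2 : ∑ a, (lam / M * c α a) ^ 2 = (lam / M) ^ 2 * ∑ a, c α a ^ 2 := by
      rw [Finset.mul_sum]
      exact Finset.sum_congr rfl fun a _ => by ring
    rw [e2]
    field_simp
    ring
  rw [Finset.sum_congr rfl fun α _ => k5 α, ← Finset.mul_sum, Finset.sum_add_distrib,
    Finset.sum_neg_distrib, k1]
  have hl : 0 < lam / M ^ 2 := by positivity
  have k6 := mul_le_mul_of_nonneg_left h4 hl.le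
  have e3 : lam / M ^ 2 * R = lam * (R / M ^ 2) := by ring
  have e4 : lam * (1 / M ^ 2 * ∑ a, nsq (tA a (fun _ => 1) φ)) =
      lam / M ^ 2 * ∑ a, nsq (tA a (fun _ => 1) φ) := by ring
  rw [e3] at k6
  rw [e4, mul_add]
  linarith

/-- the mean-field lower bound -/
theorem cube_lowerH {Q : Type} [Fintype Q] [DecidableEq Q] [Nonempty Q] {β lam : ℝ} (hβ : 0 < β)
    (hlam : 0 < lam) (W : ℕ) (hW : 1 ≤ W) (φ : (Q → Bool) → WF Q) (r : (Q → Bool) → ℝ)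
    (hφ : ONB φ) (hr : ∀ x, 0 ≤ r x) (hr1 : ∑ x, r x = 1) (M : ℝ) (hM : M = Fintype.card Q)
    (F : ℝ) (hF : ∀ e, 0 ≤ e → F ≤ mfG β 0 lam e) :
    F - (lam * ((7 * (W : ℝ) ^ 2 + 6 * M ^ 2 / (W : ℝ) ^ 2) / M ^ 2) +
        (1 / (β * M)) * Real.log ((M + 2 * W + 1) ^ 3)) ≤
      - (lam * ∑ x, r x * ((1 / M ^ 2) * ∑ a, nsq (tA a (fun _ => 1) (φ x))))
      + (1 / (β * M)) * ∑ x, r x * Real.log (r x) := by
  have hM0 : 0 < M := by
    rw [hM]; exact_mod_cast Fintype.card_pos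
  obtain ⟨A, hA, L, c, hcard, hadj, hL⟩ := localize3 (Q := Q) W hW
  have hs : ∀ φ, ∑ α, nsq (L α φ) = nsq φ := fun φ => (hL φ).1
  have hφn : ∀ x, nsq (φ x) = 1 := hφ.norm
  -- the one-site bases
  obtain ⟨γ, hγ⟩ : ∃ γ : A → Fin 3 → ℝ, γ = fun α a => lam / M * c α a := ⟨_, rfl⟩
  obtain ⟨e, he⟩ : ∃ e : A → ℝ, e = fun α => Real.sqrt (∑ a, γ α a ^ 2) := ⟨_, rfl⟩
  have he0 : ∀ α, 0 ≤ e α := fun α => by rw [he]; exact Real.sqrt_nonneg _
  have he2 : ∀ α, e α ^ 2 = ∑ a, γ α a ^ 2 := fun α => by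
    rw [he]; exact Real.sq_sqrt (Finset.sum_nonneg fun a _ => sq_nonneg _)
  have hex := fun α => one_siteH (γ α) (e α) (he0 α) (he2 α)
  choose U hU hU1 hUF using hex
  -- the entropy
  have hent := cube_entropy β 0 φ r hφ hr hr1 L hadj hs U hU hU1 e
  have hcardM : (Fintype.card A : ℝ) = (M + 2 * W + 1) ^ 3 := by
    rw [hcard, hM]; push_cast; ring
  rw [hcardM, ← hM] at hent
  -- the form
  have hform : ∀ α x, ∑ K : Q → Bool, (∑ y, sg 0 (e α) (K y)) *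
      ‖gip (pb (U α) K) (L α (φ x))‖ ^ 2 = ∑ y, (-2 * ∑ a, (γ α a) *
        (ip (L α (φ x)) (op1 y (sgA a) (L α (φ x)))).re) := by
    intro α x
    simp only [Finset.sum_mul]
    rw [Finset.sum_comm]
    exact Finset.sum_congr rfl fun y _ => pb_formH (hU α) (hUF α) _ y
  set R : ℝ := 7 * (W : ℝ) ^ 2 + 6 * M ^ 2 / (W : ℝ) ^ 2 with hR
  -- the energy
  have hen : ∀ x, ∑ α, ((∑ a, γ α a ^ 2) / lam * nsq (L α (φ x)) + (1 / M) *
      ∑ K : Q → Bool, (∑ y, sg 0 (e α) (K y)) * ‖gip (pb (U α) K) (L α (φ x))‖ ^ 2) -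
        lam * (R / M ^ 2) ≤
      - (lam * ((1 / M ^ 2) * ∑ a, nsq (tA a (fun _ => 1) (φ x)))) := by
    intro x
    obtain ⟨_, h2, h4⟩ := hL (φ x)
    rw [← hM, ← hR] at h4
    have := cube_energyH hlam R M hM0 L c (φ x) (hφn x) h2 h4
    simp only [hform]
    rw [hγ]
    exact this
  -- the mean-field function
  have hmf : ∀ α, mfG β 0 lam (e α) = (∑ a, γ α a ^ 2) / lam -
      (1 / β) * Real.log (∑ k, Real.exp (-(β * sg 0 (e α) k))) := by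
    intro α
    rw [log_Z1]
    unfold mfG
    rw [he2]
    field_simp
    ring
  have hn1 : ∀ x, ∑ α, nsq (L α (φ x)) = 1 := fun x => by rw [hs, hφn]
  have hF2 : F ≤ ∑ x, r x * ∑ α, ((∑ a, γ α a ^ 2) / lam -
      (1 / β) * Real.log (∑ k, Real.exp (-(β * sg 0 (e α) k)))) * nsq (L α (φ x)) := by
    have h1 : F = ∑ x, r x * ∑ α, F * nsq (L α (φ x)) := by
      simp only [← Finset.mul_sum, hn1, mul_one]
      rw [← Finset.sum_mul, hr1, one_mul]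
    rw [h1]
    refine Finset.sum_le_sum fun x _ => mul_le_mul_of_nonneg_left ?_ (hr x)
    refine Finset.sum_le_sum fun α _ => mul_le_mul_of_nonneg_right ?_ (ki_nsq_nonneg _)
    rw [← hmf]
    exact hF _ (he0 α)
  -- sum of the energies
  obtain ⟨D, hD⟩ : ∃ D : A → (Q → Bool) → ℝ, D = fun α x => ∑ K : Q → Bool,
    (∑ y, sg 0 (e α) (K y)) * ‖gip (pb (U α) K) (L α (φ x))‖ ^ 2 := ⟨_, rfl⟩
  obtain ⟨Z, hZ⟩ : ∃ Z : A → ℝ, Z = fun α => Real.log (∑ k, Real.exp (-(β * sg 0 (e α) k))) :=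
    ⟨_, rfl⟩
  obtain ⟨G, hG⟩ : ∃ G : A → ℝ, G = fun α => ∑ a, γ α a ^ 2 := ⟨_, rfl⟩
  have hD' : ∀ α x, ∑ K : Q → Bool, (∑ y, sg 0 (e α) (K y)) *
    ‖gip (pb (U α) K) (L α (φ x))‖ ^ 2 = D α x := fun α x => by rw [hD]
  have hZ' : ∀ α, Real.log (∑ k, Real.exp (-(β * sg 0 (e α) k))) = Z α := fun α => by rw [hZ]
  have hG' : ∀ α, ∑ a, γ α a ^ 2 = G α := fun α => by rw [hG]
  simp only [hD', hG'] at hen
  simp only [hD', hZ'] at hent
  simp only [hZ', hG'] at hF2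
  set err : ℝ := lam * (R / M ^ 2) with herr
  have hsumE := Finset.sum_le_sum (s := (univ : Finset (Q → Bool))) fun x _ =>
    mul_le_mul_of_nonneg_left (hen x) (hr x)
  have e1 : ∑ x, r x * (∑ α, (G α / lam * nsq (L α (φ x)) + 1 / M * D α x) - err) =
      ∑ x, r x * ∑ α, G α / lam * nsq (L α (φ x)) + 1 / M * (∑ x, r x * ∑ α, D α x) - err := by
    have : ∀ x, r x * (∑ α, (G α / lam * nsq (L α (φ x)) + 1 / M * D α x) - err) =
        r x * ∑ α, G α / lam * nsq (L α (φ x)) + 1 / M * (r x * ∑ α, D α x) - r x * err := by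
      intro x
      rw [Finset.sum_add_distrib, ← Finset.mul_sum]
      ring
    rw [Finset.sum_congr rfl fun x _ => this x, Finset.sum_sub_distrib, Finset.sum_add_distrib,
      ← Finset.mul_sum, ← Finset.sum_mul, hr1, one_mul]
  have e2 : ∑ x, r x * (- (lam * ((1 / M ^ 2) * ∑ a, nsq (tA a (fun _ => 1) (φ x))))) =
      - (lam * ∑ x, r x * ((1 / M ^ 2) * ∑ a, nsq (tA a (fun _ => 1) (φ x)))) := by
    rw [Finset.mul_sum, ← Finset.sum_neg_distrib]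
    exact Finset.sum_congr rfl fun x _ => by ring
  rw [e1, e2] at hsumE
  have e3 : ∑ x, r x * ∑ α, (G α / lam - (1 / β) * Z α) * nsq (L α (φ x)) =
      ∑ x, r x * ∑ α, G α / lam * nsq (L α (φ x)) -
        (1 / β) * ∑ x, r x * ∑ α, Z α * nsq (L α (φ x)) := by
    rw [Finset.mul_sum, ← Finset.sum_sub_distrib]
    refine Finset.sum_congr rfl fun x _ => ?_
    rw [mul_left_comm (1 / β), ← mul_sub]
    congr 1
    rw [Finset.mul_sum, ← Finset.sum_sub_distrib]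
    exact Finset.sum_congr rfl fun α _ => by ring
  rw [e3] at hF2
  have hent2 := mul_le_mul_of_nonneg_left hent (show 0 ≤ 1 / (β * M) by positivity)
  have e4 : 1 / (β * M) * (-∑ x, r x * Real.log (r x) - β * ∑ x, r x * ∑ α, D α x -
      M * ∑ x, r x * ∑ α, Z α * nsq (L α (φ x))) =
      -(1 / (β * M) * ∑ x, r x * Real.log (r x)) - 1 / M * (∑ x, r x * ∑ α, D α x) -
        1 / β * ∑ x, r x * ∑ α, Z α * nsq (L α (φ x)) := by
    field_simp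
  rw [e4] at hent2
  linarith

end Pool.Agent.TH268.HB
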