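import Pool.Agent.TH268.HB.Final
import Pool.Agent.W805.LR.Cons

/-!
# The interchange process and the Heisenberg model: cycles through the origin
-/

set_option autoImplicit false

open Finset BigOperators

namespace Pool.Agent.TH268.HB

open Pool.Agent.H11R2.LatticeBose (hopping hopping_pos periodize Torus)
open Pool.Agent.W805.LR (stirMass cyc len cnt)
open Equiv

theorem hopping_nn {d : ℕ} (hd : 1 ≤ d) {σ : ℝ} (hσ : 0 < σ) (z : Fin d → ℤ) :
    0 ≤ hopping d σ z := by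
  unfold hopping
  split_ifs
  · exact le_rfl
  · exact div_nonneg (Pool.Agent.H11R2.BEC.Ker.ker_nonneg (by positivity)
      (Pool.Agent.H11R2.BEC.Ker.two_rpow_lt_one hσ) z) (hopping_pos hd hσ).le

theorem rate_nn {d : ℕ} (hd : 1 ≤ d) {σ : ℝ} (hσ : 0 < σ) (J : ℕ) (x y : Torus d J) :
    0 ≤ rate d σ J x y := by
  unfold rate
  split_ifs
  · exact le_rfl
  · refine tsum_nonneg fun k => ?_
    split_ifs
    · exact hopping_nn hd hσ _
    · exact le_rfl

theorem rate_self (d : ℕ) (σ : ℝ) (J : ℕ) (x : Torus d J) : rate d σ J x x = 0 := by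
  unfold rate
  rw [if_pos rfl]

/-- translation invariance -/
theorem len_inv {d L : ℕ} [NeZero L] (R : (Fin d → ZMod L) → (Fin d → ZMod L) → ℝ)
    (hR : ∀ x y z, R (x + z) (y + z) = R x y) (t θ : ℝ) (F : ℝ → ℝ) (v : Fin d → ZMod L) :
    ∑ g, stirMass R t g * θ ^ cyc g * F (len g v) =
      ∑ g, stirMass R t g * θ ^ cyc g * F (len g (0 : Fin d → ZMod L)) := by
  let τ : Perm (Fin d → ZMod L) := Equiv.addRight v
  have hτ : ∀ x, τ x = x + v := fun x => rfl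
  rw [← Equiv.sum_comp (MulAut.conj τ).toEquiv]
  refine sum_congr rfl fun g _ => ?_
  have e1 : (MulAut.conj τ).toEquiv g = τ * g * τ⁻¹ := rfl
  have e2 : len (τ * g * τ⁻¹) v = len g 0 := by
    rw [← Pool.Agent.W174.LR.TI.len_conj τ g 0, hτ, zero_add]
  rw [e1, Pool.Agent.W174.LR.TI.stirMass_conj τ R (fun x y => by rw [hτ, hτ, hR]),
    Pool.Agent.W174.LR.TI.cyc_conj, e2]

/-- the mean length of the cycle through the origin, unnormalised -/
theorem cyc_thm (d : ℕ) (hd : 1 ≤ d) (β ε m : ℝ) (hβ : 0 < β) (hε : 0 < ε) (hm : 0 ≤ m)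
    (hm1 : m = Real.tanh (β * m / 2)) (hm2 : 0 < m ∨ β ≤ 2) :
    ∃ σ₀ : ℝ, 0 < σ₀ ∧ ∃ J₀ : ℕ, ∀ σ : ℝ, 0 < σ → σ ≤ σ₀ → ∀ J ≥ J₀,
      ∀ Z : ℝ, Z = ∑ g, stirMass (rate d σ J) β g * 2 ^ cyc g → 0 < Z ∧
        |(∑ g, stirMass (rate d σ J) β g * 2 ^ cyc g * (len g (0 : Torus d J) / 2 ^ (d * J))) / Z -
          m ^ 2 / 3| ≤ ε := by
  obtain ⟨σ₀, hσ₀, J₀, H⟩ := heis_thm d hd β (ε / 4) m hβ (by positivity) hm hm1 hm2
  refine ⟨σ₀, hσ₀, J₀, fun σ hσ hσ1 J hJ Z hZ => ?_⟩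
  obtain ⟨h0, h1⟩ := H σ hσ hσ1 J hJ
  obtain ⟨C, hC, e1, e2⟩ := Pool.Agent.W762.LR.QS.main (Torus d J) (rate d σ J) β
    (rate_self d σ J)
  have e1' : (gibbs (rate d σ J) β).trace = ((C * Z : ℝ) : ℂ) := by
    rw [hZ]; exact e1
  have e2' : ((∑ x, spin3 x) ^ 2 * gibbs (rate d σ J) β).trace =
      ((C * ∑ g, stirMass (rate d σ J) β g * 2 ^ cyc g * ((∑ x, len g x) / 4) : ℝ) : ℂ) := e2
  rw [e1', Complex.ofReal_re] at h0
  have hZ0 : 0 < Z := (mul_pos_iff_of_pos_left hC).1 h0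
  refine ⟨hZ0, ?_⟩
  have htr : ∀ x y z : Torus d J, rate d σ J (x + z) (y + z) = rate d σ J x y := by
    intro x y z
    unfold rate
    rw [add_sub_add_right_eq_sub]
    simp only [add_left_inj]
  have e3 : ∑ g, stirMass (rate d σ J) β g * 2 ^ cyc g * ((∑ x, len g x) / 4) =
      (2 : ℝ) ^ (d * J) / 4 *
        ∑ g, stirMass (rate d σ J) β g * 2 ^ cyc g * len g (0 : Torus d J) := by
    have e4 : ∑ g, stirMass (rate d σ J) β g * 2 ^ cyc g * ((∑ x, len g x) / 4) =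
        (1 / 4) * ∑ x : Torus d J, ∑ g, stirMass (rate d σ J) β g * 2 ^ cyc g * len g x := by
      rw [Finset.sum_comm, Finset.mul_sum]
      refine Finset.sum_congr rfl fun g _ => ?_
      rw [← Finset.mul_sum]
      ring
    rw [e4, Finset.sum_congr rfl fun x _ => len_inv (rate d σ J) htr β 2 (fun r => r) x,
      Finset.sum_const, Finset.card_univ, nsmul_eq_mul]
    have e5 : (Fintype.card (Torus d J) : ℝ) = 2 ^ (d * J) :=
      Pool.Agent.H11R2.BEC.ki_card_site d J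
    rw [e5]
    ring
  rw [e1', e2', ← Complex.ofReal_div, Complex.ofReal_re, e3] at h1
  set X : ℝ := ∑ g, stirMass (rate d σ J) β g * 2 ^ cyc g * len g (0 : Torus d J) with hX
  have e6 : ∑ g, stirMass (rate d σ J) β g * 2 ^ cyc g *
      (len g (0 : Torus d J) / 2 ^ (d * J)) = X / 2 ^ (d * J) := by
    rw [hX, Finset.sum_div]
    exact Finset.sum_congr rfl fun g _ => by ring
  rw [e6]
  have hV : (0 : ℝ) < 2 ^ (d * J) := by positivity
  have e7 : C * ((2 : ℝ) ^ (d * J) / 4 * X) / (C * Z) / ((2 : ℝ) ^ (d * J)) ^ 2 =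
      (1 / 4) * (X / 2 ^ (d * J) / Z) := by
    field_simp
  rw [e7] at h1
  have h2 := abs_le.1 h1
  rw [abs_le]
  constructor <;> linarith [h2.1, h2.2]

end Pool.Agent.TH268.HB
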