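import Pool.Agent.TH268.HB.Pic
import Pool.Agent.TH268.TB.KeyT2

/-!
# The coherences of the Heisenberg ferromagnet
-/

set_option autoImplicit false

open Finset BigOperators

namespace Pool.Agent.TH268.HB

open Pool.Agent.H11R2.BEC Pool.Agent.H11R2.BEC.T3d Pool.Agent.TH268.TB

section

variable {d J : ℕ}

/-- the average of a component of the spin over the cube `z + [0, 2^s)^d` -/
noncomputable def avS (a : Fin 3) (s : ℕ) (z : Site d J) (ψ : WF (Site d J)) : WF (Site d J) :=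
  tA a (kiW s z) ψ

/-- the coherence at the scale `2^s` -/
noncomputable def cohH (s : ℕ) (ψ : WF (Site d J)) : ℝ :=
  (1 / (2 : ℝ) ^ (d * J)) * ∑ z : Site d J, ∑ a, nsq (avS a s z ψ)

/-- the mean square of the differences -/
noncomputable def usH (s j : ℕ) (ψ : WF (Site d J)) : ℝ :=
  (1 / (2 : ℝ) ^ (d * j)) * ∑ z ∈ inn j s, (1 / (2 : ℝ) ^ (d * J)) * ∑ w : Site d J,
    ∑ a, nsq (avS a s (emb w z) ψ - avS a j w ψ)

/-- the energy per site -/
noncomputable def enH (q : ℝ) (ψ : WF (Site d J)) : ℝ :=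
  - ∑ s ∈ range (J + 1), cf q J s * cohH s ψ

theorem av_RR (k : Fin 6) (s : ℕ) (z : Site d J) (ψ : WF (Site d J)) :
    av s z (RR k ψ) = RR k (∑ a, ck k a • avS a s z ψ) := by
  rw [ki_av_lowU, lowU_RR]
  rfl

theorem sum_av_RR (s : ℕ) (z : Site d J) (ψ : WF (Site d J)) :
    ∑ k : Fin 6, nsq (av s z (RR k ψ)) = 4 * ∑ a, nsq (avS a s z ψ) := by
  rw [← sum_nsq_ck]
  refine Finset.sum_congr rfl fun k _ => ?_
  rw [av_RR, nsq_RR]

theorem sum_diff_RR (s : ℕ) (z : Site d J) (j : ℕ) (w : Site d J) (ψ : WF (Site d J)) :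
    ∑ k : Fin 6, nsq (fun η => av s z (RR k ψ) η - av j w (RR k ψ) η) =
      4 * ∑ a, nsq (avS a s z ψ - avS a j w ψ) := by
  rw [← sum_nsq_ck]
  refine Finset.sum_congr rfl fun k _ => ?_
  rw [← nsq_RR k (∑ a, ck k a • (avS a s z ψ - avS a j w ψ))]
  congr 1
  have h1 : ∑ a, ck k a • (avS a s z ψ - avS a j w ψ) =
      (∑ a, ck k a • avS a s z ψ) - ∑ a, ck k a • avS a j w ψ := by
    simp only [smul_sub, Finset.sum_sub_distrib]
  rw [h1, RR_sub, ← av_RR, ← av_RR]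
  rfl

theorem cohH_eq (s : ℕ) (ψ : WF (Site d J)) : ∑ k : Fin 6, coh s (RR k ψ) = 4 * cohH s ψ := by
  unfold coh cohH
  rw [← Finset.mul_sum, Finset.sum_comm, Finset.sum_congr rfl fun z _ => sum_av_RR s z ψ,
    ← Finset.mul_sum]
  ring

theorem usH_eq (s j : ℕ) (ψ : WF (Site d J)) : ∑ k : Fin 6, us s j (RR k ψ) = 4 * usH s j ψ := by
  unfold us usH
  rw [← Finset.mul_sum, Finset.sum_comm, mul_left_comm, Finset.mul_sum (inn j s) _ 4]
  congr 1
  refine Finset.sum_congr rfl fun z _ => ?_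
  rw [← Finset.mul_sum, Finset.sum_comm, mul_left_comm, Finset.mul_sum univ _ (4 : ℝ)]
  congr 1
  refine Finset.sum_congr rfl fun w _ => ?_
  rw [sum_diff_RR]

theorem enH_eq (q : ℝ) (ψ : WF (Site d J)) : ∑ k : Fin 6, en q 0 0 (RR k ψ) = 4 * enH q ψ := by
  unfold en enH
  have h : ∀ k : Fin 6, -∑ s ∈ range (J + 1), cf q J s * coh s (RR k ψ) + 0 * nn (RR k ψ) -
      0 * rho (RR k ψ) = -∑ s ∈ range (J + 1), cf q J s * coh s (RR k ψ) := fun k => by ring
  rw [Finset.sum_congr rfl fun k _ => h k, Finset.sum_neg_distrib, Finset.sum_comm]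
  simp only [← Finset.mul_sum, cohH_eq]
  rw [mul_neg, Finset.mul_sum]
  congr 1
  exact Finset.sum_congr rfl fun s _ => by ring

theorem cohH_antitone {s : ℕ} (hs : s < J) (ψ : WF (Site d J)) : cohH (s + 1) ψ ≤ cohH s ψ := by
  have h := Finset.sum_le_sum (s := (univ : Finset (Fin 6))) fun k _ =>
    coh_antitone hs (RR k ψ)
  rw [cohH_eq, cohH_eq] at h
  linarith

theorem usH_lower {s j : ℕ} (hs : s < j) (hj : j < J) (ψ : WF (Site d J)) :
    (cohH s ψ - cohH j ψ)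
      - (1 / 2 : ℝ) ^ (j - s) * (d * (cohH s ψ - cohH j ψ)
        + 2 * d * Cd d * ∑ i ∈ range (j + 1), (1 / 2 : ℝ) ^ (j - i) * (cohH i ψ - cohH (i + 1) ψ))
      ≤ usH s j ψ := by
  have h := Finset.sum_le_sum (s := (univ : Finset (Fin 6))) fun k _ =>
    us_lower hs hj (RR k ψ)
  rw [usH_eq] at h
  have h1 : ∀ s, cohH s ψ = (1 / 4) * ∑ k : Fin 6, coh s (RR k ψ) := by
    intro s; rw [cohH_eq]; ring
  have h2 : ∑ k : Fin 6, ((coh s (RR k ψ) - coh j (RR k ψ))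
      - (1 / 2 : ℝ) ^ (j - s) * (d * (coh s (RR k ψ) - coh j (RR k ψ))
        + 2 * d * Cd d * ∑ i ∈ range (j + 1), (1 / 2 : ℝ) ^ (j - i) *
          (coh i (RR k ψ) - coh (i + 1) (RR k ψ)))) =
      4 * ((cohH s ψ - cohH j ψ)
      - (1 / 2 : ℝ) ^ (j - s) * (d * (cohH s ψ - cohH j ψ)
        + 2 * d * Cd d * ∑ i ∈ range (j + 1), (1 / 2 : ℝ) ^ (j - i) *
          (cohH i ψ - cohH (i + 1) ψ))) := by
    have h3 : ∑ k : Fin 6, ∑ i ∈ range (j + 1), (1 / 2 : ℝ) ^ (j - i) *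
          (coh i (RR k ψ) - coh (i + 1) (RR k ψ)) =
        4 * ∑ i ∈ range (j + 1), (1 / 2 : ℝ) ^ (j - i) * (cohH i ψ - cohH (i + 1) ψ) := by
      rw [Finset.sum_comm, Finset.mul_sum]
      refine Finset.sum_congr rfl fun i _ => ?_
      rw [← Finset.mul_sum, Finset.sum_sub_distrib, cohH_eq, cohH_eq]
      ring
    rw [Finset.sum_sub_distrib, ← Finset.mul_sum, Finset.sum_add_distrib, ← Finset.mul_sum,
      ← Finset.mul_sum, h3, Finset.sum_sub_distrib, cohH_eq, cohH_eq]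
    ring
  rw [h2] at h
  linarith

theorem coh_nonneg0 (s : ℕ) (ψ : WF (Site d J)) : 0 ≤ cohH s ψ := by
  unfold cohH
  refine mul_nonneg (by positivity) (Finset.sum_nonneg fun z _ => Finset.sum_nonneg fun a _ => ?_)
  exact ki_nsq_nonneg _

end

/-- the Gibbs state of `2^(dJ) * enH q` at the inverse temperature `β` -/
structure IsGibbsH {d J : ℕ} (q β : ℝ) (ψ : (Site d J → Bool) → WF (Site d J))
    (E lam : (Site d J → Bool) → ℝ) : Prop where
  onb : ONB ψ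
  en : ∀ χ : WF (Site d J), (2 : ℝ) ^ (d * J) * enH q χ = ∑ m, E m * ‖gip (ψ m) χ‖ ^ 2
  lam : ∀ m, lam m = Real.exp (-(β * E m)) / ∑ m, Real.exp (-(β * E m))

end Pool.Agent.TH268.HB
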