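import Pool.Agent.TH268.HB.Model
import Pool.Agent.TH268.HB.Defs
import Pool.Agent.TH268.TB.Link

/-!
# The Gibbs state of the Heisenberg model in an eigenfamily, and the coherences
-/

set_option autoImplicit false

open Finset BigOperators

namespace Pool.Agent.TH268.HB

open Pool.Agent.H11R2.BEC Pool.Agent.TH268.TB Pool.Agent.H11R2.LatticeBose

section spinlemmas

variable {V : Type} [Fintype V] [DecidableEq V]

theorem lk_flip_iff (x : V) (s s' : V → Bool) :
    s' = Function.update s x (!(s x)) ↔ s = Function.update s' x (!(s' x)) := by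
  constructor
  · rintro rfl
    simp
  · rintro rfl
    simp

theorem lk_spin1_herm (x : V) : (spin1 x).conjTranspose = spin1 x := by
  ext s s'
  rw [Matrix.conjTranspose_apply]
  unfold spin1
  by_cases h : s' = Function.update s x (!(s x))
  · rw [if_pos h, if_pos ((lk_flip_iff x s s').1 h)]
    simp
  · rw [if_neg h, if_neg (fun h' => h ((lk_flip_iff x s s').2 h'))]
    exact star_zero _

theorem lk_spin2_herm (x : V) : (spin2 x).conjTranspose = spin2 x := by
  ext s s'
  rw [Matrix.conjTranspose_apply]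
  unfold spin2
  by_cases h : s' = Function.update s x (!(s x))
  · have h2 : s' x = !(s x) := by rw [h]; simp
    rw [if_pos h, if_pos ((lk_flip_iff x s s').1 h), h2]
    cases s x <;> simp
  · rw [if_neg h, if_neg (fun h' => h ((lk_flip_iff x s s').2 h'))]
    exact star_zero _

theorem lk_spin3_herm (x : V) : (spin3 x).conjTranspose = spin3 x := by
  unfold spin3
  rw [Matrix.diagonal_conjTranspose]
  congr 1
  funext s
  rw [Pi.star_apply]
  split_ifs <;> simp

theorem lk_spin1_mulVec (x : V) (v : WF V) : (spin1 x).mulVec v = op1 x (sgA 0) v := by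
  funext s
  have h1 : (spin1 x).mulVec v s =
      ∑ s', (if s' = Function.update s x (!(s x)) then (1 / 2 : ℂ) else 0) * v s' := rfl
  have h2 : op1 x (sgA 0) v s = ∑ b, sg1 (s x) b * v (Function.update s x b) := rfl
  rw [h1, h2, Finset.sum_eq_single (Function.update s x (!(s x)))]
  · rw [if_pos rfl, Fintype.sum_bool]
    unfold sg1
    cases s x <;> simp
  · intro s' _ h
    rw [if_neg h, zero_mul]
  · intro h
    exact absurd (Finset.mem_univ _) h

theorem lk_spin2_mulVec (x : V) (v : WF V) : (spin2 x).mulVec v = op1 x (sgA 1) v := by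
  funext s
  have h1 : (spin2 x).mulVec v s =
      ∑ s', (if s' = Function.update s x (!(s x)) then
        (if s x then -Complex.I / 2 else Complex.I / 2) else 0) * v s' := rfl
  have h2 : op1 x (sgA 1) v s = ∑ b, sg2 (s x) b * v (Function.update s x b) := rfl
  rw [h1, h2, Finset.sum_eq_single (Function.update s x (!(s x)))]
  · rw [if_pos rfl, Fintype.sum_bool]
    unfold sg2
    cases s x <;> simp
  · intro s' _ h
    rw [if_neg h, zero_mul]
  · intro h
    exact absurd (Finset.mem_univ _) h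

theorem lk_spin3_mulVec (x : V) (v : WF V) : (spin3 x).mulVec v = op1 x (sgA 2) v := by
  funext s
  have h1 : (spin3 x).mulVec v s = (if s x then (1 / 2 : ℂ) else -1 / 2) * v s := by
    unfold spin3
    rw [Matrix.mulVec_diagonal]
  have h2 : op1 x (sgA 2) v s = ∑ b, sg3 (s x) b * v (Function.update s x b) := rfl
  have h3 : Function.update s x (s x) = s := Function.update_eq_self x s
  rw [h1, h2, Fintype.sum_bool]
  unfold sg3
  cases h : s x
  · rw [h] at h3
    simp [h3]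
  · rw [h] at h3
    simp [h3]

theorem lk_heis_herm (Jm : V → V → ℝ) (hJ : ∀ x y, Jm x y = Jm y x) :
    (heisenberg Jm).IsHermitian := by
  unfold heisenberg Matrix.IsHermitian
  rw [Matrix.conjTranspose_neg, Matrix.conjTranspose_sum]
  congr 1
  simp_rw [Matrix.conjTranspose_sum]
  rw [Finset.sum_comm]
  refine Finset.sum_congr rfl fun x _ => Finset.sum_congr rfl fun y _ => ?_
  rw [Matrix.conjTranspose_smul, Matrix.conjTranspose_add, Matrix.conjTranspose_add,
    Matrix.conjTranspose_mul, Matrix.conjTranspose_mul, Matrix.conjTranspose_mul,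
    lk_spin1_herm, lk_spin1_herm, lk_spin2_herm, lk_spin2_herm, lk_spin3_herm, lk_spin3_herm,
    hJ y x]
  congr 1
  exact Complex.conj_ofReal _

theorem lk_nsq_add (φ χ : WF V) : nsq (φ + χ) = nsq φ + nsq χ + 2 * (ip φ χ).re := by
  unfold nsq ip
  rw [Complex.re_sum, Finset.mul_sum, ← Finset.sum_add_distrib, ← Finset.sum_add_distrib]
  refine Finset.sum_congr rfl fun η _ => ?_
  rw [Pi.add_apply, ← Complex.normSq_eq_norm_sq, ← Complex.normSq_eq_norm_sq,
    ← Complex.normSq_eq_norm_sq, Complex.normSq_add]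
  have h : (φ η * (starRingEnd ℂ) (χ η)).re = ((starRingEnd ℂ) (φ η) * χ η).re := by
    simp [Complex.mul_re]
  rw [h]

theorem lk_bil (F G : Fin 3 → WF V) :
    ∑ k : Fin 6, (ip (∑ a, ck k a • F a) (∑ a, ck k a • G a)).re =
      4 * ∑ a, (ip (F a) (G a)).re := by
  have h1 := sum_nsq_ck (fun a => F a + G a)
  have h2 := sum_nsq_ck F
  have h3 := sum_nsq_ck G
  have h4 : ∀ k : Fin 6, nsq (∑ a, ck k a • (F a + G a)) =
      nsq (∑ a, ck k a • F a) + nsq (∑ a, ck k a • G a) +
        2 * (ip (∑ a, ck k a • F a) (∑ a, ck k a • G a)).re := by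
    intro k
    rw [← lk_nsq_add]
    congr 1
    rw [← Finset.sum_add_distrib]
    exact Finset.sum_congr rfl fun a _ => smul_add _ _ _
  have h5 : ∀ a : Fin 3, nsq (F a + G a) = nsq (F a) + nsq (G a) + 2 * (ip (F a) (G a)).re :=
    fun a => lk_nsq_add _ _
  rw [Finset.sum_congr rfl fun k _ => h4 k, Finset.sum_add_distrib, Finset.sum_add_distrib,
    ← Finset.mul_sum, h2, h3, Finset.sum_congr rfl fun a _ => h5 a, Finset.sum_add_distrib,
    Finset.sum_add_distrib, ← Finset.mul_sum] at h1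
  linarith

theorem lk_cor_RR (k : Fin 6) (v : WF V) (x y : V) :
    cor (RR k v) x y =
      (ip (∑ a, ck k a • op1 x (sgA a) v) (∑ a, ck k a • op1 y (sgA a) v)).re := by
  unfold cor
  rw [low_RR, low_RR, ip_RR, op1_Ak, op1_Ak]

theorem lk_gH (v : WF V) (x y : V) : ∑ k : Fin 6, cor (RR k v) x y = 4 * gH v x y := by
  unfold gH
  rw [← lk_bil]
  exact Finset.sum_congr rfl fun k _ => lk_cor_RR k v x y

end spinlemmas

section torus

variable {d J : ℕ}

open Pool.Agent.TH268.ThermalBose (Op)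

theorem lk_expL_mul (a : Fin 3) (A B : Op d J) (x y : Torus d J) (v : Vec d J)
    (hA : ∀ w : Vec d J, A.mulVec w = op1 x (sgA a) w)
    (hB : ∀ w : Vec d J, B.mulVec w = op1 y (sgA a) w) :
    expL v (A * B) = ip (op1 x (sgA a) v) (op1 y (sgA a) v) := by
  rw [expL_apply, ← Matrix.mulVec_mulVec, hB, hA, op1_adj, sgA_star]
  rfl

theorem lk_expL_SS (x y : Torus d J) (v : Vec d J) :
    (expL v (spin1 x * spin1 y + spin2 x * spin2 y + spin3 x * spin3 y)).re = gH v x y := by
  rw [map_add, map_add,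
    lk_expL_mul 0 (spin1 x) (spin1 y) x y v (lk_spin1_mulVec x) (lk_spin1_mulVec y),
    lk_expL_mul 1 (spin2 x) (spin2 y) x y v (lk_spin2_mulVec x) (lk_spin2_mulVec y),
    lk_expL_mul 2 (spin3 x) (spin3 y) x y v (lk_spin3_mulVec x) (lk_spin3_mulVec y)]
  unfold gH
  rw [Fin.sum_univ_three, Complex.add_re, Complex.add_re]

theorem lk_expL_heis (Jm : Torus d J → Torus d J → ℝ) (v : Vec d J) :
    (expL v (heisenberg Jm)).re = - ∑ x, ∑ y, Jm x y * gH v x y := by
  unfold heisenberg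
  rw [map_neg, map_sum, Complex.neg_re, Complex.re_sum]
  congr 1
  refine Finset.sum_congr rfl fun x _ => ?_
  rw [map_sum, Complex.re_sum]
  refine Finset.sum_congr rfl fun y _ => ?_
  rw [map_smul, smul_eq_mul, Complex.re_ofReal_mul, lk_expL_SS]

theorem lk_expL_obs (v : Vec d J) :
    (expL v ((∑ x, spin1 x) ^ 2 + (∑ x, spin2 x) ^ 2 + (∑ x, spin3 x) ^ 2 : Op d J)).re =
      ∑ x : Torus d J, ∑ y : Torus d J, gH v x y := by
  have h1 : ((∑ x, spin1 x) ^ 2 + (∑ x, spin2 x) ^ 2 + (∑ x, spin3 x) ^ 2 : Op d J) =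
      ∑ x : Torus d J, ∑ y : Torus d J,
        (spin1 x * spin1 y + spin2 x * spin2 y + spin3 x * spin3 y) := by
    rw [sq, sq, sq, Finset.sum_mul_sum, Finset.sum_mul_sum, Finset.sum_mul_sum,
      ← Finset.sum_add_distrib, ← Finset.sum_add_distrib]
    refine Finset.sum_congr rfl fun x _ => ?_
    rw [← Finset.sum_add_distrib, ← Finset.sum_add_distrib]
  rw [h1, map_sum, Complex.re_sum]
  refine Finset.sum_congr rfl fun x _ => ?_
  rw [map_sum, Complex.re_sum]
  exact Finset.sum_congr rfl fun y _ => lk_expL_SS x y v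

theorem lk_sum_gH (v : WF (Site d J)) :
    ∑ x : Site d J, ∑ y : Site d J, gH v x y = ((2 : ℝ) ^ (d * J)) ^ 2 * cohH J v := by
  have h1 : ∀ k : Fin 6, ∑ x : Site d J, ∑ y : Site d J, cor (RR k v) x y =
      ((2 : ℝ) ^ (d * J)) ^ 2 * coh J (RR k v) := fun k => Ker.coh_top (RR k v)
  have h2 : ∑ k : Fin 6, ∑ x : Site d J, ∑ y : Site d J, cor (RR k v) x y =
      4 * ∑ x : Site d J, ∑ y : Site d J, gH v x y := by
    rw [Finset.sum_comm, Finset.mul_sum]
    refine Finset.sum_congr rfl fun x _ => ?_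
    rw [Finset.sum_comm, Finset.mul_sum]
    exact Finset.sum_congr rfl fun y _ => lk_gH v x y
  rw [Finset.sum_congr rfl fun k _ => h1 k, ← Finset.mul_sum, cohH_eq] at h2
  linarith

theorem lk_sum_rho (v : WF (Site d J)) : ∑ k : Fin 6, rho (RR k v) = 3 * nsq v := by
  unfold rho
  rw [← Finset.mul_sum, Finset.sum_comm]
  have h1 : ∀ x : Site d J, ∑ k : Fin 6, pd (RR k v) x x = 3 * nsq v := by
    intro x
    have h2 : ∀ k : Fin 6, pd (RR k v) x x = cor (RR k v) x x := fun k =>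
      (Ker.cor_self (RR k v) (fun x => t8_nsq_low x _) x).symm
    rw [Finset.sum_congr rfl fun k _ => h2 k, lk_gH, gH_diag]
    ring
  rw [Finset.sum_congr rfl fun x _ => h1 x, Finset.sum_const, Finset.card_univ, nsmul_eq_mul,
    ki_card_site]
  have : (2 : ℝ) ^ (d * J) ≠ 0 := by positivity
  field_simp

theorem lk_hop {σ : ℝ} (hσ : 0 < σ) (v : WF (Site d J)) :
    ∑ x : Torus d J, ∑ y : Torus d J, rate d σ J x y * gH v x y =
      2 ^ (d * J) / (1 - Ker.ker d ((2 : ℝ) ^ (-σ)) 0) *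
        (∑ s ∈ range (J + 1), cf ((2 : ℝ) ^ (-σ)) J s * cohH s v -
          tz d J ((2 : ℝ) ^ (-σ)) * (3 / 4 * nsq v)) := by
  have h1 := Finset.sum_congr rfl fun (k : Fin 6) (_ : k ∈ univ) =>
    hop_sum_eq (d := d) (J := J) hσ (RR k v)
  have h2 : ∑ k : Fin 6, (∑ x : Torus d J, ∑ y : Torus d J,
      if x = y then 0 else periodize (hopping d σ) J (y - x) * corr (RR k v) x y) =
      4 * ∑ x : Torus d J, ∑ y : Torus d J, rate d σ J x y * gH v x y := by
    rw [Finset.sum_comm, Finset.mul_sum]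
    refine Finset.sum_congr rfl fun x _ => ?_
    rw [Finset.sum_comm, Finset.mul_sum]
    refine Finset.sum_congr rfl fun y _ => ?_
    unfold rate
    split_ifs with hxy
    · simp
    · rw [← Finset.mul_sum]
      have h3 : ∑ k : Fin 6, corr (RR k v) x y = 4 * gH v x y := lk_gH v x y
      rw [h3]
      ring
  have h4 : ∑ k : Fin 6, (2 ^ (d * J) / (1 - Ker.ker d ((2 : ℝ) ^ (-σ)) 0) *
      (∑ s ∈ range (J + 1), cf ((2 : ℝ) ^ (-σ)) J s * coh s (RR k v) -
        tz d J ((2 : ℝ) ^ (-σ)) * rho (RR k v))) =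
      4 * (2 ^ (d * J) / (1 - Ker.ker d ((2 : ℝ) ^ (-σ)) 0) *
        (∑ s ∈ range (J + 1), cf ((2 : ℝ) ^ (-σ)) J s * cohH s v -
          tz d J ((2 : ℝ) ^ (-σ)) * (3 / 4 * nsq v))) := by
    rw [← Finset.mul_sum, Finset.sum_sub_distrib, ← Finset.mul_sum, lk_sum_rho, Finset.sum_comm]
    simp_rw [← Finset.mul_sum, cohH_eq]
    have h5 : ∑ s ∈ range (J + 1), cf ((2 : ℝ) ^ (-σ)) J s * (4 * cohH s v) =
        4 * ∑ s ∈ range (J + 1), cf ((2 : ℝ) ^ (-σ)) J s * cohH s v := by
      rw [Finset.mul_sum]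
      exact Finset.sum_congr rfl fun s _ => by ring
    rw [h5]
    ring
  have h6 := h2.symm.trans (h1.trans h4)
  linarith

theorem lk_rate_symm (σ : ℝ) (x y : Torus d J) : rate d σ J x y = rate d σ J y x := by
  unfold rate
  by_cases h : x = y
  · rw [if_pos h, if_pos h.symm]
  · rw [if_neg h, if_neg (Ne.symm h), ← neg_sub x y, periodize_hop_neg]

end torus

/-- The Gibbs state of the Heisenberg model in an eigenfamily. -/
theorem linkH0 {d J : ℕ} (hd : 1 ≤ d) {σ : ℝ} (hσ : 0 < σ) (β : ℝ) :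
    ∃ (ψ : (Site d J → Bool) → WF (Site d J)) (E : (Site d J → Bool) → ℝ), ONB ψ ∧
      (∀ χ : WF (Site d J), (2 : ℝ) ^ (d * J) * enH ((2 : ℝ) ^ (-σ)) χ =
          ∑ m, E m * ‖gip (ψ m) χ‖ ^ 2) ∧
      ∀ B : ℝ, B = β / (1 - Ker.ker d ((2 : ℝ) ^ (-σ)) 0) →
        (0 : ℝ) < (gibbs (rate d σ J) β).trace.re ∧
        ((((∑ x, spin1 x) ^ 2 + (∑ x, spin2 x) ^ 2 + (∑ x, spin3 x) ^ 2) *
          gibbs (rate d σ J) β).trace / (gibbs (rate d σ J) β).trace).re /
            ((2 : ℝ) ^ (d * J)) ^ 2 =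
          (∑ m, Real.exp (-(B * E m)) * cohH J (ψ m)) / ∑ m, Real.exp (-(B * E m)) := by
  obtain ⟨ψ, E, hn, hp, hE, hO⟩ := gibbs_eigen (heisenberg (rate d σ J))
    (lk_heis_herm (rate d σ J) (lk_rate_symm σ))
  have hD := hopping_pos hd hσ
  set D : ℝ := 1 - Ker.ker d ((2 : ℝ) ^ (-σ)) 0 with hDdef
  set c : ℝ := 2 ^ (d * J) * (tz d J ((2 : ℝ) ^ (-σ)) * (3 / 4)) with hc
  refine ⟨ψ, fun m => D * E m - c, ⟨hn, hp⟩, ?_, ?_⟩
  · intro χ
    have h1 := congrArg Complex.re (hE χ)
    rw [← expL_apply, lk_expL_heis, Complex.ofReal_re, lk_hop hσ χ] at h1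
    have h2 : ∑ m, (D * E m - c) * ‖gip (ψ m) χ‖ ^ 2 =
        D * ∑ m, E m * ‖∑ x, (starRingEnd ℂ) (ψ m x) * χ x‖ ^ 2 - c * nsq χ := by
      have h3 : ∑ m, ‖gip (ψ m) χ‖ ^ 2 = nsq χ := hp χ
      rw [← h3, Finset.mul_sum, Finset.mul_sum, ← Finset.sum_sub_distrib]
      refine Finset.sum_congr rfl fun m _ => ?_
      unfold gip
      ring
    rw [h2, ← h1, ← hDdef, hc]
    unfold enH
    field_simp
    ring
  · intro B hB
    have hBE : ∀ m, Real.exp (-(B * (D * E m - c))) =
        Real.exp (B * c) * Real.exp (-(β * E m)) := by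
      intro m
      rw [← Real.exp_add]
      congr 1
      rw [hB]
      field_simp
      ring
    have hZ : (0 : ℝ) < ∑ m, Real.exp (-(β * E m)) :=
      Finset.sum_pos (fun m _ => Real.exp_pos _) Finset.univ_nonempty
    have htr : (gibbs (rate d σ J) β).trace = ((∑ m, Real.exp (-(β * E m)) : ℝ) : ℂ) := by
      have h2 := hO β 1
      rw [Matrix.mul_one] at h2
      unfold gibbs
      rw [h2, Complex.ofReal_sum]
      refine Finset.sum_congr rfl fun m _ => ?_
      rw [Matrix.one_mulVec]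
      have h3 : ∑ x, (starRingEnd ℂ) (ψ m x) * ψ m x = 1 := by
        have h4 : ∑ x, (starRingEnd ℂ) (ψ m x) * ψ m x = ((∑ x, ‖ψ m x‖ ^ 2 : ℝ) : ℂ) := by
          rw [Complex.ofReal_sum]
          refine Finset.sum_congr rfl fun x _ => ?_
          rw [Complex.conj_mul', Complex.ofReal_pow]
        rw [h4, hn m, Complex.ofReal_one]
      rw [h3, mul_one]
    refine ⟨by rw [htr, Complex.ofReal_re]; exact hZ, ?_⟩
    have hnum : ((((∑ x, spin1 x) ^ 2 + (∑ x, spin2 x) ^ 2 + (∑ x, spin3 x) ^ 2) *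
          gibbs (rate d σ J) β).trace).re =
        ∑ m, Real.exp (-(β * E m)) * (((2 : ℝ) ^ (d * J)) ^ 2 * cohH J (ψ m)) := by
      rw [Matrix.trace_mul_comm]
      unfold gibbs
      rw [hO β, Complex.re_sum]
      refine Finset.sum_congr rfl fun m _ => ?_
      rw [Complex.re_ofReal_mul, ← expL_apply, lk_expL_obs]
      rw [← lk_sum_gH (ψ m)]
    simp_rw [hBE, mul_assoc]
    rw [← Finset.mul_sum, ← Finset.mul_sum, mul_div_mul_left _ _ (Real.exp_pos _).ne', htr,
      Complex.div_ofReal_re, hnum, div_right_comm]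
    congr 1
    rw [Finset.sum_div]
    refine Finset.sum_congr rfl fun m _ => ?_
    have h7 : ((2 : ℝ) ^ (d * J)) ^ 2 ≠ 0 := by positivity
    field_simp

end Pool.Agent.TH268.HB
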