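import Pool.Agent.TH268.HB.Model

/-!
# Rotation invariance of the Gibbs state of the Heisenberg model
-/

set_option autoImplicit false

open Finset BigOperators

namespace Pool.Agent.TH268.HB

section sym

variable {V : Type} [Fintype V] [DecidableEq V]

/-- tensor product of one-site matrices -/
noncomputable def SymT (U : V → Matrix Bool Bool ℂ) : Matrix (V → Bool) (V → Bool) ℂ :=
  fun s s' => ∏ x, U x (s x) (s' x)

theorem SymT_mul (U W : V → Matrix Bool Bool ℂ) :
    SymT U * SymT W = SymT (fun x => U x * W x) := by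
  ext s s'
  rw [Matrix.mul_apply]
  unfold SymT
  simp_rw [Matrix.mul_apply]
  rw [Finset.prod_univ_sum, Fintype.piFinset_univ]
  exact Finset.sum_congr rfl fun t _ => by rw [Finset.prod_mul_distrib]

omit [DecidableEq V] in
theorem SymT_one : SymT (fun _ : V => (1 : Matrix Bool Bool ℂ)) = 1 := by
  ext s s'
  unfold SymT
  by_cases h : s = s'
  · subst h
    simp
  · rw [Matrix.one_apply_ne h]
    obtain ⟨x, hx⟩ := Function.ne_iff.1 h
    exact Finset.prod_eq_zero (Finset.mem_univ x) (Matrix.one_apply_ne hx)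

/-- the matrix `a` at the site `x` -/
noncomputable def SymO (x : V) (a : Matrix Bool Bool ℂ) : Matrix (V → Bool) (V → Bool) ℂ :=
  SymT (fun y => if y = x then a else 1)

theorem SymO_apply (x : V) (a : Matrix Bool Bool ℂ) (s s' : V → Bool) :
    SymO x a s s' = if ∀ y, y ≠ x → s y = s' y then a (s x) (s' x) else 0 := by
  unfold SymO SymT
  split_ifs with h
  · rw [Finset.prod_eq_single x]
    · beta_reduce
      rw [if_pos rfl]
    · intro y _ hy
      beta_reduce
      rw [if_neg hy, h y hy, Matrix.one_apply_eq]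
    · intro hx
      exact absurd (Finset.mem_univ x) hx
  · push Not at h
    obtain ⟨y, hy, hy'⟩ := h
    refine Finset.prod_eq_zero (Finset.mem_univ y) ?_
    beta_reduce
    rw [if_neg hy]
    exact Matrix.one_apply_ne hy'

theorem SymO_neg (x : V) (a : Matrix Bool Bool ℂ) : SymO x (-a) = -SymO x a := by
  ext s s'
  rw [Matrix.neg_apply, SymO_apply, SymO_apply]
  split_ifs <;> simp

/-- the spin matrices (`true` is up) -/
noncomputable def Symg1 : Matrix Bool Bool ℂ := fun i j => if i = j then 0 else 1 / 2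

noncomputable def Symg2 : Matrix Bool Bool ℂ := fun i j =>
  if i = j then 0 else if i = true then -Complex.I / 2 else Complex.I / 2

noncomputable def Symg3 : Matrix Bool Bool ℂ := fun i j =>
  if i = j then (if i = true then 1 / 2 else -1 / 2) else 0

omit [Fintype V] in
theorem Sym_cond (x : V) (s s' : V → Bool) :
    s' = Function.update s x (!(s x)) ↔ (∀ y, y ≠ x → s y = s' y) ∧ s x ≠ s' x := by
  constructor
  · intro h
    refine ⟨fun y hy => ?_, ?_⟩
    · rw [h, Function.update_of_ne hy]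
    · rw [h, Function.update_self]
      cases s x <;> simp
  · rintro ⟨h1, h2⟩
    funext y
    by_cases hy : y = x
    · subst hy
      rw [Function.update_self]
      revert h2
      cases s y <;> cases s' y <;> simp
    · rw [Function.update_of_ne hy, h1 y hy]

theorem Sym_spin1 (x : V) : spin1 x = SymO x Symg1 := by
  ext s s'
  rw [SymO_apply]
  unfold spin1 Symg1
  simp only [Sym_cond]
  by_cases h1 : ∀ y, y ≠ x → s y = s' y
  · by_cases h2 : s x = s' x
    · rw [if_neg (fun h => h.2 h2), if_pos h1, if_pos h2]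
    · rw [if_pos ⟨h1, h2⟩, if_pos h1, if_neg h2]
  · rw [if_neg (fun h => h1 h.1), if_neg h1]

theorem Sym_spin2 (x : V) : spin2 x = SymO x Symg2 := by
  ext s s'
  rw [SymO_apply]
  unfold spin2 Symg2
  simp only [Sym_cond]
  by_cases h1 : ∀ y, y ≠ x → s y = s' y
  · by_cases h2 : s x = s' x
    · rw [if_neg (fun h => h.2 h2), if_pos h1, if_pos h2]
    · rw [if_pos ⟨h1, h2⟩, if_pos h1, if_neg h2]
  · rw [if_neg (fun h => h1 h.1), if_neg h1]

theorem Sym_spin3 (x : V) : spin3 x = SymO x Symg3 := by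
  ext s s'
  rw [SymO_apply]
  unfold spin3 Symg3
  by_cases h : s = s'
  · subst h
    rw [Matrix.diagonal_apply_eq, if_pos (fun _ _ => rfl), if_pos rfl]
  · rw [Matrix.diagonal_apply_ne _ h]
    by_cases h1 : ∀ y, y ≠ x → s y = s' y
    · rw [if_pos h1, if_neg]
      intro h2
      apply h
      funext y
      by_cases hy : y = x
      · rw [hy, h2]
      · exact h1 y hy
    · rw [if_neg h1]

theorem Sym_conj {r r' : Matrix Bool Bool ℂ} (hr : r * r' = 1) (x : V)
    (a : Matrix Bool Bool ℂ) :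
    SymT (fun _ : V => r) * SymO x a * SymT (fun _ : V => r') = SymO x (r * a * r') := by
  unfold SymO
  rw [SymT_mul, SymT_mul]
  congr 1
  funext y
  by_cases hy : y = x
  · rw [if_pos hy, if_pos hy]
  · rw [if_neg hy, if_neg hy, Matrix.mul_one, hr]

/-- abstract form: a conjugation which permutes the three spins up to signs -/
theorem Sym_main {R R' : Matrix (V → Bool) (V → Bool) ℂ} (h1 : R * R' = 1) (h2 : R' * R = 1)
    (J : V → V → ℝ) (β : ℝ)
    (hJ : R * heisenberg J * R' = heisenberg J) {A B : Matrix (V → Bool) (V → Bool) ℂ}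
    (hA : R * A * R' = B) : (A ^ 2 * gibbs J β).trace = (B ^ 2 * gibbs J β).trace := by
  have hG : R * gibbs J β * R' = gibbs J β := by
    let U : (Matrix (V → Bool) (V → Bool) ℂ)ˣ := ⟨R, R', h1, h2⟩
    have h3 := Matrix.exp_units_conj U ((-β : ℂ) • heisenberg J)
    have e1 : (U : Matrix (V → Bool) (V → Bool) ℂ) * ((-β : ℂ) • heisenberg J) *
        ((U⁻¹ : (Matrix (V → Bool) (V → Bool) ℂ)ˣ) : Matrix (V → Bool) (V → Bool) ℂ) =
        (-β : ℂ) • heisenberg J := by
      change R * ((-β : ℂ) • heisenberg J) * R' = (-β : ℂ) • heisenberg J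
      rw [Matrix.mul_smul, Matrix.smul_mul, hJ]
    rw [e1] at h3
    exact h3.symm
  have e : B ^ 2 * gibbs J β = R * (A ^ 2 * gibbs J β) * R' := by
    calc B ^ 2 * gibbs J β = (R * A * R') * (R * A * R') * (R * gibbs J β * R') := by
          rw [hA, hG, pow_two]
      _ = R * A * (R' * R) * A * (R' * R) * gibbs J β * R' := by
          simp only [Matrix.mul_assoc]
      _ = R * (A ^ 2 * gibbs J β) * R' := by
          rw [h2, Matrix.mul_one, Matrix.mul_one, pow_two]
          simp only [Matrix.mul_assoc]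
  have e2 : (R * (A ^ 2 * gibbs J β) * R').trace = (R' * (R * (A ^ 2 * gibbs J β))).trace :=
    Matrix.trace_mul_comm _ _
  rw [e, e2, ← Matrix.mul_assoc R', h2, Matrix.one_mul]

theorem Sym_heis {R R' : Matrix (V → Bool) (V → Bool) ℂ}
    (J : V → V → ℝ)
    (h : ∀ x y, R * (spin1 x * spin1 y + spin2 x * spin2 y + spin3 x * spin3 y) * R' =
      spin1 x * spin1 y + spin2 x * spin2 y + spin3 x * spin3 y) :
    R * heisenberg J * R' = heisenberg J := by
  unfold heisenberg
  rw [Matrix.mul_neg, Matrix.neg_mul, Matrix.mul_sum, Matrix.sum_mul]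
  congr 1
  refine Finset.sum_congr rfl fun x _ => ?_
  rw [Matrix.mul_sum, Matrix.sum_mul]
  refine Finset.sum_congr rfl fun y _ => ?_
  rw [Matrix.mul_smul, Matrix.smul_mul, h x y]

theorem Sym_conj_mul {R R' A B C D : Matrix (V → Bool) (V → Bool) ℂ} (h2 : R' * R = 1)
    (h : R * A * R' = B) (h' : R * C * R' = D) : R * (A * C) * R' = B * D := by
  rw [← h, ← h']
  calc R * (A * C) * R' = R * A * 1 * C * R' := by
        rw [Matrix.mul_one]; simp only [Matrix.mul_assoc]
    _ = R * A * (R' * R) * C * R' := by rw [h2]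
    _ = R * A * R' * (R * C * R') := by simp only [Matrix.mul_assoc]

theorem Sym_r1 : (Symg1 + Symg3) * ((2 : ℂ) • (Symg1 + Symg3)) = 1 := by
  ext i j
  cases i <;> cases j <;>
    simp [Matrix.mul_apply, Symg1, Symg3, Matrix.smul_apply, Matrix.add_apply] <;> norm_num

theorem Sym_r1' : ((2 : ℂ) • (Symg1 + Symg3)) * (Symg1 + Symg3) = 1 := by
  rw [Matrix.smul_mul, ← Matrix.mul_smul, Sym_r1]

theorem Sym_r1_1 : (Symg1 + Symg3) * Symg1 * ((2 : ℂ) • (Symg1 + Symg3)) = Symg3 := by
  ext i j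
  cases i <;> cases j <;>
    simp [Matrix.mul_apply, Symg1, Symg3, Matrix.smul_apply, Matrix.add_apply] <;> norm_num

theorem Sym_r1_3 : (Symg1 + Symg3) * Symg3 * ((2 : ℂ) • (Symg1 + Symg3)) = Symg1 := by
  ext i j
  cases i <;> cases j <;>
    simp [Matrix.mul_apply, Symg1, Symg3, Matrix.smul_apply, Matrix.add_apply] <;> norm_num

theorem Sym_r1_2 : (Symg1 + Symg3) * Symg2 * ((2 : ℂ) • (Symg1 + Symg3)) = -Symg2 := by
  ext i j
  cases i <;> cases j <;>
    simp [Matrix.mul_apply, Symg1, Symg2, Symg3, Matrix.smul_apply, Matrix.add_apply] <;> ring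

theorem Sym_r2 : (Symg2 + Symg3) * ((2 : ℂ) • (Symg2 + Symg3)) = 1 := by
  have hI : Complex.I ^ 2 = -1 := Complex.I_sq
  ext i j
  cases i <;> cases j <;>
    simp [Matrix.mul_apply, Symg2, Symg3, Matrix.smul_apply, Matrix.add_apply] <;>
    first | ring1 | (ring_nf; simp only [hI]; norm_num)

theorem Sym_r2' : ((2 : ℂ) • (Symg2 + Symg3)) * (Symg2 + Symg3) = 1 := by
  rw [Matrix.smul_mul, ← Matrix.mul_smul, Sym_r2]

theorem Sym_r2_2 : (Symg2 + Symg3) * Symg2 * ((2 : ℂ) • (Symg2 + Symg3)) = Symg3 := by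
  have hI : Complex.I ^ 2 = -1 := Complex.I_sq
  have hI3 : Complex.I ^ 3 = -Complex.I := Complex.I_pow_three
  ext i j
  cases i <;> cases j <;>
    simp [Matrix.mul_apply, Symg2, Symg3, Matrix.smul_apply, Matrix.add_apply] <;>
    ring_nf
  all_goals first
    | (rw [hI]; norm_num)
    | (rw [hI3]; ring1)

theorem Sym_r2_3 : (Symg2 + Symg3) * Symg3 * ((2 : ℂ) • (Symg2 + Symg3)) = Symg2 := by
  have hI : Complex.I ^ 2 = -1 := Complex.I_sq
  ext i j
  cases i <;> cases j <;>
    simp [Matrix.mul_apply, Symg2, Symg3, Matrix.smul_apply, Matrix.add_apply] <;>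
    first | ring1 | (ring_nf; simp only [hI]; norm_num)

theorem Sym_r2_1 : (Symg2 + Symg3) * Symg1 * ((2 : ℂ) • (Symg2 + Symg3)) = -Symg1 := by
  have hI : Complex.I ^ 2 = -1 := Complex.I_sq
  ext i j
  cases i <;> cases j <;>
    simp [Matrix.mul_apply, Symg1, Symg2, Symg3, Matrix.smul_apply, Matrix.add_apply] <;>
    first | ring1 | (ring_nf; simp only [hI]; norm_num)

/-- rotation invariance of the Gibbs state -/
theorem spin_sym {V : Type} [Fintype V] [DecidableEq V] (J : V → V → ℝ) (β : ℝ) :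
    ((∑ x : V, spin1 x) ^ 2 * gibbs J β).trace = ((∑ x : V, spin3 x) ^ 2 * gibbs J β).trace ∧
    ((∑ x : V, spin2 x) ^ 2 * gibbs J β).trace = ((∑ x : V, spin3 x) ^ 2 * gibbs J β).trace := by
  constructor
  · set R : Matrix (V → Bool) (V → Bool) ℂ := SymT (fun _ : V => Symg1 + Symg3) with hR
    set R' : Matrix (V → Bool) (V → Bool) ℂ := SymT (fun _ : V => (2 : ℂ) • (Symg1 + Symg3)) with hR'
    have h1 : R * R' = 1 := by rw [hR, hR', SymT_mul, Sym_r1, SymT_one]
    have h2 : R' * R = 1 := by rw [hR, hR', SymT_mul, Sym_r1', SymT_one]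
    have c1 : ∀ x, R * spin1 x * R' = spin3 x := fun x => by
      rw [Sym_spin1, Sym_spin3, hR, hR', Sym_conj Sym_r1, Sym_r1_1]
    have c2 : ∀ x, R * spin2 x * R' = -spin2 x := fun x => by
      rw [Sym_spin2, hR, hR', Sym_conj Sym_r1, Sym_r1_2, SymO_neg]
    have c3 : ∀ x, R * spin3 x * R' = spin1 x := fun x => by
      rw [Sym_spin1, Sym_spin3, hR, hR', Sym_conj Sym_r1, Sym_r1_3]
    apply Sym_main h1 h2
    · apply Sym_heis
      intro x y
      rw [Matrix.mul_add, Matrix.mul_add, Matrix.add_mul, Matrix.add_mul,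
        Sym_conj_mul h2 (c1 x) (c1 y), Sym_conj_mul h2 (c2 x) (c2 y),
        Sym_conj_mul h2 (c3 x) (c3 y), neg_mul_neg]
      abel
    · rw [Matrix.mul_sum, Matrix.sum_mul]
      exact Finset.sum_congr rfl fun x _ => c1 x
  · set R : Matrix (V → Bool) (V → Bool) ℂ := SymT (fun _ : V => Symg2 + Symg3) with hR
    set R' : Matrix (V → Bool) (V → Bool) ℂ := SymT (fun _ : V => (2 : ℂ) • (Symg2 + Symg3)) with hR'
    have h1 : R * R' = 1 := by rw [hR, hR', SymT_mul, Sym_r2, SymT_one]
    have h2 : R' * R = 1 := by rw [hR, hR', SymT_mul, Sym_r2', SymT_one]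
    have c1 : ∀ x, R * spin1 x * R' = -spin1 x := fun x => by
      rw [Sym_spin1, hR, hR', Sym_conj Sym_r2, Sym_r2_1, SymO_neg]
    have c2 : ∀ x, R * spin2 x * R' = spin3 x := fun x => by
      rw [Sym_spin2, Sym_spin3, hR, hR', Sym_conj Sym_r2, Sym_r2_2]
    have c3 : ∀ x, R * spin3 x * R' = spin2 x := fun x => by
      rw [Sym_spin2, Sym_spin3, hR, hR', Sym_conj Sym_r2, Sym_r2_3]
    apply Sym_main h1 h2
    · apply Sym_heis
      intro x y
      rw [Matrix.mul_add, Matrix.mul_add, Matrix.add_mul, Matrix.add_mul,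
        Sym_conj_mul h2 (c1 x) (c1 y), Sym_conj_mul h2 (c2 x) (c2 y),
        Sym_conj_mul h2 (c3 x) (c3 y), neg_mul_neg]
      abel
    · rw [Matrix.mul_sum, Matrix.sum_mul]
      exact Finset.sum_congr rfl fun x _ => c2 x

end sym

end Pool.Agent.TH268.HB
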