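import Pool.Agent.TH268.HB.AbsH
import Pool.Agent.TH268.HB.Link
import Pool.Agent.TH268.HB.Sym
import Pool.Agent.TH268.TB.Final

/-!
# The order parameter of the long-range Heisenberg ferromagnet: assembly
-/

set_option autoImplicit false

open Finset BigOperators

namespace Pool.Agent.TH268.HB

open Pool.Agent.H11R2.BEC Pool.Agent.H11R2.BEC.Ker Pool.Agent.TH268.TB
open Pool.Agent.H11R2.LatticeBose (hopping hopping_pos hopping_neg hopping_sum hopping_decay tz t0_le le_t0)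

/-- the third component is a third of the whole -/
theorem third {V : Type} [Fintype V] [DecidableEq V] (J : V → V → ℝ) (β : ℝ) :
    (((∑ x : V, spin1 x) ^ 2 + (∑ x : V, spin2 x) ^ 2 + (∑ x : V, spin3 x) ^ 2) *
      gibbs J β).trace = 3 * ((∑ x : V, spin3 x) ^ 2 * gibbs J β).trace := by
  obtain ⟨h1, h2⟩ := spin_sym J β
  rw [Matrix.add_mul, Matrix.add_mul, Matrix.trace_add, Matrix.trace_add, h1, h2]
  ring

/-- the parameters -/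
theorem params (d : ℕ) (hd : 1 ≤ d) (β δ : ℝ) (hβ : 0 < β) (hδ : 0 < δ) :
    ∃ σ₀ : ℝ, 0 < σ₀ ∧ ∀ σ : ℝ, 0 < σ → σ ≤ σ₀ → 1 - δ ≤ (2 : ℝ) ^ (-σ) ∧ (2 : ℝ) ^ (-σ) < 1 ∧
      |β / (1 - ker d ((2 : ℝ) ^ (-σ)) 0) - β| ≤ δ := by
  set σ₀ : ℝ := min (min δ (1 / 4)) (δ / (4 * β)) with hσ₀
  have hσ₀p : 0 < σ₀ := by rw [hσ₀]; positivity
  refine ⟨σ₀, hσ₀p, ?_⟩
  intro σ hσ hσle
  have g1 : σ ≤ δ := hσle.trans ((min_le_left _ _).trans (min_le_left _ _))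
  have g2 : σ ≤ 1 / 4 := hσle.trans ((min_le_left _ _).trans (min_le_right _ _))
  have g3 : σ ≤ δ / (4 * β) := hσle.trans (min_le_right _ _)
  set q : ℝ := (2 : ℝ) ^ (-σ) with hq
  have hq0 : 0 ≤ q := by positivity
  have hq1 : q < 1 := two_rpow_lt_one hσ
  have hqσ : 1 - σ ≤ q := one_sub_le hσ
  set k0 : ℝ := ker d q 0 with hk0
  have hk0n : 0 ≤ k0 := ker_nonneg hq0 hq1 0
  have hk0l : k0 ≤ 2 * σ := by
    have := ker_zero_le hd hq0 hq1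
    rw [← hk0] at this
    linarith
  have hD : 0 < 1 - k0 := hopping_pos hd hσ
  have hD2 : 1 / 2 ≤ 1 - k0 := by linarith
  refine ⟨by linarith, hq1, ?_⟩
  have h1 : β / (1 - k0) - β = β * k0 / (1 - k0) := by field_simp; ring
  rw [h1, abs_of_nonneg (by positivity), div_le_iff₀ hD]
  have h2 : β * k0 ≤ δ / 2 := by
    calc β * k0 ≤ β * (2 * (δ / (4 * β))) :=
          mul_le_mul_of_nonneg_left (hk0l.trans (by linarith)) hβ.le
      _ = δ / 2 := by field_simp; ring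
  nlinarith

theorem heis_thm (d : ℕ) (hd : 1 ≤ d) (β ε m : ℝ) (hβ : 0 < β) (hε : 0 < ε) (hm : 0 ≤ m)
    (hm1 : m = Real.tanh (β * m / 2)) (hm2 : 0 < m ∨ β ≤ 2) :
    ∃ σ₀ : ℝ, 0 < σ₀ ∧ ∃ J₀ : ℕ, ∀ σ : ℝ, 0 < σ → σ ≤ σ₀ → ∀ J ≥ J₀,
      0 < (gibbs (rate d σ J) β).trace.re ∧
      |(((∑ x, spin3 x) ^ 2 * gibbs (rate d σ J) β).trace / (gibbs (rate d σ J) β).trace).re /
        ((2 : ℝ) ^ (d * J)) ^ 2 - m ^ 2 / 12| ≤ ε := by
  obtain ⟨δ, hδ, J₀, hmain⟩ := heis_abs d hd β (3 * ε) m hβ (by positivity) hm hm1 hm2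
  obtain ⟨σ₀, hσ₀, hpar⟩ := params d hd β δ hβ hδ
  refine ⟨σ₀, hσ₀, J₀, ?_⟩
  intro σ hσ hσle J hJ
  obtain ⟨p1, p2, p3⟩ := hpar σ hσ hσle
  obtain ⟨ψ, E, hψ, hE, hB⟩ := linkH0 (d := d) (J := J) hd hσ β
  obtain ⟨e0, e1⟩ := hB (β / (1 - ker d ((2 : ℝ) ^ (-σ)) 0)) rfl
  refine ⟨e0, ?_⟩
  set β' : ℝ := β / (1 - ker d ((2 : ℝ) ^ (-σ)) 0) with hβ'
  set Z : ℝ := ∑ m, Real.exp (-(β' * E m)) with hZ
  have hG : IsGibbsH ((2 : ℝ) ^ (-σ)) β' ψ E (fun m => Real.exp (-(β' * E m)) / Z) :=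
    ⟨hψ, hE, fun m => rfl⟩
  have hfin := hmain _ p1 p2 β' p3 J hJ ψ E _ hG
  have e3 : ∀ F : (Site d J → Bool) → ℝ, ∑ m, Real.exp (-(β' * E m)) / Z * F m =
      (∑ m, Real.exp (-(β' * E m)) * F m) / Z := by
    intro F
    rw [Finset.sum_div]
    exact Finset.sum_congr rfl fun m _ => by ring
  rw [e3, ← e1, third, mul_div_assoc] at hfin
  have e4 : ((3 : ℂ) * (((∑ x, spin3 x) ^ 2 * gibbs (rate d σ J) β).trace /
      (gibbs (rate d σ J) β).trace)).re = 3 * (((∑ x, spin3 x) ^ 2 * gibbs (rate d σ J) β).trace /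
      (gibbs (rate d σ J) β).trace).re := by
    have : (3 : ℂ) = ((3 : ℝ) : ℂ) := by norm_num
    rw [this, Complex.re_ofReal_mul]
  rw [e4] at hfin
  set X : ℝ := (((∑ x, spin3 x) ^ 2 * gibbs (rate d σ J) β).trace /
      (gibbs (rate d σ J) β).trace).re with hX
  have hfin' := abs_le.1 hfin
  rw [abs_le]
  have e5 : 3 * X / ((2 : ℝ) ^ (d * J)) ^ 2 = 3 * (X / ((2 : ℝ) ^ (d * J)) ^ 2) := by ring
  rw [e5] at hfin'
  constructor <;> linarith [hfin'.1, hfin'.2]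

end Pool.Agent.TH268.HB
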