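import Pool.Agent.TH268.HB.StepH

/-!
# The key inequality for the Heisenberg ferromagnet
-/

set_option autoImplicit false

open Finset BigOperators

namespace Pool.Agent.TH268.HB

open Pool.Agent.H11R2.BEC Pool.Agent.H11R2.BEC.T2c Pool.Agent.TH268.TB

section

variable {d J j : ℕ}

theorem avg_wH (q θ : ℝ) (ψ : WF (Site d J)) :
    ∑ w : Site d J, (- ∑ a, nsq (avS a j w ψ) - ∑ s ∈ range j, cf q J s *
      ((1 / (2 : ℝ) ^ (d * j)) * ∑ z ∈ inn j s,
        ((1 - θ) * ∑ a, nsq (avS a s (emb w z) ψ - avS a j w ψ)))) =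
      2 ^ (d * J) * (- cohH j ψ - (1 - θ) * ∑ s ∈ range j, cf q J s * usH s j ψ) := by
  have hV0 : (0 : ℝ) < 2 ^ (d * J) := by positivity
  have hM0 : (0 : ℝ) < 2 ^ (d * j) := by positivity
  rw [Finset.sum_sub_distrib, Finset.sum_neg_distrib]
  have e1 : ∑ w : Site d J, ∑ a, nsq (avS a j w ψ) = 2 ^ (d * J) * cohH j ψ := by
    unfold cohH; field_simp
  have e3 : ∑ w : Site d J, ∑ s ∈ range j, cf q J s * ((1 / (2 : ℝ) ^ (d * j)) *
        ∑ z ∈ inn j s, ((1 - θ) * ∑ a, nsq (avS a s (emb w z) ψ - avS a j w ψ))) =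
      2 ^ (d * J) * ((1 - θ) * ∑ s ∈ range j, cf q J s * usH s j ψ) := by
    rw [Finset.sum_comm, Finset.mul_sum, Finset.mul_sum]
    refine Finset.sum_congr rfl fun s _ => ?_
    rw [← Finset.mul_sum]
    have f1 : ∑ w : Site d J, (1 / (2 : ℝ) ^ (d * j)) *
        ∑ z ∈ inn j s, ((1 - θ) * ∑ a, nsq (avS a s (emb w z) ψ - avS a j w ψ)) =
        2 ^ (d * J) * ((1 - θ) * usH s j ψ) := by
      rw [← Finset.mul_sum, Finset.sum_comm]
      simp only [← Finset.mul_sum]
      unfold usH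
      simp only [← Finset.mul_sum]
      field_simp
    rw [f1]
    ring
  rw [e1, e3]
  ring

/-- the sum over the spectral family of a marginal -/
theorem sum_rhs2H (hj : j < J) {q θ v : ℝ} (hq0 : 0 ≤ q) (hq1 : q ≤ 1)
    (hv : 0 ≤ v) (hθ : 0 < θ)
    {lam : (Site d J → Bool) → ℝ} {ψ : (Site d J → Bool) → WF (Site d J)} (hψ : ONB ψ)
    (hlam1 : ∑ m, lam m = 1)
    {w : Site d J} {φ : (Site d j → Bool) → WF (Site d j)} {r : (Site d j → Bool) → ℝ}
    (hM : Marg lam ψ w φ r) :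
    ∑ k, r k * rhs2H q θ v J (φ k) ≤
      ∑ m, lam m * (- ∑ a, nsq (avS a j w (ψ m)) - ∑ s ∈ range j, cf q J s *
        ((1 / (2 : ℝ) ^ (d * j)) *
        ∑ z ∈ inn j s, ((1 - θ) * ∑ a, nsq (avS a s (emb w z) (ψ m) - avS a j w (ψ m)))))
      + (v + v / θ) := by
  have hr1 : ∑ k, r k = 1 := hM.total hj.le hψ hlam1
  have hφ1 : ∀ k, nsq (φ k) = 1 := fun k => hM.onb.norm k
  set M : ℝ := (2 : ℝ) ^ (d * j) with hMdef
  have hM0 : 0 < M := by positivity
  set c0 : ℝ := v / θ with hc0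
  have hc00 : 0 ≤ c0 := by positivity
  have hk : ∀ k, rhs2H q θ v J (φ k) = - ∑ a, nsq (avS a j 0 (φ k)) -
      ∑ s ∈ range j, cf q J s * ((1 / M) * ∑ z ∈ inn j s,
        ((1 - θ) * ∑ a, nsq (avS a s z (φ k) - avS a j 0 (φ k)))) +
      (v + ∑ s ∈ range j, cf q J s * ((1 / M) * ∑ z ∈ (inn j s : Finset (Site d j)), c0)) := by
    intro k
    unfold rhs2H
    rw [hφ1 k, ← hMdef]
    have f1 : ∑ s ∈ range j, cf q J s * ((1 / M) * ∑ z ∈ inn j s,
          ((1 - θ) * ∑ a, nsq (avS a s z (φ k) - avS a j 0 (φ k)) - (v * 1) / θ)) =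
        ∑ s ∈ range j, cf q J s * ((1 / M) * ∑ z ∈ inn j s,
        ((1 - θ) * ∑ a, nsq (avS a s z (φ k) - avS a j 0 (φ k)))) -
        ∑ s ∈ range j, cf q J s * ((1 / M) * ∑ z ∈ (inn j s : Finset (Site d j)), c0) := by
      rw [← Finset.sum_sub_distrib]
      refine Finset.sum_congr rfl fun s _ => ?_
      rw [← mul_sub, ← mul_sub, ← Finset.sum_sub_distrib]
      congr 2
      refine Finset.sum_congr rfl fun z _ => ?_
      rw [hc0]
      ring
    rw [f1]
    ring
  simp only [hk, mul_add]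
  have hconst : ∑ s ∈ range j, cf q J s * ((1 / M) * ∑ z ∈ (inn j s : Finset (Site d j)), c0) ≤
      v / θ := by
    have g1 : ∀ s ∈ range j, cf q J s * ((1 / M) * ∑ z ∈ (inn j s : Finset (Site d j)), c0) ≤
        cf q J s * c0 := by
      intro s _
      refine mul_le_mul_of_nonneg_left ?_ (ki_cf_nonneg hq0 hq1 J s)
      rw [Finset.sum_const, nsmul_eq_mul, ← mul_assoc]
      have g2 : 1 / M * ((inn j s : Finset (Site d j)).card : ℝ) ≤ 1 := by
        rw [one_div, inv_mul_eq_div, div_le_one hM0, hMdef]; exact ki_inn_card d j s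
      calc _ ≤ 1 * c0 := mul_le_mul_of_nonneg_right g2 hc00
        _ = c0 := one_mul _
    refine (Finset.sum_le_sum g1).trans ?_
    rw [← Finset.sum_mul, ki_cf_partial q J j hj.le]
    have h1 : 0 ≤ q ^ j := by positivity
    have h2 : (1 - q ^ j) * c0 ≤ c0 := by nlinarith [mul_nonneg h1 hc00]
    exact h2
  rw [Finset.sum_add_distrib, Finset.sum_add_distrib, ← Finset.sum_mul, ← Finset.sum_mul, hr1]
  -- the transfer
  have ht : ∑ k, r k * (- ∑ a, nsq (avS a j 0 (φ k)) -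
      ∑ s ∈ range j, cf q J s * ((1 / M) * ∑ z ∈ inn j s,
        ((1 - θ) * ∑ a, nsq (avS a s z (φ k) - avS a j 0 (φ k))))) =
      ∑ m, lam m * (- ∑ a, nsq (avS a j w (ψ m)) - ∑ s ∈ range j, cf q J s * ((1 / M) *
        ∑ z ∈ inn j s, ((1 - θ) * ∑ a, nsq (avS a s (emb w z) (ψ m) - avS a j w (ψ m))))) := by
    simp only [mul_sub, Finset.sum_sub_distrib, mul_neg, Finset.sum_neg_distrib]
    have t1 := marg_avH hj.le hM
    rw [t1]
    congr 1
    have u3 : ∀ k, r k * ∑ s ∈ range j, cf q J s * ((1 / M) * ∑ z ∈ inn j s,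
        ((1 - θ) * ∑ a, nsq (avS a s z (φ k) - avS a j 0 (φ k)))) =
        ∑ s ∈ range j, cf q J s * ((1 / M) * ∑ z ∈ inn j s,
        ((1 - θ) * (r k * ∑ a, nsq (avS a s z (φ k) - avS a j 0 (φ k))))) := by
      intro k
      rw [Finset.mul_sum]
      refine Finset.sum_congr rfl fun s _ => ?_
      rw [mul_left_comm, mul_left_comm (r k), Finset.mul_sum (inn j s) _ (r k)]
      congr 2
      refine Finset.sum_congr rfl fun z _ => ?_
      ring
    have u4 : ∀ m, lam m * ∑ s ∈ range j, cf q J s * ((1 / M) * ∑ z ∈ inn j s,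
        ((1 - θ) * ∑ a, nsq (avS a s (emb w z) (ψ m) - avS a j w (ψ m)))) =
        ∑ s ∈ range j, cf q J s * ((1 / M) * ∑ z ∈ inn j s,
        ((1 - θ) * (lam m * ∑ a, nsq (avS a s (emb w z) (ψ m) - avS a j w (ψ m))))) := by
      intro m
      rw [Finset.mul_sum]
      refine Finset.sum_congr rfl fun s _ => ?_
      rw [mul_left_comm, mul_left_comm (lam m), Finset.mul_sum (inn j s) _ (lam m)]
      congr 2
      refine Finset.sum_congr rfl fun z _ => ?_
      ring
    rw [Finset.sum_congr rfl fun k _ => u3 k, Finset.sum_congr rfl fun m _ => u4 m,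
      Finset.sum_comm, Finset.sum_comm (s := (univ : Finset (Site d J → Bool)))]
    refine Finset.sum_congr rfl fun s _ => ?_
    rw [← Finset.mul_sum, ← Finset.mul_sum, ← Finset.mul_sum, ← Finset.mul_sum, Finset.sum_comm,
      Finset.sum_comm (s := (univ : Finset (Site d J → Bool)))]
    congr 2
    refine Finset.sum_congr rfl fun z hz => ?_
    rw [← Finset.mul_sum, ← Finset.mul_sum, marg_diffH hj.le hM hz]
  rw [ht]
  linarith

end

section

variable {d J j : ℕ} {q β : ℝ} {ψ : (Site d J → Bool) → WF (Site d J)}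
    {E lam : (Site d J → Bool) → ℝ}

theorem IsGibbsH.Zpos (_h : IsGibbsH q β ψ E lam) : 0 < ∑ m, Real.exp (-(β * E m)) :=
  Finset.sum_pos (fun _ _ => Real.exp_pos _) Finset.univ_nonempty

theorem IsGibbsH.nonneg (h : IsGibbsH q β ψ E lam) (m : Site d J → Bool) : 0 ≤ lam m := by
  rw [h.lam]
  exact div_nonneg (Real.exp_pos _).le h.Zpos.le

theorem IsGibbsH.sum (h : IsGibbsH q β ψ E lam) : ∑ m, lam m = 1 := by
  rw [Finset.sum_congr rfl fun m _ => h.lam m, ← Finset.sum_div, div_self h.Zpos.ne']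

theorem IsGibbsH.nsq (h : IsGibbsH q β ψ E lam) (m : Site d J → Bool) :
    Pool.Agent.H11R2.BEC.nsq (ψ m) = 1 := h.onb.norm m

theorem IsGibbsH.E_eq (h : IsGibbsH q β ψ E lam) (m : Site d J → Bool) :
    E m = (2 : ℝ) ^ (d * J) * enH q (ψ m) := by
  rw [h.en (ψ m), Finset.sum_eq_single m]
  · rw [h.onb.orth]; simp
  · intro y _ hy
    rw [h.onb.orth, if_neg hy, mul_zero]
  · intro hk; exact absurd (Finset.mem_univ _) hk

/-- the free energy -/
theorem IsGibbsH.free (h : IsGibbsH q β ψ E lam) :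
    Real.log (∑ m, Real.exp (-(β * E m))) / 2 ^ (d * J) =
      - (β * ∑ m, lam m * enH q (ψ m)) -
        (1 / (2 : ℝ) ^ (d * J)) * ∑ m, lam m * Real.log (lam m) := by
  have hV : (0 : ℝ) < 2 ^ (d * J) := by positivity
  set Z := ∑ m, Real.exp (-(β * E m)) with hZ
  have hZ0 : 0 < Z := h.Zpos
  have h1 : ∀ m, lam m * Real.log (lam m) =
      - (β * 2 ^ (d * J)) * (lam m * enH q (ψ m)) - lam m * Real.log Z := by
    intro m
    have h2 : Real.log (lam m) = - (β * E m) - Real.log Z := by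
      rw [h.lam, Real.log_div (Real.exp_pos _).ne' hZ0.ne', Real.log_exp]
    rw [h2, h.E_eq m]
    ring
  rw [Finset.sum_congr rfl fun m _ => h1 m, Finset.sum_sub_distrib, ← Finset.mul_sum,
    ← Finset.sum_mul, h.sum]
  field_simp
  ring

theorem nsq_tA_one_le {Q : Type} [Fintype Q] [DecidableEq Q] (φ : WF Q) (x : Q) :
    gH φ x x ≤ 3 / 4 * Pool.Agent.H11R2.BEC.nsq φ := (gH_diag φ x).le

/-- the coherences are at most `3 / 4` -/
theorem usH_le (s j : ℕ) {ψ : WF (Site d J)} (hψ : Pool.Agent.H11R2.BEC.nsq ψ = 1) :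
    usH s j ψ ≤ 6 := by
  have h := Finset.sum_le_sum (s := (univ : Finset (Fin 6))) fun k _ =>
    ki_us_le s j (ψ := RR k ψ) (by rw [nsq_RR]; exact hψ)
  rw [usH_eq] at h
  simp only [Finset.sum_const, Finset.card_univ, Fintype.card_fin, nsmul_eq_mul] at h
  push_cast at h
  linarith

/-- the error term -/
noncomputable def errH (d j W : ℕ) (θ : ℝ) : ℝ :=
  let v : ℝ := (7 * (W : ℝ) ^ 2 + 6 * ((2 : ℝ) ^ (d * j)) ^ 2 / (W : ℝ) ^ 2) / ((2 : ℝ) ^ (d * j)) ^ 2
  v + v / θ + 6 * θ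

/-- The key inequality at the scale `2^j`. -/
theorem keyTH (hj : j < J) (hq0 : 0 ≤ q) (hq1 : q ≤ 1) (hβ : 0 < β) (h : IsGibbsH q β ψ E lam)
    (W : ℕ) (hW : 1 ≤ W) {θ : ℝ} (hθ : 0 < θ) :
    ∑ s ∈ range (J + 1), cf q J s * (∑ m, lam m * cohH j (ψ m) - ∑ m, lam m * cohH s (ψ m)) +
      ∑ s ∈ range j, cf q J s * ∑ m, lam m * usH s j (ψ m) ≤
      errH d j W θ +
        1 / (β * 2 ^ (d * j)) * Real.log (((2 : ℝ) ^ (d * j) + 2 * W + 1) ^ 3) := by
  classical
  obtain ⟨v, hv⟩ : ∃ v : ℝ, v = (7 * (W : ℝ) ^ 2 + 6 * ((2 : ℝ) ^ (d * j)) ^ 2 / (W : ℝ) ^ 2) /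
    ((2 : ℝ) ^ (d * j)) ^ 2 := ⟨_, rfl⟩
  have hv0 : 0 ≤ v := by rw [hv]; positivity
  have herr : errH d j W θ = v + v / θ + 6 * θ := by
    unfold errH; rw [hv]
  set M : ℝ := (2 : ℝ) ^ (d * j) with hM
  set V : ℝ := (2 : ℝ) ^ (d * J) with hV
  have hM0 : 0 < M := by positivity
  have hV0 : 0 < V := by positivity
  set LA : ℝ := Real.log ((M + 2 * W + 1) ^ 3) with hLA
  -- the marginals
  have hex := fun w => exists_marg (j := j) lam h.nonneg ψ w
  choose φ r hMg using hex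
  have hS := subadd hj.le h.nonneg h.sum h.onb φ r hMg
  rw [← hM] at hS
  set S := ∑ m, lam m * Real.log (lam m) with hSdef
  set en0 := ∑ m, lam m * enH q (ψ m) with hen0
  set c0 : ℝ := v + v / θ with hc0
  set B : Site d J → (Site d J → Bool) → ℝ := fun w m => - ∑ a, Pool.Agent.H11R2.BEC.nsq (avS a j w (ψ m)) -
    ∑ s ∈ range j, cf q J s * ((1 / M) *
        ∑ z ∈ inn j s, ((1 - θ) * ∑ a, Pool.Agent.H11R2.BEC.nsq (avS a s (emb w z) (ψ m) - avS a j w (ψ m)))) with hB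
  have hw : ∀ w : Site d J, - (β * (∑ m, lam m * B w m + c0)) - (1 / M) *
      (∑ k, r w k * Real.log (r w k) + LA) ≤ - (β * en0) - (1 / V) * S := by
    intro w
    have h1 := step2H hj.le hq0 hq1 hβ h.onb h.en W hW hθ v hv (φ w) (r w) (hMg w).onb
      (hMg w).nn ((hMg w).total hj.le h.onb h.sum)
    rw [h.free] at h1
    refine le_trans ?_ h1
    have h2 := sum_rhs2H (w := w) hj hq0 hq1 hv0 hθ h.onb h.sum (hMg w)
    have h3 := mul_le_mul_of_nonneg_left h2 hβ.le
    have h4 : ∑ m, lam m * (- ∑ a, Pool.Agent.H11R2.BEC.nsq (avS a j w (ψ m)) - ∑ s ∈ range j, cf q J s *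
        ((1 / (2 : ℝ) ^ (d * j)) *
        ∑ z ∈ inn j s, ((1 - θ) * ∑ a, Pool.Agent.H11R2.BEC.nsq (avS a s (emb w z) (ψ m) - avS a j w (ψ m))))) =
        ∑ m, lam m * B w m := rfl
    rw [h4] at h3
    linarith
  have hsum := Finset.sum_le_sum (s := (univ : Finset (Site d J))) fun w _ => hw w
  have hcV : (Fintype.card (Site d J) : ℝ) = V := ki_card_site d J
  simp only [Finset.sum_sub_distrib, Finset.sum_neg_distrib, ← Finset.mul_sum,
    Finset.sum_add_distrib, Finset.sum_const, Finset.card_univ, nsmul_eq_mul, hcV] at hsum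
  -- the average of `B`
  have hBw : ∑ w : Site d J, ∑ m, lam m * B w m = V * (∑ m, lam m * (- cohH j (ψ m) - (1 - θ) *
      ∑ s ∈ range j, cf q J s * usH s j (ψ m))) := by
    rw [Finset.sum_comm, Finset.mul_sum]
    refine Finset.sum_congr rfl fun m _ => ?_
    rw [← Finset.mul_sum]
    have := avg_wH (j := j) q θ (ψ m)
    rw [← hM] at this
    have h4 : ∑ w : Site d J, B w m = V * (- cohH j (ψ m) - (1 - θ) *
      ∑ s ∈ range j, cf q J s * usH s j (ψ m)) := this
    rw [h4]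
    ring
  rw [hBw] at hsum
  set a : ℕ → ℝ := fun s => ∑ m, lam m * cohH s (ψ m) with ha
  set u : ℕ → ℝ := fun s => ∑ m, lam m * usH s j (ψ m) with hu
  have hBm : ∑ m, lam m * (- cohH j (ψ m) - (1 - θ) *
      ∑ s ∈ range j, cf q J s * usH s j (ψ m)) =
      - a j - (1 - θ) * ∑ s ∈ range j, cf q J s * u s := by
    have t1 : ∀ m, lam m * (- cohH j (ψ m) - (1 - θ) *
      ∑ s ∈ range j, cf q J s * usH s j (ψ m)) =
      - (lam m * cohH j (ψ m)) - (1 - θ) * (∑ s ∈ range j, cf q J s * (lam m * usH s j (ψ m))) := by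
      intro m
      have : ∑ s ∈ range j, cf q J s * (lam m * usH s j (ψ m)) =
          lam m * ∑ s ∈ range j, cf q J s * usH s j (ψ m) := by
        rw [Finset.mul_sum]
        exact Finset.sum_congr rfl fun s _ => by ring
      rw [this]; ring
    rw [Finset.sum_congr rfl fun m _ => t1 m, Finset.sum_sub_distrib,
      Finset.sum_neg_distrib, ← Finset.mul_sum, Finset.sum_comm]
    simp only [← Finset.mul_sum]
    rfl
  rw [hBm] at hsum
  have hen1 : en0 = - ∑ s ∈ range (J + 1), cf q J s * a s := by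
    rw [hen0]
    unfold enH
    have t1 : ∀ m, lam m * (-∑ s ∈ range (J + 1), cf q J s * cohH s (ψ m)) =
        - (∑ s ∈ range (J + 1), cf q J s * (lam m * cohH s (ψ m))) := by
      intro m
      have : ∑ s ∈ range (J + 1), cf q J s * (lam m * cohH s (ψ m)) =
          lam m * ∑ s ∈ range (J + 1), cf q J s * cohH s (ψ m) := by
        rw [Finset.mul_sum]
        exact Finset.sum_congr rfl fun s _ => by ring
      rw [this]; ring
    rw [Finset.sum_congr rfl fun m _ => t1 m,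
      Finset.sum_neg_distrib, Finset.sum_comm]
    simp only [← Finset.mul_sum]
    rfl
  rw [hen1] at hsum
  -- the bound of `u`
  have hu4 : ∀ s, u s ≤ 6 := by
    intro s
    calc u s ≤ ∑ m, lam m * 6 :=
          Finset.sum_le_sum fun m _ => mul_le_mul_of_nonneg_left (usH_le s j (h.nsq m)) (h.nonneg m)
      _ = 6 := by rw [← Finset.sum_mul, h.sum, one_mul]
  have hcu : ∑ s ∈ range j, cf q J s * u s ≤ 6 := by
    calc ∑ s ∈ range j, cf q J s * u s ≤ ∑ s ∈ range j, cf q J s * 6 :=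
          Finset.sum_le_sum fun s _ => mul_le_mul_of_nonneg_left (hu4 s) (ki_cf_nonneg hq0 hq1 J s)
      _ ≤ 6 := by
          rw [← Finset.sum_mul, ki_cf_partial q J j hj.le]
          have : 0 ≤ q ^ j := by positivity
          linarith
  have hco : ∑ s ∈ range (J + 1), cf q J s * (a j - a s) =
      a j - ∑ s ∈ range (J + 1), cf q J s * a s := by
    simp only [mul_sub]
    rw [Finset.sum_sub_distrib, ← Finset.sum_mul, ki_cf_sum, one_mul]
  have hgoal : a j - ∑ s ∈ range (J + 1), cf q J s * a s + ∑ s ∈ range j, cf q J s * u s ≤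
      v + v / θ + 6 * θ + 1 / (β * M) * LA := by
    set CU := ∑ s ∈ range j, cf q J s * u s with hCU
    set CA := ∑ s ∈ range (J + 1), cf q J s * a s with hCA
    set R := ∑ w : Site d J, ∑ k, r w k * Real.log (r w k) with hR
    have h5 : V * (β * (a j - CA + (1 - θ) * CU)) ≤ V * (β * c0 + (1 / M) * LA) := by
      have h6 : (1 / M) * R ≤ S := hS
      have h7 : V * ((1 / V) * S) = S := by field_simp
      have h8 : 1 / M * (R + V * LA) = 1 / M * R + V * ((1 / M) * LA) := by ring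
      rw [h8] at hsum
      have h9 : V * -(β * (-CA)) = V * (β * CA) := by ring
      have h10 : β * (V * (-a j - (1 - θ) * CU) + V * c0) =
        - (V * (β * (a j + (1 - θ) * CU))) + V * (β * c0) := by ring
      have h11 : V * (β * (a j - CA + (1 - θ) * CU)) =
        V * (β * (a j + (1 - θ) * CU)) - V * (β * CA) := by ring
      have h12 : V * (β * c0 + (1 / M) * LA) = V * (β * c0) + V * ((1 / M) * LA) := by ring
      rw [h11, h12]
      nlinarith [hsum, h6, h7, h9, h10]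
    have h13 := le_of_mul_le_mul_left h5 hV0
    have h14 : a j - CA + (1 - θ) * CU ≤ c0 + 1 / (β * M) * LA := by
      have h15 : β * (c0 + 1 / (β * M) * LA) = β * c0 + (1 / M) * LA := by
        field_simp
      rw [← h15] at h13
      exact le_of_mul_le_mul_left h13 hβ
    have h16 : θ * CU ≤ θ * 6 := mul_le_mul_of_nonneg_left hcu hθ.le
    rw [hc0] at h14
    linarith
  rw [herr]
  change ∑ s ∈ range (J + 1), cf q J s * (a j - a s) + ∑ s ∈ range j, cf q J s * u s ≤ _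
  rw [hco]
  exact hgoal

end

end Pool.Agent.TH268.HB
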