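import Pool.Agent.TH268.HB.Pic

/-!
# Localisation of the three components of the total spin
-/

set_option autoImplicit false

open Finset BigOperators

namespace Pool.Agent.TH268.HB

open Pool.Agent.H11R2.BEC Pool.Agent.H11R2.BEC.T3d Pool.Agent.TH268.TB

section loc3

variable {Q : Type} [Fintype Q] [DecidableEq Q]

/-! ### the three components -/

theorem l3_sg1 : sg1 = xM := rfl

theorem l3_sg2 : sg2 = (-Complex.I) • fM := by
  ext i j
  rw [Matrix.smul_apply]
  unfold sg2 fM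
  cases i <;> cases j <;> simp <;> ring

theorem l3_YM : lowM - xM = (-1 : ℂ) • fM := by
  ext i j
  rw [Matrix.smul_apply, Matrix.sub_apply]
  unfold lowM xM fM
  cases i <;> cases j <;> simp <;> ring

theorem l3_sg3 : sg3 = (-1 : ℂ) • dM := by
  ext i j
  rw [Matrix.smul_apply]
  unfold sg3 dM
  cases i <;> cases j <;> simp <;> ring

theorem l3_t0 (φ : WF Q) : tA 0 (fun _ => 1) φ = XX φ := by
  unfold tA XX
  refine Finset.sum_congr rfl fun x _ => ?_
  rw [Complex.ofReal_one, one_smul]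
  rfl

theorem l3_YY (φ : WF Q) : YY φ = (-1 : ℂ) • ∑ x, op1 x fM φ := by
  unfold YY
  rw [Finset.smul_sum]
  refine Finset.sum_congr rfl fun x _ => ?_
  rw [l3_YM, op1_smul_mat]

theorem l3_t1 (φ : WF Q) : tA 1 (fun _ => 1) φ = Complex.I • YY φ := by
  rw [l3_YY, smul_smul, Finset.smul_sum]
  unfold tA
  refine Finset.sum_congr rfl fun x _ => ?_
  rw [Complex.ofReal_one, one_smul]
  change op1 x sg2 φ = _
  rw [l3_sg2, op1_smul_mat]
  congr 1
  ring

theorem l3_t2 (φ : WF Q) : tA 2 (fun _ => 1) φ =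
    fun σ => (((cnt σ : ℝ) - (Fintype.card Q : ℝ) / 2 : ℝ) : ℂ) * φ σ := by
  have h : tA 2 (fun _ => 1) φ = (-1 : ℂ) • ∑ x, op1 x dM φ := by
    rw [Finset.smul_sum]
    unfold tA
    refine Finset.sum_congr rfl fun x _ => ?_
    rw [Complex.ofReal_one, one_smul]
    change op1 x sg3 φ = _
    rw [l3_sg3, op1_smul_mat]
  rw [h, sum_dM]
  funext σ
  rw [Pi.smul_apply, smul_eq_mul]
  push_cast
  ring

/-! ### linearity of the windows -/

theorem l3_mg_lin (g : ℕ → ℝ) (c : ℂ) (φ χ : WF Q) :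
    mg g (φ - c • χ) = mg g φ - c • mg g χ := by
  funext σ
  simp only [mg, Pi.sub_apply, Pi.smul_apply, smul_eq_mul]
  ring

theorem l3_PP_lin (u : Matrix Bool Bool ℂ) (g : ℕ → ℝ) (c : ℂ) (φ χ : WF Q) :
    PP u g (φ - c • χ) = PP u g φ - c • PP u g χ := by
  unfold PP
  rw [pt_sub, pt_smul, l3_mg_lin, pt_sub, pt_smul]

/-! ### commutators with the window of the third component -/

theorem l3_commY {A : Type} [Fintype A] (g : A → ℕ → ℝ) (κ : ℝ)
    (hg : ∀ k, k + 1 ≤ Fintype.card Q → ∑ l, (g l (k + 1) - g l k) ^ 2 ≤ κ) (χ : WF Q) :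
    ∑ l, nsq (YY (mg (g l) χ) - mg (g l) (YY χ)) ≤
      1 / 4 * (Fintype.card Q : ℝ) ^ 2 * κ * nsq χ := by
  refine le_trans (le_of_eq ?_) (step_comm g κ hg χ)
  refine Finset.sum_congr rfl fun l _ => ?_
  have : YY (mg (g l) χ) - mg (g l) (YY χ) =
      (-1 : ℂ) • (fun σ => ∑ x, op1 x fM (fun σ => (g l (cnt σ) : ℂ) * χ σ) σ
        - (g l (cnt σ) : ℂ) * ∑ x, op1 x fM χ σ) := by
    rw [l3_YY, l3_YY]
    have hmg : (mg (g l) χ : WF Q) = fun σ => (g l (cnt σ) : ℂ) * χ σ := rfl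
    rw [hmg]
    funext σ
    simp only [Pi.sub_apply, Pi.smul_apply, smul_eq_mul, mg, Finset.sum_apply]
    ring
  rw [this, nsq_smul, norm_neg, norm_one]
  ring

/-- the gauge transformation -/
noncomputable def l3V (φ : WF Q) : WF Q := fun σ => Complex.I ^ (cnt σ) * φ σ

theorem l3_nsqV (φ : WF Q) : nsq (l3V φ) = nsq φ := by
  unfold nsq l3V
  refine Finset.sum_congr rfl fun σ _ => ?_
  rw [norm_mul, norm_pow, Complex.norm_I, one_pow, one_mul]

theorem l3_opV (x : Q) (φ : WF Q) (σ : Q → Bool) :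
    op1 x fM (l3V φ) σ = (-Complex.I * Complex.I ^ (cnt σ)) * op1 x xM φ σ := by
  have hI : Complex.I * Complex.I = -1 := Complex.I_mul_I
  unfold op1 l3V fM xM
  rw [Fintype.sum_bool, Fintype.sum_bool]
  have h1 := t3c_cnt_update x σ true
  have h2 := t3c_cnt_update x σ (σ x)
  rw [Function.update_eq_self] at h2
  rcases hx : σ x with _ | _
  · rw [hx] at h2
    simp only [Bool.false_eq_true, if_false, add_zero, if_true] at h1 h2
    rw [h1, ← h2]
    simp only [Bool.false_eq_true, if_false, if_true, and_true, and_self, and_false, false_and,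
      zero_mul, add_zero, pow_succ]
    ring
  · rw [hx] at h2
    simp only [if_true] at h2
    simp only [Bool.false_eq_true, if_false, if_true, and_true, and_self, and_false,
      zero_mul, zero_add, Bool.true_eq_false]
    rw [h2, pow_succ]
    linear_combination (1 / 2 * Complex.I ^ cnt (Function.update σ x false) *
      φ (Function.update σ x false)) * hI

theorem l3_commX {A : Type} [Fintype A] (g : A → ℕ → ℝ) (κ : ℝ)
    (hg : ∀ k, k + 1 ≤ Fintype.card Q → ∑ l, (g l (k + 1) - g l k) ^ 2 ≤ κ) (χ : WF Q) :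
    ∑ l, nsq (XX (mg (g l) χ) - mg (g l) (XX χ)) ≤
      1 / 4 * (Fintype.card Q : ℝ) ^ 2 * κ * nsq χ := by
  have h := step_comm g κ hg (l3V χ)
  rw [l3_nsqV] at h
  refine le_trans (le_of_eq ?_) h
  refine Finset.sum_congr rfl fun l _ => ?_
  unfold nsq
  refine Finset.sum_congr rfl fun σ _ => ?_
  have hmg : (fun σ => (g l (cnt σ) : ℂ) * l3V χ σ) = (l3V (mg (g l) χ) : WF Q) := by
    funext τ
    simp only [l3V, mg]
    ring
  have e : ∑ x, op1 x fM (fun σ => (g l (cnt σ) : ℂ) * l3V χ σ) σ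
        - (g l (cnt σ) : ℂ) * ∑ x, op1 x fM (l3V χ) σ =
      (-Complex.I * Complex.I ^ (cnt σ)) * (XX (mg (g l) χ) - mg (g l) (XX χ)) σ := by
    rw [hmg]
    simp only [l3_opV, ← Finset.mul_sum]
    simp only [XX, Pi.sub_apply, mg, Finset.sum_apply]
    ring
  beta_reduce
  rw [e, norm_mul, norm_mul, norm_pow, norm_neg, Complex.norm_I, one_pow, one_mul, one_mul]

/-! ### the generic step -/

theorem l3_step {A : Type} [Fintype A] (P : A → WF Q → WF Q) (S : WF Q → WF Q) (K : ℝ) (c : ℂ)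
    (hP : ∀ f, ∑ l, nsq (P l f) = nsq f)
    (hlin : ∀ l f h, P l (f - c • h) = P l f - c • P l h) (χ : WF Q)
    (hc : ∑ l, nsq (S (P l χ) - P l (S χ)) ≤ K * nsq χ) :
    ∑ l, nsq (S (P l χ) - c • P l χ) ≤ 2 * nsq (S χ - c • χ) + 2 * (K * nsq χ) := by
  have h1 : ∀ l, nsq (S (P l χ) - c • P l χ) ≤
      2 * nsq (P l (S χ - c • χ)) + 2 * nsq (S (P l χ) - P l (S χ)) := by
    intro l
    have e : S (P l χ) - c • P l χ = P l (S χ - c • χ) + (S (P l χ) - P l (S χ)) := by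
      rw [hlin]
      abel
    rw [e]
    exact nsq_add_le _ _
  refine (Finset.sum_le_sum fun l _ => h1 l).trans ?_
  rw [Finset.sum_add_distrib, ← Finset.mul_sum, ← Finset.mul_sum, hP]
  linarith

/-! ### the exchange operators -/

/-- exchange of two sites in a configuration -/
def l3E (x y : Q) : (Q → Bool) ≃ (Q → Bool) where
  toFun η := fun z => η (Equiv.swap x y z)
  invFun η := fun z => η (Equiv.swap x y z)
  left_inv η := by funext z; simp
  right_inv η := by funext z; simp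

theorem l3_cnt (x y : Q) (η : Q → Bool) : cnt (fun z => η (Equiv.swap x y z)) = cnt η := by
  unfold cnt
  rw [Finset.card_filter, Finset.card_filter]
  exact Equiv.sum_comp (Equiv.swap x y) fun z => if η z = true then 1 else 0

theorem l3_sw_mg (x y : Q) (g : ℕ → ℝ) (φ : WF Q) : sw x y (mg g φ) = mg g (sw x y φ) := by
  funext η
  simp only [sw, mg]
  rw [l3_cnt]

theorem l3_sw_pt (x y : Q) (u : Matrix Bool Bool ℂ) (φ : WF Q) :
    sw x y (pt u φ) = pt u (sw x y φ) := by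
  funext η
  simp only [sw, pt]
  rw [← Equiv.sum_comp (l3E x y)]
  refine Finset.sum_congr rfl fun ζ _ => ?_
  congr 1
  exact Equiv.prod_comp (Equiv.swap x y) fun z => u (η z) (ζ z)

theorem l3_sw_PP (x y : Q) (u : Matrix Bool Bool ℂ) (g : ℕ → ℝ) (φ : WF Q) :
    sw x y (PP u g φ) = PP u g (sw x y φ) := by
  unfold PP
  rw [l3_sw_pt, l3_sw_mg, l3_sw_pt]

theorem l3_ip_mg {A : Type} [Fintype A] (g : A → ℕ → ℝ)
    (hg : ∀ k, k ≤ Fintype.card Q → ∑ l, g l k ^ 2 = 1) (φ χ : WF Q) :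
    ∑ l, ip (mg (g l) φ) (mg (g l) χ) = ip φ χ := by
  simp only [ip, mg]
  rw [Finset.sum_comm]
  refine Finset.sum_congr rfl fun σ _ => ?_
  have h : ∀ l, (starRingEnd ℂ) ((g l (cnt σ) : ℂ) * φ σ) * ((g l (cnt σ) : ℂ) * χ σ) =
      ((g l (cnt σ) ^ 2 : ℝ) : ℂ) * ((starRingEnd ℂ) (φ σ) * χ σ) := by
    intro l
    rw [map_mul, Complex.conj_ofReal]
    push_cast
    ring
  rw [Finset.sum_congr rfl fun l _ => h l, ← Finset.sum_mul, ← Complex.ofReal_sum,
    hg _ (cnt_le σ), Complex.ofReal_one, one_mul]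

theorem l3_ip_PP (u : Matrix Bool Bool ℂ) (hu : u.conjTranspose * u = 1)
    (hu' : u * u.conjTranspose = 1) {A : Type} [Fintype A] (g : A → ℕ → ℝ)
    (hg : ∀ k, k ≤ Fintype.card Q → ∑ l, g l k ^ 2 = 1) (φ χ : WF Q) :
    ∑ l, ip (PP u (g l) φ) (PP u (g l) χ) = ip φ χ := by
  have h : ∀ l, ip (PP u (g l) φ) (PP u (g l) χ) = ip (mg (g l) (pt u φ)) (mg (g l) (pt u χ)) := by
    intro l
    rw [PP, PP, pt_ip]
    rw [Matrix.conjTranspose_conjTranspose]
    exact hu'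
  rw [Finset.sum_congr rfl fun l _ => h l, l3_ip_mg g hg, pt_ip u hu]

end loc3

/-- localisation of the three components of the total spin -/
theorem localize3 {Q : Type} [Fintype Q] [DecidableEq Q] (W : ℕ) (hW : 1 ≤ W) :
    ∃ (A : Type) (_ : Fintype A) (L : A → WF Q → WF Q) (c : A → Fin 3 → ℝ),
      Fintype.card A = (Fintype.card Q + 2 * W + 1) ^ 3 ∧
      (∀ α, ∃ L' : WF Q → WF Q, (∀ φ χ, ip (L α φ) χ = ip φ (L' χ)) ∧ ∀ χ, nsq (L' χ) ≤ nsq χ) ∧
      ∀ φ : WF Q,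
      (∑ α, nsq (L α φ) = nsq φ) ∧
      (∀ x y, ∑ α, gH (L α φ) x y = gH φ x y) ∧
      ∑ α, ∑ a, nsq (tA a (fun _ => 1) (L α φ) - ((c α a : ℝ) : ℂ) • L α φ) ≤
        (7 * (W : ℝ) ^ 2 + 6 * (Fintype.card Q : ℝ) ^ 2 / (W : ℝ) ^ 2) * nsq φ := by
  obtain ⟨A, hA, g, c, h0, h1, _, h3, h4⟩ := windowC W hW (Fintype.card Q)
  set M : ℝ := (Fintype.card Q : ℝ) with hM
  refine ⟨A × A × A, inferInstance,
    fun α φ => mg (g α.2.2) (PP uY (g α.2.1) (PP uX (g α.1) φ)),
    fun α => ![M / 2 - c α.1, M / 2 - c α.2.1, c α.2.2 - M / 2], ?_, ?_, ?_⟩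
  · rw [Fintype.card_prod, Fintype.card_prod, h0]
    ring
  · intro α
    refine ⟨fun χ => PP uX (g α.1) (PP uY (g α.2.1) (mg (g α.2.2) χ)), fun φ χ => ?_, fun χ => ?_⟩
    · rw [mg_adj, PP_adj uY, PP_adj uX]
    · exact (nsq_PP_le uX uX_hu uX_hu' g h1 α.1 _).trans
        ((nsq_PP_le uY uY_hu uY_hu' g h1 α.2.1 _).trans (nsq_mg_le g h1 α.2.2 χ))
  intro φ
  have hWpos : (0 : ℝ) < W := by exact_mod_cast hW
  have sX : ∀ χ : WF Q, ∑ l, nsq (PP uX (g l) χ) = nsq χ :=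
    fun χ => sum_nsq_PP uX uX_hu uX_hu' g h1 χ
  have sY : ∀ χ : WF Q, ∑ l, nsq (PP uY (g l) χ) = nsq χ :=
    fun χ => sum_nsq_PP uY uY_hu uY_hu' g h1 χ
  have sZ : ∀ χ : WF Q, ∑ l, nsq (mg (g l) χ) = nsq χ := fun χ => sum_nsq_mg g h1 χ
  have hone : ∑ α : A × A × A, nsq (mg (g α.2.2) (PP uY (g α.2.1) (PP uX (g α.1) φ))) = nsq φ := by
    rw [Fintype.sum_prod_type]
    simp only [Fintype.sum_prod_type, sZ, sY, sX]
  refine ⟨hone, ?_, ?_⟩
  · intro x y
    by_cases hxy : x = y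
    · subst hxy
      simp only [gH_diag]
      rw [← Finset.mul_sum, hone]
    · simp only [gH_off _ x y hxy]
      rw [Finset.sum_sub_distrib, ← Finset.mul_sum, ← Finset.mul_sum, hone, ← Complex.re_sum]
      congr 3
      simp only [l3_sw_mg, l3_sw_PP]
      rw [Fintype.sum_prod_type]
      simp only [Fintype.sum_prod_type, l3_ip_mg g h1, l3_ip_PP uY uY_hu uY_hu' g h1,
        l3_ip_PP uX uX_hu uX_hu' g h1]
  · set κ : ℝ := 3 / (W : ℝ) ^ 2 with hκ
    set K : ℝ := 1 / 4 * M ^ 2 * κ with hK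
    have e3 : ∀ α : A × A × A, ∑ a, nsq (tA a (fun _ => 1)
        (mg (g α.2.2) (PP uY (g α.2.1) (PP uX (g α.1) φ))) -
        (((![M / 2 - c α.1, M / 2 - c α.2.1, c α.2.2 - M / 2] : Fin 3 → ℝ) a : ℝ) : ℂ) •
          mg (g α.2.2) (PP uY (g α.2.1) (PP uX (g α.1) φ))) =
        nsq (XX (mg (g α.2.2) (PP uY (g α.2.1) (PP uX (g α.1) φ))) -
          ((M / 2 - c α.1 : ℝ) : ℂ) • mg (g α.2.2) (PP uY (g α.2.1) (PP uX (g α.1) φ))) +
        nsq (YY (mg (g α.2.2) (PP uY (g α.2.1) (PP uX (g α.1) φ))) -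
          (-Complex.I * ((M / 2 - c α.2.1 : ℝ) : ℂ)) •
            mg (g α.2.2) (PP uY (g α.2.1) (PP uX (g α.1) φ))) +
        nsq (fun σ => (((c α.2.2 - (cnt σ : ℝ) : ℝ)) : ℂ) *
          mg (g α.2.2) (PP uY (g α.2.1) (PP uX (g α.1) φ)) σ) := by
      intro α
      rw [Fin.sum_univ_three]
      congr 1
      · congr 1
        · rw [l3_t0]; rfl
        · rw [l3_t1]
          have hI : Complex.I * Complex.I = -1 := Complex.I_mul_I
          have e : (Complex.I • YY (mg (g α.2.2) (PP uY (g α.2.1) (PP uX (g α.1) φ))) -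
              (((![M / 2 - c α.1, M / 2 - c α.2.1, c α.2.2 - M / 2] : Fin 3 → ℝ) 1 : ℝ) : ℂ) •
              mg (g α.2.2) (PP uY (g α.2.1) (PP uX (g α.1) φ))) =
              Complex.I • (YY (mg (g α.2.2) (PP uY (g α.2.1) (PP uX (g α.1) φ))) -
              (-Complex.I * ((M / 2 - c α.2.1 : ℝ) : ℂ)) •
              mg (g α.2.2) (PP uY (g α.2.1) (PP uX (g α.1) φ))) := by
            change _ - (((M / 2 - c α.2.1 : ℝ)) : ℂ) • _ = _
            rw [smul_sub, smul_smul]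
            congr 2
            linear_combination ((M / 2 - c α.2.1 : ℝ) : ℂ) * hI
          rw [e, nsq_smul, Complex.norm_I]
          ring
      · rw [l3_t2]
        unfold nsq
        refine Finset.sum_congr rfl fun σ _ => ?_
        change ‖((((cnt σ : ℝ) - (Fintype.card Q : ℝ) / 2 : ℝ)) : ℂ) *
            mg (g α.2.2) (PP uY (g α.2.1) (PP uX (g α.1) φ)) σ -
          ((c α.2.2 - M / 2 : ℝ) : ℂ) * mg (g α.2.2) (PP uY (g α.2.1) (PP uX (g α.1) φ)) σ‖ ^ 2 = _
        rw [← norm_neg]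
        congr 2
        rw [hM]
        push_cast
        ring
    rw [Finset.sum_congr rfl fun α _ => e3 α, Finset.sum_add_distrib, Finset.sum_add_distrib]
    -- first component
    have vX : ∑ α : A × A × A, nsq (XX (mg (g α.2.2) (PP uY (g α.2.1) (PP uX (g α.1) φ))) -
          ((M / 2 - c α.1 : ℝ) : ℂ) • mg (g α.2.2) (PP uY (g α.2.1) (PP uX (g α.1) φ))) ≤
        (4 * (W : ℝ) ^ 2 + 6 * K) * nsq φ := by
      rw [Fintype.sum_prod_type]
      have k1 : ∀ l, ∑ β : A × A, nsq (XX (mg (g β.2) (PP uY (g β.1) (PP uX (g l) φ))) -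
          ((M / 2 - c l : ℝ) : ℂ) • mg (g β.2) (PP uY (g β.1) (PP uX (g l) φ))) ≤
          (4 * (W : ℝ) ^ 2 + 6 * K) * nsq (PP uX (g l) φ) := by
        intro l
        rw [Fintype.sum_prod_type]
        have k2 : ∀ l', ∑ l'', nsq (XX (mg (g l'') (PP uY (g l') (PP uX (g l) φ))) -
            ((M / 2 - c l : ℝ) : ℂ) • mg (g l'') (PP uY (g l') (PP uX (g l) φ))) ≤
            2 * nsq (XX (PP uY (g l') (PP uX (g l) φ)) -
              ((M / 2 - c l : ℝ) : ℂ) • PP uY (g l') (PP uX (g l) φ)) +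
            2 * (K * nsq (PP uY (g l') (PP uX (g l) φ))) := fun l' =>
          l3_step (fun l f => mg (g l) f) XX K _ sZ (fun l f h => l3_mg_lin _ _ f h) _
            (l3_commX g κ h3 _)
        refine (Finset.sum_le_sum fun l' _ => k2 l').trans ?_
        rw [Finset.sum_add_distrib, ← Finset.mul_sum, ← Finset.mul_sum, ← Finset.mul_sum, sY]
        have k3 := l3_step (fun l f => PP uY (g l) f) XX K ((M / 2 - c l : ℝ) : ℂ) sY
          (fun l f h => l3_PP_lin _ _ _ f h) (PP uX (g l) φ) (comm g κ h3 _)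
        have k4 := varX (g l) (c l) W (fun k hk => h4 l k hk) φ
        rw [← hM] at k4
        linarith
      refine (Finset.sum_le_sum fun l _ => k1 l).trans (le_of_eq ?_)
      rw [← Finset.mul_sum, sX]
    -- second component
    have vY : ∑ α : A × A × A, nsq (YY (mg (g α.2.2) (PP uY (g α.2.1) (PP uX (g α.1) φ))) -
          (-Complex.I * ((M / 2 - c α.2.1 : ℝ) : ℂ)) •
            mg (g α.2.2) (PP uY (g α.2.1) (PP uX (g α.1) φ))) ≤
        (2 * (W : ℝ) ^ 2 + 2 * K) * nsq φ := by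
      rw [Fintype.sum_prod_type]
      have k1 : ∀ l, ∑ β : A × A, nsq (YY (mg (g β.2) (PP uY (g β.1) (PP uX (g l) φ))) -
          (-Complex.I * ((M / 2 - c β.1 : ℝ) : ℂ)) •
            mg (g β.2) (PP uY (g β.1) (PP uX (g l) φ))) ≤
          (2 * (W : ℝ) ^ 2 + 2 * K) * nsq (PP uX (g l) φ) := by
        intro l
        rw [Fintype.sum_prod_type]
        have k2 : ∀ l', ∑ l'', nsq (YY (mg (g l'') (PP uY (g l') (PP uX (g l) φ))) -
            (-Complex.I * ((M / 2 - c l' : ℝ) : ℂ)) •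
              mg (g l'') (PP uY (g l') (PP uX (g l) φ))) ≤
            (2 * (W : ℝ) ^ 2 + 2 * K) * nsq (PP uY (g l') (PP uX (g l) φ)) := by
          intro l'
          have k3 := l3_step (fun l f => mg (g l) f) YY K
            (-Complex.I * ((M / 2 - c l' : ℝ) : ℂ)) sZ (fun l f h => l3_mg_lin _ _ f h)
            (PP uY (g l') (PP uX (g l) φ)) (l3_commY g κ h3 _)
          have k4 := varY (g l') (c l') W (fun k hk => h4 l' k hk) (PP uX (g l) φ)
          rw [← hM] at k4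
          refine k3.trans ?_
          linarith
        refine (Finset.sum_le_sum fun l' _ => k2 l').trans (le_of_eq ?_)
        rw [← Finset.mul_sum, sY]
      refine (Finset.sum_le_sum fun l _ => k1 l).trans (le_of_eq ?_)
      rw [← Finset.mul_sum, sX]
    -- third component
    have vZ : ∑ α : A × A × A, nsq (fun σ => (((c α.2.2 - (cnt σ : ℝ) : ℝ)) : ℂ) *
          mg (g α.2.2) (PP uY (g α.2.1) (PP uX (g α.1) φ)) σ) ≤ (W : ℝ) ^ 2 * nsq φ := by
      refine (Finset.sum_le_sum fun α _ => nsq_win (g α.2.2) (c α.2.2) W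
        (PP uY (g α.2.1) (PP uX (g α.1) φ)) (fun k hk => h4 α.2.2 k hk)).trans (le_of_eq ?_)
      rw [← Finset.mul_sum, hone]
    have e8 : (7 * (W : ℝ) ^ 2 + 6 * M ^ 2 / (W : ℝ) ^ 2) * nsq φ =
        (4 * (W : ℝ) ^ 2 + 6 * K) * nsq φ + (2 * (W : ℝ) ^ 2 + 2 * K) * nsq φ +
          (W : ℝ) ^ 2 * nsq φ := by
      rw [hK, hκ]
      ring
    rw [e8]
    linarith

end Pool.Agent.TH268.HB
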