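import Pool.Agent.TH268.HB.CubeH
import Pool.Agent.TH268.TB.Lower
import Pool.Agent.TH268.TB.MFUp

/-!
# Mean-field bounds of the free energy on the torus
-/

set_option autoImplicit false

open Finset BigOperators

namespace Pool.Agent.TH268.HB

open Pool.Agent.H11R2.BEC Pool.Agent.H11R2.BEC.T2c Pool.Agent.TH268.TB

/-- the error term -/
noncomputable def errCH (d s W : ℕ) (β lm : ℝ) : ℝ :=
  lm * ((7 * (W : ℝ) ^ 2 + 6 * ((2 : ℝ) ^ (d * s)) ^ 2 / (W : ℝ) ^ 2) / ((2 : ℝ) ^ (d * s)) ^ 2) +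
    (1 / (β * (2 : ℝ) ^ (d * s))) * Real.log (((2 : ℝ) ^ (d * s) + 2 * W + 1) ^ 3)

theorem lowerSH {d J s : ℕ} (hs : s ≤ J) {β lm : ℝ} (hβ : 0 < β) (hlm : 0 < lm) (W : ℕ)
    (hW : 1 ≤ W) {lam : (Site d J → Bool) → ℝ} {ψ : (Site d J → Bool) → WF (Site d J)}
    (hψ : ONB ψ) (hlam : ∀ m, 0 ≤ lam m) (hlam1 : ∑ m, lam m = 1) (F : ℝ)
    (hF : ∀ e, 0 ≤ e → F ≤ mfG β 0 lm e) :
    F - errCH d s W β lm ≤ - (lm * ∑ m, lam m * cohH s (ψ m)) +
      (1 / (β * 2 ^ (d * J))) * ∑ m, lam m * Real.log (lam m) := by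
  classical
  set M : ℝ := (2 : ℝ) ^ (d * s) with hM
  set V : ℝ := (2 : ℝ) ^ (d * J) with hV
  have hM0 : 0 < M := by positivity
  have hV0 : 0 < V := by positivity
  have hex := fun w => exists_marg (j := s) lam hlam ψ w
  choose φ r hMg using hex
  have hS := subadd hs hlam hlam1 hψ φ r hMg
  rw [← hM] at hS
  have hw : ∀ w : Site d J, F - errCH d s W β lm ≤
      - (lm * ∑ m, lam m * ∑ a, nsq (avS a s w (ψ m))) +
      (1 / (β * M)) * ∑ k, r w k * Real.log (r w k) := by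
    intro w
    have h1 := cube_lowerH (Q := Site d s) hβ hlm W hW (φ w) (r w) (hMg w).onb (hMg w).nn
      ((hMg w).total hs hψ hlam1) M (by rw [hM, ki_card_site]) F hF
    have h2 : ∀ k, (1 / M ^ 2) * ∑ a, nsq (tA a (fun _ => 1) (φ w k)) =
        ∑ a, nsq (avS a s 0 (φ w k)) := by
      intro k
      rw [Finset.mul_sum]
      refine Finset.sum_congr rfl fun a _ => ?_
      rw [avS_top, T3d.nsq_smul]
      congr 1
      rw [norm_div, norm_one, norm_pow, Complex.norm_ofNat, ← hM, div_pow, one_pow]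
    simp only [h2] at h1
    have h3 := marg_avH hs (hMg w)
    rw [h3] at h1
    exact h1
  have hsum := Finset.sum_le_sum (s := (univ : Finset (Site d J))) fun w _ => hw w
  have hcV : (Fintype.card (Site d J) : ℝ) = V := ki_card_site d J
  simp only [Finset.sum_add_distrib, Finset.sum_neg_distrib,
    ← Finset.mul_sum, Finset.sum_const, Finset.card_univ, nsmul_eq_mul, hcV] at hsum
  have e1 : ∑ w : Site d J, ∑ m, lam m * ∑ a, nsq (avS a s w (ψ m)) =
      V * ∑ m, lam m * cohH s (ψ m) := by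
    rw [Finset.sum_comm, Finset.mul_sum]
    refine Finset.sum_congr rfl fun m _ => ?_
    rw [← Finset.mul_sum]
    unfold cohH
    rw [← hV]
    field_simp
  rw [e1] at hsum
  set R := ∑ w : Site d J, ∑ k, r w k * Real.log (r w k) with hR
  set S := ∑ m, lam m * Real.log (lam m) with hSdef
  have h5 : 1 / (β * M) * R ≤ (1 / β) * S := by
    have h6 : 1 / (β * M) * R = (1 / β) * ((1 / M) * R) := by field_simp
    rw [h6]
    exact mul_le_mul_of_nonneg_left hS (by positivity)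
  have h7 : V * (F - errCH d s W β lm) ≤ V * (- (lm * ∑ m, lam m * cohH s (ψ m)) +
      (1 / (β * V)) * S) := by
    have h8 : V * ((1 / (β * V)) * S) = (1 / β) * S := by field_simp
    rw [mul_add, h8]
    linarith
  exact le_of_mul_le_mul_left h7 hV0

theorem var_boundH (d j : ℕ) :
    (7 * ((2 ^ (d * j / 2) : ℕ) : ℝ) ^ 2 + 6 * ((2 : ℝ) ^ (d * j)) ^ 2 /
      ((2 ^ (d * j / 2) : ℕ) : ℝ) ^ 2) / ((2 : ℝ) ^ (d * j)) ^ 2 ≤
      13 * (1 / (2 : ℝ) ^ (d * j / 2)) ^ 2 := by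
  set e : ℕ := d * j / 2 with he
  have h1 : 2 * e ≤ d * j := by omega
  have hWM : ((2 : ℝ) ^ e) ^ 2 ≤ 2 ^ (d * j) := by
    rw [← pow_mul]; exact pow_le_pow_right₀ (by norm_num) (by omega)
  push_cast
  set W : ℝ := (2 : ℝ) ^ e with hWdef
  set M : ℝ := (2 : ℝ) ^ (d * j) with hMdef
  have hM0 : 0 < M := by positivity
  have hW0 : 0 < W := by positivity
  have : (7 * W ^ 2 + 6 * M ^ 2 / W ^ 2) / M ^ 2 = 7 * W ^ 2 / M ^ 2 + 6 / W ^ 2 := by
    field_simp
  rw [this]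
  have h3 : 7 * W ^ 2 / M ^ 2 ≤ 7 / W ^ 2 := by
    rw [div_le_div_iff₀ (by positivity) (by positivity)]
    have : W ^ 2 * W ^ 2 ≤ M * M := mul_le_mul hWM hWM (by positivity) (by positivity)
    nlinarith
  have h4 : 13 * (1 / W) ^ 2 = 7 / W ^ 2 + 6 / W ^ 2 := by ring
  rw [h4]; linarith

theorem log_boundH (d j : ℕ) {β : ℝ} (hβ : 0 < β) :
    1 / (β * 2 ^ (d * j)) * Real.log (((2 : ℝ) ^ (d * j) + 2 * ((2 ^ (d * j / 2) : ℕ) : ℝ) + 1) ^ 3)
      ≤ 12 / β * (1 / (2 : ℝ) ^ (d * j / 2)) := by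
  have h := log_bound d j hβ
  rw [Real.log_pow] at h ⊢
  have h2 := mul_le_mul_of_nonneg_left h (show (0 : ℝ) ≤ 3 / 2 by norm_num)
  refine le_trans (le_of_eq ?_) (h2.trans (le_of_eq ?_))
  · push_cast; ring
  · ring

theorem errCH_le {d : ℕ} (hd : 1 ≤ d) (s : ℕ) {β lm : ℝ} (hβ : 0 < β) (hlm : 0 < lm) :
    errCH d s (2 ^ (d * s / 2)) β lm ≤ (13 * lm + 12 / β) * (1 / 2 : ℝ) ^ (s / 2) := by
  unfold errCH
  have h1 := log_boundH d s hβ
  have h2 := var_boundH d s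
  have h3 := pow_half_le hd s
  set w : ℝ := 1 / (2 : ℝ) ^ (d * s / 2) with hw
  have hw0 : 0 < w := by positivity
  have hw1 : w ≤ 1 := by
    rw [hw, div_le_one (by positivity)]
    exact one_le_pow₀ (by norm_num)
  have hww : w ^ 2 ≤ w := by nlinarith
  have h6 : lm * ((7 * ((2 ^ (d * s / 2) : ℕ) : ℝ) ^ 2 + 6 * ((2 : ℝ) ^ (d * s)) ^ 2 /
      ((2 ^ (d * s / 2) : ℕ) : ℝ) ^ 2) / ((2 : ℝ) ^ (d * s)) ^ 2) ≤ 13 * lm * w := by
    calc _ ≤ lm * (13 * w ^ 2) := mul_le_mul_of_nonneg_left h2 hlm.le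
      _ ≤ _ := by nlinarith
  have h7 : 0 ≤ 13 * lm + 12 / β := by positivity
  calc _ ≤ 13 * lm * w + 12 / β * w := by linarith
    _ = (13 * lm + 12 / β) * w := by ring
    _ ≤ _ := mul_le_mul_of_nonneg_left h3 h7

/-- the lower bound of the free energy of a state, all scales -/
theorem lowerAll {d J : ℕ} (hd : 1 ≤ d) {q β : ℝ} (hq0 : 0 ≤ q) (hq1 : q ≤ 1) (hβ : 0 < β)
    {ψ : (Site d J → Bool) → WF (Site d J)} {lam : (Site d J → Bool) → ℝ}
    (hψ : ONB ψ) (hlam : ∀ m, 0 ≤ lam m) (hlam1 : ∑ m, lam m = 1) {lm : ℝ} (hlm : 0 < lm) (F : ℝ)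
    (hF : ∀ e, 0 ≤ e → F ≤ mfG β 0 lm e) :
    F - (13 * lm + 12 / β) * (4 * (1 - q) + (1 / 2 : ℝ) ^ (J / 2)) ≤
      - (lm * ∑ s ∈ range (J + 1), cf q J s * ∑ m, lam m * cohH s (ψ m)) +
      (1 / (β * 2 ^ (d * J))) * ∑ m, lam m * Real.log (lam m) := by
  set V : ℝ := (2 : ℝ) ^ (d * J) with hV
  have hV0 : 0 < V := by positivity
  set a : ℕ → ℝ := fun s => ∑ m, lam m * cohH s (ψ m) with ha
  set S := ∑ m, lam m * Real.log (lam m) with hSdef
  set C : ℝ := 13 * lm + 12 / β with hC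
  have hC0 : 0 ≤ C := by rw [hC]; positivity
  set X := ∑ s ∈ range (J + 1), cf q J s * a s with hX
  have h1 : ∀ s ∈ range (J + 1), cf q J s * (F - C * (1 / 2 : ℝ) ^ (s / 2)) ≤
      cf q J s * (-(lm * a s) + 1 / (β * V) * S) := by
    intro s hs
    refine mul_le_mul_of_nonneg_left ?_ (ki_cf_nonneg hq0 hq1 J s)
    have h2 := lowerSH (d := d) (s := s) (by have := Finset.mem_range.1 hs; omega) hβ hlm
      (2 ^ (d * s / 2)) Nat.one_le_two_pow hψ hlam hlam1 F hF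
    have h3 := errCH_le hd s hβ hlm
    have h4 : F - C * (1 / 2 : ℝ) ^ (s / 2) ≤ F - errCH d s (2 ^ (d * s / 2)) β lm := by
      linarith
    exact h4.trans h2
  have h2 := Finset.sum_le_sum h1
  have h3 : ∑ s ∈ range (J + 1), cf q J s * (F - C * (1 / 2 : ℝ) ^ (s / 2)) =
      F - C * ∑ s ∈ range (J + 1), cf q J s * (1 / 2 : ℝ) ^ (s / 2) := by
    simp only [mul_sub, Finset.sum_sub_distrib]
    rw [← Finset.sum_mul, ki_cf_sum, one_mul]
    congr 1
    rw [Finset.mul_sum]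
    exact Finset.sum_congr rfl fun s _ => by ring
  have h4 : ∑ s ∈ range (J + 1), cf q J s * (-(lm * a s) + 1 / (β * V) * S) =
      - (lm * X) + 1 / (β * V) * S := by
    have e1 : ∀ s, cf q J s * (-(lm * a s) + 1 / (β * V) * S) =
        - (lm * (cf q J s * a s)) + cf q J s * (1 / (β * V) * S) := fun s => by ring
    rw [Finset.sum_congr rfl fun s _ => e1 s, Finset.sum_add_distrib, Finset.sum_neg_distrib,
      ← Finset.mul_sum, ← Finset.sum_mul, ki_cf_sum, one_mul]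
  rw [h3, h4] at h2
  have h5 := sum_half hq0 hq1 J
  have h6 := mul_le_mul_of_nonneg_left h5 hC0
  linarith

theorem IsGibbsH.free2 {d J : ℕ} {q β : ℝ} (hβ : 0 < β)
    {ψ : (Site d J → Bool) → WF (Site d J)} {E lam : (Site d J → Bool) → ℝ}
    (h : IsGibbsH q β ψ E lam) :
    - ((1 / β) * (Real.log (∑ m, Real.exp (-(β * E m))) / 2 ^ (d * J))) =
      - (∑ s ∈ range (J + 1), cf q J s * ∑ m, lam m * cohH s (ψ m)) +
      (1 / (β * 2 ^ (d * J))) * ∑ m, lam m * Real.log (lam m) := by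
  have h7 := h.free
  have hen1 : ∑ m, lam m * enH q (ψ m) =
      - ∑ s ∈ range (J + 1), cf q J s * ∑ m, lam m * cohH s (ψ m) := by
    unfold enH
    have t1 : ∀ m, lam m * (-∑ s ∈ range (J + 1), cf q J s * cohH s (ψ m)) =
        - (∑ s ∈ range (J + 1), cf q J s * (lam m * cohH s (ψ m))) := by
      intro m
      have : ∑ s ∈ range (J + 1), cf q J s * (lam m * cohH s (ψ m)) =
          lam m * ∑ s ∈ range (J + 1), cf q J s * cohH s (ψ m) := by
        rw [Finset.mul_sum]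
        exact Finset.sum_congr rfl fun s _ => by ring
      rw [this]; ring
    rw [Finset.sum_congr rfl fun m _ => t1 m, Finset.sum_neg_distrib, Finset.sum_comm]
    simp only [← Finset.mul_sum]
  rw [hen1] at h7
  rw [h7]
  field_simp
  ring

/-- the lower bound of the free energy, all scales -/
theorem lowerHH {d J : ℕ} (hd : 1 ≤ d) {q β : ℝ} (hq0 : 0 ≤ q) (hq1 : q ≤ 1) (hβ : 0 < β)
    {ψ : (Site d J → Bool) → WF (Site d J)} {E lam : (Site d J → Bool) → ℝ}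
    (h : IsGibbsH q β ψ E lam) {lm : ℝ} (hlm : 0 < lm) (F : ℝ)
    (hF : ∀ e, 0 ≤ e → F ≤ mfG β 0 lm e) :
    F - (13 * lm + 12 / β) * (4 * (1 - q) + (1 / 2 : ℝ) ^ (J / 2)) ≤
      - ((1 / β) * (Real.log (∑ m, Real.exp (-(β * E m))) / 2 ^ (d * J))) +
      (1 - lm) * (∑ s ∈ range (J + 1), cf q J s * ∑ m, lam m * cohH s (ψ m)) := by
  have h1 := lowerAll hd hq0 hq1 hβ h.onb h.nonneg h.sum hlm F hF
  rw [h.free2 hβ]
  linarith

theorem rhsH_zero {d J : ℕ} (q : ℝ) (c : Fin 3 → ℝ) (χ : WF (Site d 0)) :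
    rhsH q 1 J (fun a => ((c a : ℝ) : ℂ)) χ = (∑ a, c a ^ 2) * nsq χ +
      (-2 * ∑ a, c a * (ip χ (op1 0 (sgA a) χ)).re) := by
  rw [rhsH_eq]
  rw [Finset.range_zero, Finset.sum_empty, sub_zero]
  have h0 : ∀ a, avS a 0 (0 : Site d 0) χ = op1 0 (sgA a) χ := by
    intro a
    rw [avS_cube, Nat.mul_zero, pow_zero, div_one, one_smul]
    have h1 : ∀ u : Fin d → Fin (2 ^ 0), op1 ((0 : Site d 0) + cu 0 u) (sgA a) χ =
        op1 (0 : Site d 0) (sgA a) χ := by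
      intro u
      rw [site_zero_sub d (0 + cu 0 u)]
    rw [Finset.sum_congr rfl fun u _ => h1 u, Finset.sum_const, Finset.card_univ,
      Fintype.card_fun, Fintype.card_fin]
    simp
  rw [← Finset.sum_neg_distrib, ← Finset.sum_add_distrib, Finset.sum_mul, Finset.mul_sum,
    ← Finset.sum_add_distrib]
  refine Finset.sum_congr rfl fun a _ => ?_
  rw [h0, square_idH]
  ring

/-- the mean-field upper bound -/
theorem mf_upperH {d J : ℕ} {q β : ℝ} (hq0 : 0 ≤ q) (hq1 : q ≤ 1) (hβ : 0 < β)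
    {ψ : (Site d J → Bool) → WF (Site d J)} {E : (Site d J → Bool) → ℝ} (hψ : ONB ψ)
    (hE : ∀ χ : WF (Site d J), (2 : ℝ) ^ (d * J) * enH q χ = ∑ m, E m * ‖gip (ψ m) χ‖ ^ 2)
    (e : ℝ) (he0 : 0 ≤ e) :
    - ((1 / β) * (Real.log (∑ m, Real.exp (-(β * E m))) / 2 ^ (d * J))) ≤ mfG β 0 1 e := by
  obtain ⟨γ, hγ⟩ : ∃ γ : Fin 3 → ℝ, γ = fun a => if a = 0 then e else 0 := ⟨_, rfl⟩
  have hγ2 : ∑ a, γ a ^ 2 = e ^ 2 := by
    rw [hγ, Fin.sum_univ_three]
    simp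
  obtain ⟨U, hU, hU1, hF⟩ := one_siteH γ e he0 hγ2.symm
  have honb : ONB (pb U : (Site d 0 → Bool) → WF (Site d 0)) := pb_onb hU hU1
  set Z : ℝ := ∑ k, Real.exp (-(β * sg 0 e k)) with hZ
  have hZ0 : 0 < Z := Z1_pos 0 e β
  -- the sum over the configurations of one site
  have hsum : ∀ f : Bool → ℝ, ∑ K : Site d 0 → Bool, f (K 0) = ∑ k, f k := by
    intro f
    let eqv : (Site d 0 → Bool) ≃ Bool :=
      { toFun := fun K => K 0
        invFun := fun k _ => k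
        left_inv := fun K => by funext x; rw [site_zero_sub d x]
        right_inv := fun k => rfl }
    exact Equiv.sum_comp eqv f
  have hns : ∀ K : Site d 0 → Bool, nsq (pb U K : WF (Site d 0)) = 1 := honb.norm
  have hrhs : ∀ K : Site d 0 → Bool, rhsH q 1 J (fun a => ((γ a : ℝ) : ℂ))
      (pb U K : WF (Site d 0)) = e ^ 2 + sg 0 e (K 0) := by
    intro K
    rw [rhsH_zero, hns, hγ2, mul_one, ← pb_formH hU hF]
    congr 1
    rw [Finset.sum_eq_single K]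
    · rw [honb.orth, if_pos rfl, mul_one]
    · intro K' _ hK
      rw [honb.orth, if_neg hK, mul_zero]
    · intro h; exact absurd (Finset.mem_univ _) h
  have hr1 : ∑ k : Bool, Real.exp (-(β * sg 0 e k)) / Z = 1 := by
    rw [← Finset.sum_div, div_self hZ0.ne']
  have key := trialTH (d := d) (J := J) (j := 0) (Nat.zero_le _) hq0 hq1 hβ hψ hE
    (pb U) (fun K => Real.exp (-(β * sg 0 e (K 0))) / Z) (fun K => by positivity) 1
    (by
      simp only [hns, mul_one]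
      rw [hsum (fun k => Real.exp (-(β * sg 0 e k)) / Z), hr1]) one_pos
    (fun v => (honb.pars v).le) (fun a => ((γ a : ℝ) : ℂ)) one_pos
  simp only [hns, hrhs, mul_one, one_mul, Real.log_one, sub_zero, Nat.mul_zero, pow_zero,
    div_one] at key
  rw [hsum (fun k => Real.exp (-(β * sg 0 e k)) / Z * (e ^ 2 + sg 0 e k)),
    hsum (fun k => Real.exp (-(β * sg 0 e k)) / Z * Real.log (Real.exp (-(β * sg 0 e k)) / Z))]
    at key
  have h1 : ∀ k, Real.log (Real.exp (-(β * sg 0 e k)) / Z) = -(β * sg 0 e k) - Real.log Z := by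
    intro k
    rw [Real.log_div (Real.exp_pos _).ne' hZ0.ne', Real.log_exp]
  have h2 : -(β * ∑ k, Real.exp (-(β * sg 0 e k)) / Z * (e ^ 2 + sg 0 e k)) -
      ∑ k, Real.exp (-(β * sg 0 e k)) / Z * Real.log (Real.exp (-(β * sg 0 e k)) / Z) =
      (-(β * e ^ 2) + Real.log Z) * ∑ k : Bool, Real.exp (-(β * sg 0 e k)) / Z := by
    rw [Finset.mul_sum, Finset.mul_sum, ← Finset.sum_neg_distrib, ← Finset.sum_sub_distrib]
    refine Finset.sum_congr rfl fun k _ => ?_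
    rw [h1]; ring
  rw [h2, hr1, mul_one, hZ, log_Z1] at key
  unfold mfG
  have h3 := mul_le_mul_of_nonneg_left key (show 0 ≤ 1 / β by positivity)
  have h4 : 1 / β * (-(β * e ^ 2) + (β * 0 / 2 + Real.log (2 * Real.cosh (β * e)))) =
      -(e ^ 2) + 1 / β * Real.log (2 * Real.cosh (β * e)) := by
    field_simp
    ring
  rw [h4] at h3
  have h5 : (e ^ 2 - 0 ^ 2 / 4) / 1 - 0 / 2 - 1 / β * Real.log (2 * Real.cosh (β * e)) =
      e ^ 2 - 1 / β * Real.log (2 * Real.cosh (β * e)) := by ring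
  rw [h5]
  linarith

end Pool.Agent.TH268.HB
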