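import Pool.Agent.TH268.HB.Defs

/-!
# Transfer of the coherences to the marginals
-/

set_option autoImplicit false

open Finset BigOperators

namespace Pool.Agent.TH268.HB

open Pool.Agent.H11R2.BEC Pool.Agent.H11R2.BEC.T3d Pool.Agent.TH268.TB

theorem res_op1 {Λ Q : Type} [Fintype Λ] [DecidableEq Λ] [Fintype Q] [DecidableEq Q] {ι : Q → Λ}
    (hι : Function.Injective ι) (η : Λ → Bool) (ψ : WF Λ) (x : Q) (A : Matrix Bool Bool ℂ) :
    op1 x A (res ι η ψ) = res ι η (op1 (ι x) A ψ) := by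
  funext ζ
  rw [t4_res]
  unfold op1
  simp only [t4_res, t4_update hι, t4_apply hι]

/-- weighted sums as linear maps -/
noncomputable def tAL {Q : Type} [Fintype Q] [DecidableEq Q] (a : Fin 3) (w : Q → ℝ) :
    WF Q →ₗ[ℂ] WF Q where
  toFun := tA a w
  map_add' φ χ := by
    funext η
    simp only [tA, Finset.sum_apply, Pi.smul_apply, Pi.add_apply, smul_eq_mul, op1, mul_add,
      Finset.sum_add_distrib]
  map_smul' c φ := by
    funext η
    simp only [tA, Finset.sum_apply, Pi.smul_apply, smul_eq_mul, op1, RingHom.id_apply,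
      Finset.mul_sum]
    refine Finset.sum_congr rfl fun x _ => Finset.sum_congr rfl fun b _ => ?_
    ring

theorem tAL_apply {Q : Type} [Fintype Q] [DecidableEq Q] (a : Fin 3) (w : Q → ℝ) (φ : WF Q) :
    tAL a w φ = tA a w φ := rfl

theorem avS_cube {d J : ℕ} (a : Fin 3) (s : ℕ) (z : Site d J) (φ : WF (Site d J)) :
    avS a s z φ = (1 / (2 : ℂ) ^ (d * s)) • ∑ u : Fin d → Fin (2 ^ s), op1 (z + cu J u) (sgA a) φ := by
  unfold avS tA
  have h : ∀ x : Site d J, ((kiW s z x : ℝ) : ℂ) • op1 x (sgA a) φ =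
      (1 / (2 : ℂ) ^ (d * s)) • ∑ u : Fin d → Fin (2 ^ s),
        (if z + cu J u = x then op1 x (sgA a) φ else 0) := by
    intro x
    unfold kiW
    push_cast
    rw [mul_smul, Finset.sum_smul]
    congr 1
    refine Finset.sum_congr rfl fun u _ => ?_
    split_ifs <;> simp
  rw [Finset.sum_congr rfl fun x _ => h x, ← Finset.smul_sum, Finset.sum_comm]
  congr 1
  refine Finset.sum_congr rfl fun u _ => ?_
  rw [Finset.sum_ite_eq]
  simp

theorem res_smul_sum {Λ Q : Type} [Fintype Λ] [DecidableEq Λ] [Fintype Q] [DecidableEq Q]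
    {ι : Type} (S : Finset ι) (f : Q → Λ) (η : Λ → Bool) (c : ℂ) (F : ι → WF Λ) :
    (res f η (c • ∑ i ∈ S, F i) : WF Q) = c • ∑ i ∈ S, (res f η (F i) : WF Q) := by
  funext ζ
  rw [t4_res]
  simp only [Pi.smul_apply, Finset.sum_apply, t4_res]

theorem res_avS {d J j s : ℕ} (hj : j ≤ J) (a : Fin 3) (ψ : WF (Site d J)) (w : Site d J)
    (η : Site d J → Bool) (z : Site d j)
    (hz : ∀ (u : Fin d → Fin (2 ^ s)) (ν : Fin d), (z ν).val + (u ν : ℕ) < 2 ^ j) :
    avS a s z (res (emb w) η ψ) = res (emb w) η (avS a s (emb w z) ψ) := by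
  rw [avS_cube, avS_cube, res_smul_sum]
  congr 1
  refine Finset.sum_congr rfl fun u _ => ?_
  rw [res_op1 (ki_emb_inj hj w), ki_emb_add w z u (hz u)]

theorem res_avS0 {d J j : ℕ} (hj : j ≤ J) (a : Fin 3) (ψ : WF (Site d J)) (w : Site d J)
    (η : Site d J → Bool) :
    avS a j (0 : Site d j) (res (emb w) η ψ) = res (emb w) η (avS a j w ψ) := by
  rw [res_avS hj a ψ w η 0 (by intro u ν; simp), ki_emb_zero]

section transfer

variable {d J j : ℕ} {lam : (Site d J → Bool) → ℝ} {ψ : (Site d J → Bool) → WF (Site d J)}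
    {w : Site d J} {φ : (Site d j → Bool) → WF (Site d j)} {r : (Site d j → Bool) → ℝ}

theorem marg_avS (hj : j ≤ J) (hM : Marg lam ψ w φ r) (a : Fin 3) :
    ∑ x, r x * nsq (avS a j 0 (φ x)) = ∑ m, lam m * nsq (avS a j w (ψ m)) := by
  have h1 := hM.transfer (tAL a (kiW j (0 : Site d j)))
  simp only [tAL_apply] at h1
  have h0 : ∀ χ : WF (Site d j), tA a (kiW j (0 : Site d j)) χ = avS a j 0 χ := fun χ => rfl
  simp only [h0, res_avS0 hj] at h1
  have h2 : ∀ m, lam m * ∑ η : Site d J → Bool,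
      nsq (res (emb w) η (avS a j w (ψ m)) : WF (Site d j)) =
      2 ^ Fintype.card (Site d j) * (lam m * nsq (avS a j w (ψ m))) := by
    intro m
    rw [res_nsq (ki_emb_inj hj w)]
    ring
  rw [Finset.sum_congr rfl fun m _ => h2 m, ← Finset.mul_sum] at h1
  exact (mul_left_cancel₀ (by positivity) h1).symm

theorem marg_diffS (hj : j ≤ J) (hM : Marg lam ψ w φ r) (a : Fin 3) {s : ℕ} {z : Site d j}
    (hz : z ∈ inn j s) :
    ∑ x, r x * nsq (avS a s z (φ x) - avS a j 0 (φ x)) =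
      ∑ m, lam m * nsq (avS a s (emb w z) (ψ m) - avS a j w (ψ m)) := by
  have h1 := hM.transfer (tAL a (kiW s z) - tAL a (kiW j (0 : Site d j)))
  have e1 : ∀ χ : WF (Site d j), (tAL a (kiW s z) - tAL a (kiW j (0 : Site d j))) χ =
      avS a s z χ - avS a j 0 χ := by
    intro χ
    rw [LinearMap.sub_apply, tAL_apply, tAL_apply]
    rfl
  simp only [e1] at h1
  have h2 : ∀ m, lam m * ∑ η : Site d J → Bool,
      nsq (avS a s z (res (emb w) η (ψ m) : WF (Site d j)) -
        avS a j 0 (res (emb w) η (ψ m) : WF (Site d j))) =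
      2 ^ Fintype.card (Site d j) *
        (lam m * nsq (avS a s (emb w z) (ψ m) - avS a j w (ψ m))) := by
    intro m
    have e2 : ∀ η : Site d J → Bool,
        avS a s z (res (emb w) η (ψ m) : WF (Site d j)) -
        avS a j 0 (res (emb w) η (ψ m) : WF (Site d j)) =
        res (emb w) η (avS a s (emb w z) (ψ m) - avS a j w (ψ m)) := by
      intro η
      rw [res_avS0 hj, res_avS hj a (ψ m) w η z (fun u ν => ki_inn hz u ν)]
      rfl
    simp only [e2]
    rw [res_nsq (ki_emb_inj hj w)]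
    ring
  rw [Finset.sum_congr rfl fun m _ => h2 m, ← Finset.mul_sum] at h1
  exact (mul_left_cancel₀ (by positivity) h1).symm

/-- sum over the components -/
theorem sum_swap3 {T : Type} [Fintype T] (r : T → ℝ) (F : T → Fin 3 → ℝ) :
    ∑ x, r x * ∑ a, F x a = ∑ a, ∑ x, r x * F x a := by
  rw [Finset.sum_comm]
  exact Finset.sum_congr rfl fun x _ => Finset.mul_sum _ _ _

theorem marg_avH (hj : j ≤ J) (hM : Marg lam ψ w φ r) :
    ∑ x, r x * ∑ a, nsq (avS a j 0 (φ x)) = ∑ m, lam m * ∑ a, nsq (avS a j w (ψ m)) := by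
  rw [sum_swap3, sum_swap3]
  exact Finset.sum_congr rfl fun a _ => marg_avS hj hM a

theorem marg_diffH (hj : j ≤ J) (hM : Marg lam ψ w φ r) {s : ℕ} {z : Site d j}
    (hz : z ∈ inn j s) :
    ∑ x, r x * ∑ a, nsq (avS a s z (φ x) - avS a j 0 (φ x)) =
      ∑ m, lam m * ∑ a, nsq (avS a s (emb w z) (ψ m) - avS a j w (ψ m)) := by
  rw [sum_swap3, sum_swap3]
  exact Finset.sum_congr rfl fun a _ => marg_diffS hj hM a hz

end transfer

end Pool.Agent.TH268.HB
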