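import Pool.Agent.TH268.TB.Model
import Pool.Agent.H11R2.BEC3.Final

/-!
# The spin-1/2 quantum Heisenberg ferromagnet with long-range couplings on a torus

The sites and the periodisation of kernels are those of `Pool.Agent.H11R2.BEC3.Model` (namespace
`Pool.Agent.H11R2.LatticeBose`), the kernel `hopping` is that of `Pool.Agent.H11R2.BEC3.Final`.
-/

set_option autoImplicit false

open Finset BigOperators

namespace Pool.Agent.TH268.HB

section spins

variable {V : Type} [Fintype V] [DecidableEq V]

/-- First spin component at `x`: half the first Pauli matrix at the site `x`. -/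
noncomputable def spin1 (x : V) : Matrix (V → Bool) (V → Bool) ℂ :=
  fun s s' => if s' = Function.update s x (!(s x)) then 1 / 2 else 0

/-- Second spin component at `x`: half the second Pauli matrix. -/
noncomputable def spin2 (x : V) : Matrix (V → Bool) (V → Bool) ℂ :=
  fun s s' => if s' = Function.update s x (!(s x)) then
    (if s x then -Complex.I / 2 else Complex.I / 2) else 0

/-- Third spin component at `x`: half the third Pauli matrix. -/
noncomputable def spin3 (x : V) : Matrix (V → Bool) (V → Bool) ℂ :=
  Matrix.diagonal fun s => if s x then 1 / 2 else -1 / 2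

/-- The Hamiltonian of the spin-1/2 quantum Heisenberg ferromagnet,
`H = - ∑_{(x, y)} J x y (S_x · S_y)`, the sum over all ordered pairs. -/
noncomputable def heisenberg (J : V → V → ℝ) : Matrix (V → Bool) (V → Bool) ℂ :=
  -∑ x, ∑ y, (J x y : ℂ) • (spin1 x * spin1 y + spin2 x * spin2 y + spin3 x * spin3 y)

/-- The unnormalised Gibbs state `exp (-β H)`. -/
noncomputable def gibbs (J : V → V → ℝ) (β : ℝ) : Matrix (V → Bool) (V → Bool) ℂ :=
  NormedSpace.exp ((-β : ℂ) • heisenberg J)

end spins

open Pool.Agent.H11R2.LatticeBose in
/-- The couplings (rates) on the torus `(ℤ / 2^J)^d`: the periodisation of the kernel `hopping d σ`,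
without self-couplings. -/
noncomputable def rate (d : ℕ) (σ : ℝ) (J : ℕ) (x y : Torus d J) : ℝ :=
  if x = y then 0 else periodize (hopping d σ) J (y - x)

end Pool.Agent.TH268.HB
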