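import Pool.Agent.TH268.TB.LocC
import Pool.Agent.H11R2.BEC.Main2

/-!
# The six pictures of the Heisenberg interaction
-/

set_option autoImplicit false

open Finset BigOperators

namespace Pool.Agent.TH268.HB

open Pool.Agent.H11R2.BEC Pool.Agent.H11R2.BEC.T3d Pool.Agent.TH268.TB

section mats

/-- the spin flip -/
def fl : Matrix Bool Bool ℂ := fun i j => if i = j then 0 else 1

/-- the pictures -/
noncomputable def pk : Fin 6 → Matrix Bool Bool ℂ := ![1, uX, uY, fl, fl * uX, fl * uY]

theorem fl_fl : fl * fl = 1 := by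
  ext i j
  simp only [Matrix.mul_apply, fl, Fintype.sum_bool, Matrix.one_apply]
  cases i <;> cases j <;> simp

theorem fl_star : fl.conjTranspose = fl := by
  ext i j
  simp only [Matrix.conjTranspose_apply, fl]
  cases i <;> cases j <;> simp

theorem pk_hu (k : Fin 6) : (pk k).conjTranspose * pk k = 1 := by
  fin_cases k
  · simp [pk]
  · exact uX_hu
  · exact uY_hu
  · change fl.conjTranspose * fl = 1
    rw [fl_star, fl_fl]
  · change (fl * uX).conjTranspose * (fl * uX) = 1
    rw [Matrix.conjTranspose_mul, fl_star, Matrix.mul_assoc, ← Matrix.mul_assoc fl fl, fl_fl,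
      Matrix.one_mul, uX_hu]
  · change (fl * uY).conjTranspose * (fl * uY) = 1
    rw [Matrix.conjTranspose_mul, fl_star, Matrix.mul_assoc, ← Matrix.mul_assoc fl fl, fl_fl,
      Matrix.one_mul, uY_hu]

theorem pk_hu' (k : Fin 6) : pk k * (pk k).conjTranspose = 1 :=
  mul_eq_one_comm.1 (pk_hu k)

/-- the spin matrices (`true` is up) -/
noncomputable def sg1 : Matrix Bool Bool ℂ := fun i j => if i = j then 0 else 1 / 2

noncomputable def sg2 : Matrix Bool Bool ℂ := fun i j =>
  if i = true ∧ j = false then -Complex.I / 2 else if i = false ∧ j = true then Complex.I / 2 else 0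

noncomputable def sg3 : Matrix Bool Bool ℂ := fun i j =>
  if i = j then (if i = true then 1 / 2 else -1 / 2) else 0

noncomputable def sgA : Fin 3 → Matrix Bool Bool ℂ := ![sg1, sg2, sg3]

/-- the annihilation matrix in the picture `k` -/
noncomputable def Ak (k : Fin 6) : Matrix Bool Bool ℂ := (pk k).conjTranspose * lowM * pk k

/-- the coefficients of `Ak` -/
noncomputable def ck : Fin 6 → Fin 3 → ℂ :=
  ![![1, -Complex.I, 0], ![0, Complex.I, -1], ![-Complex.I, 0, -1],
    ![1, Complex.I, 0], ![0, -Complex.I, -1], ![Complex.I, 0, -1]]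

theorem Ak_eq0 : (1 : Matrix Bool Bool ℂ).conjTranspose * lowM * 1 =
    (1 : ℂ) • sg1 + (-Complex.I) • sg2 + (0 : ℂ) • sg3 := by
  have hI : Complex.I ^ 2 = -1 := Complex.I_sq
  rw [Matrix.conjTranspose_one, Matrix.one_mul, Matrix.mul_one]
  ext i j
  simp only [lowM, Matrix.add_apply, Matrix.smul_apply, sg1, sg2, sg3, smul_eq_mul]
  cases i <;> cases j <;> simp <;>
    first | linear_combination (1 / 2) * hI | linear_combination (-1 / 2) * hI

theorem Ak_eq1 : uX.conjTranspose * lowM * uX =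
    (0 : ℂ) • sg1 + (Complex.I) • sg2 + (-1 : ℂ) • sg3 := by
  have h := r2_sq
  have hI : Complex.I ^ 2 = -1 := Complex.I_sq
  ext i j
  simp only [Matrix.mul_apply, Matrix.conjTranspose_apply, Fintype.sum_bool, lowM,
      Matrix.add_apply, Matrix.smul_apply, sg1, sg2, sg3, smul_eq_mul, uX, star_mul',
      RCLike.star_def, r2_star]
  cases i <;> cases j <;> simp <;> first
    | linear_combination h | linear_combination -h | linear_combination h + (1/2)*hI
    | linear_combination h - (1/2)*hI | linear_combination -h + (1/2)*hI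
    | linear_combination -h - (1/2)*hI

theorem Ak_eq2 : uY.conjTranspose * lowM * uY =
    (-Complex.I : ℂ) • sg1 + (0 : ℂ) • sg2 + (-1 : ℂ) • sg3 := by
  have h := r2_sq
  have hI : Complex.I ^ 2 = -1 := Complex.I_sq
  ext i j
  simp only [Matrix.mul_apply, Matrix.conjTranspose_apply, Fintype.sum_bool, lowM,
      Matrix.add_apply, Matrix.smul_apply, sg1, sg2, sg3, smul_eq_mul, uY, star_mul',
      RCLike.star_def, r2_star]
  cases i <;> cases j <;> simp <;> first
    | linear_combination h | linear_combination -Complex.I*h | linear_combination Complex.I*h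
    | linear_combination -h + r2*r2*hI |  linear_combination h + r2*r2*hI

theorem Ak_eq3 : fl.conjTranspose * lowM * fl =
    (1 : ℂ) • sg1 + (Complex.I) • sg2 + (0 : ℂ) • sg3 := by
  have hI : Complex.I ^ 2 = -1 := Complex.I_sq
  ext i j
  simp only [Matrix.mul_apply, Matrix.conjTranspose_apply, Fintype.sum_bool, lowM,
      Matrix.add_apply, Matrix.smul_apply, sg1, sg2, sg3, smul_eq_mul, fl, RCLike.star_def]
  cases i <;> cases j <;> simp <;> first
    | linear_combination (1/2)*hI | linear_combination (-1/2)*hI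

theorem Ak_eq4 : (fl * uX).conjTranspose * lowM * (fl * uX) =
    (0 : ℂ) • sg1 + (-Complex.I) • sg2 + (-1 : ℂ) • sg3 := by
  have h := r2_sq
  have hI : Complex.I ^ 2 = -1 := Complex.I_sq
  ext i j
  simp only [Matrix.mul_apply, Matrix.conjTranspose_apply, Fintype.sum_bool, lowM,
      Matrix.add_apply, Matrix.smul_apply, sg1, sg2, sg3, smul_eq_mul, uX, fl]
  cases i <;> cases j <;> simp [r2_star] <;> first
    | linear_combination h | linear_combination -h | linear_combination h + (1/2)*hI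

theorem Ak_eq5 : (fl * uY).conjTranspose * lowM * (fl * uY) =
    (Complex.I : ℂ) • sg1 + (0 : ℂ) • sg2 + (-1 : ℂ) • sg3 := by
  have h := r2_sq
  have hI : Complex.I ^ 2 = -1 := Complex.I_sq
  ext i j
  simp only [Matrix.mul_apply, Matrix.conjTranspose_apply, Fintype.sum_bool, lowM,
      Matrix.add_apply, Matrix.smul_apply, sg1, sg2, sg3, smul_eq_mul, uY, fl]
  cases i <;> cases j <;> simp [r2_star] <;> first
    | linear_combination h | linear_combination -Complex.I*h | linear_combination Complex.I*h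
    | linear_combination -h + r2*r2*hI

theorem Ak_eq (k : Fin 6) : Ak k = ck k 0 • sg1 + ck k 1 • sg2 + ck k 2 • sg3 := by
  fin_cases k
  · exact Ak_eq0
  · exact Ak_eq1
  · exact Ak_eq2
  · exact Ak_eq3
  · exact Ak_eq4
  · exact Ak_eq5

/-- parallelogram -/
theorem par (z w : ℂ) : ‖z + w‖ ^ 2 + ‖z - w‖ ^ 2 = 2 * ‖z‖ ^ 2 + 2 * ‖w‖ ^ 2 := by
  have := parallelogram_law_with_norm ℂ z w
  nlinarith [this]

theorem sum_ck (z : Fin 3 → ℂ) : ∑ k : Fin 6, ‖∑ a, ck k a * z a‖ ^ 2 = 4 * ∑ a, ‖z a‖ ^ 2 := by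
  have e0 : ∑ a, ck 0 a * z a = z 0 - Complex.I * z 1 := by
    simp only [Fin.sum_univ_three]
    change 1 * z 0 + -Complex.I * z 1 + 0 * z 2 = _
    ring
  have e1 : ∑ a, ck 1 a * z a = Complex.I * z 1 - z 2 := by
    simp only [Fin.sum_univ_three]
    change 0 * z 0 + Complex.I * z 1 + (-1) * z 2 = _
    ring
  have e2 : ∑ a, ck 2 a * z a = - (Complex.I * z 0 + z 2) := by
    simp only [Fin.sum_univ_three]
    change -Complex.I * z 0 + 0 * z 1 + (-1) * z 2 = _
    ring
  have e3 : ∑ a, ck 3 a * z a = z 0 + Complex.I * z 1 := by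
    simp only [Fin.sum_univ_three]
    change 1 * z 0 + Complex.I * z 1 + 0 * z 2 = _
    ring
  have e4 : ∑ a, ck 4 a * z a = - (Complex.I * z 1 + z 2) := by
    simp only [Fin.sum_univ_three]
    change 0 * z 0 + -Complex.I * z 1 + (-1) * z 2 = _
    ring
  have e5 : ∑ a, ck 5 a * z a = Complex.I * z 0 - z 2 := by
    simp only [Fin.sum_univ_three]
    change Complex.I * z 0 + 0 * z 1 + (-1) * z 2 = _
    ring
  rw [Fin.sum_univ_six, e0, e1, e2, e3, e4, e5, norm_neg, norm_neg, Fin.sum_univ_three]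
  have p1 := par (z 0) (Complex.I * z 1)
  have p2 := par (Complex.I * z 1) (z 2)
  have p3 := par (Complex.I * z 0) (z 2)
  rw [norm_mul, Complex.norm_I, one_mul] at p1 p2 p3
  linarith

theorem sum_sgA (i j i' j' : Bool) : ∑ a : Fin 3, sgA a i i' * sgA a j j' =
    (if i' = j ∧ j' = i then 1 / 2 else 0) - (if i' = i ∧ j' = j then 1 / 4 else 0) := by
  have hI : Complex.I * Complex.I = -1 := Complex.I_mul_I
  rw [Fin.sum_univ_three]
  change sg1 i i' * sg1 j j' + sg2 i i' * sg2 j j' + sg3 i i' * sg3 j j' = _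
  unfold sg1 sg2 sg3
  cases i <;> cases j <;> cases i' <;> cases j' <;> norm_num <;> 
   first | done | linear_combination (1 / 4) * hI | linear_combination (-1 / 4) * hI

theorem sgA_star (a : Fin 3) : (sgA a).conjTranspose = sgA a := by
  fin_cases a
  · change sg1.conjTranspose = sg1
    ext i j
    rw [Matrix.conjTranspose_apply]
    unfold sg1
    cases i <;> cases j <;> norm_num
  · change sg2.conjTranspose = sg2
    ext i j
    rw [Matrix.conjTranspose_apply]
    unfold sg2
    cases i <;> cases j <;> norm_num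
  · change sg3.conjTranspose = sg3
    ext i j
    rw [Matrix.conjTranspose_apply]
    unfold sg3
    cases i <;> cases j <;> norm_num

theorem sum_sgA_sq : ∑ a : Fin 3, sgA a * sgA a = (3 / 4 : ℂ) • (1 : Matrix Bool Bool ℂ) := by
  have hI : Complex.I * Complex.I = -1 := Complex.I_mul_I
  rw [Fin.sum_univ_three]
  change sg1 * sg1 + sg2 * sg2 + sg3 * sg3 = _
  ext i j
  simp only [Matrix.add_apply, Matrix.mul_apply, Fintype.sum_bool, Matrix.smul_apply,
    Matrix.one_apply]
  unfold sg1 sg2 sg3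
  cases i <;> cases j <;> norm_num <;>
   first | done | linear_combination (1 / 4) * hI | linear_combination (-1 / 4) * hI

end mats

section ops

variable {Q : Type} [Fintype Q] [DecidableEq Q]

/-- the vector in the picture `k` -/
noncomputable def RR (k : Fin 6) (φ : WF Q) : WF Q := pt (pk k) φ

theorem nsq_RR (k : Fin 6) (φ : WF Q) : nsq (RR k φ) = nsq φ := pt_nsq _ (pk_hu k) φ

theorem ip_RR (k : Fin 6) (φ χ : WF Q) : ip (RR k φ) (RR k χ) = ip φ χ := pt_ip _ (pk_hu k) φ χ

theorem low_RR (k : Fin 6) (x : Q) (φ : WF Q) : low x (RR k φ) = RR k (op1 x (Ak k) φ) := by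
  rw [low_eq]
  unfold RR
  refine (pt_op1 (pk k) (Ak k) lowM ?_ x φ).symm
  rw [Ak, ← Matrix.mul_assoc, ← Matrix.mul_assoc, pk_hu', Matrix.one_mul]

theorem RR_sum {ι : Type} (S : Finset ι) (k : Fin 6) (F : ι → WF Q) :
    RR k (∑ i ∈ S, F i) = ∑ i ∈ S, RR k (F i) := pt_sum S _ F

theorem RR_smul (k : Fin 6) (s : ℂ) (φ : WF Q) : RR k (s • φ) = s • RR k φ := pt_smul _ s φ

theorem RR_sub (k : Fin 6) (φ χ : WF Q) : RR k (φ - χ) = RR k φ - RR k χ := pt_sub _ φ χ

theorem op1_Ak (k : Fin 6) (x : Q) (φ : WF Q) :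
    op1 x (Ak k) φ = ∑ a : Fin 3, ck k a • op1 x (sgA a) φ := by
  rw [Ak_eq, Fin.sum_univ_three, op1_add_mat, op1_add_mat, op1_smul_mat, op1_smul_mat,
    op1_smul_mat]
  rfl

theorem sum_nsq_ck (F : Fin 3 → WF Q) :
    ∑ k : Fin 6, nsq (∑ a, ck k a • F a) = 4 * ∑ a, nsq (F a) := by
  unfold nsq
  rw [Finset.sum_comm]
  have h : ∀ η : Q → Bool, ∑ k : Fin 6, ‖(∑ a, ck k a • F a) η‖ ^ 2 = 4 * ∑ a, ‖F a η‖ ^ 2 := by
    intro η
    rw [← sum_ck]
    refine Finset.sum_congr rfl fun k _ => ?_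
    simp only [Finset.sum_apply, Pi.smul_apply, smul_eq_mul]
  rw [Finset.sum_congr rfl fun η _ => h η, ← Finset.mul_sum, Finset.sum_comm]

/-- the weighted sum of a component of the spin -/
noncomputable def tA (a : Fin 3) (w : Q → ℝ) (φ : WF Q) : WF Q := ∑ x, (w x : ℂ) • op1 x (sgA a) φ

theorem lowU_RR (k : Fin 6) (w : Q → ℝ) (φ : WF Q) :
    lowU w (RR k φ) = RR k (∑ a, ck k a • tA a w φ) := by
  have h1 : lowU w (RR k φ) = ∑ x, (w x : ℂ) • RR k (op1 x (Ak k) φ) := by
    funext η
    simp only [lowU, low_RR, Finset.sum_apply, Pi.smul_apply, smul_eq_mul]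
  rw [h1, Finset.sum_congr rfl fun x _ => (RR_smul k (w x : ℂ) (op1 x (Ak k) φ)).symm, ← RR_sum]
  congr 1
  unfold tA
  simp only [op1_Ak, Finset.smul_sum]
  rw [Finset.sum_comm]
  refine Finset.sum_congr rfl fun a _ => Finset.sum_congr rfl fun x _ => ?_
  rw [smul_comm]

/-- the pictures and the variance -/
theorem sum_lowU_RR (w : Q → ℝ) (c : Fin 3 → ℂ) (φ : WF Q) :
    ∑ k : Fin 6, nsq (fun η => lowU w (RR k φ) η - (∑ a, ck k a * c a) * RR k φ η) =
      4 * ∑ a, nsq (tA a w φ - c a • φ) := by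
  rw [← sum_nsq_ck]
  refine Finset.sum_congr rfl fun k _ => ?_
  rw [← nsq_RR k (∑ a, ck k a • (tA a w φ - c a • φ))]
  congr 1
  have h1 : ∑ a, ck k a • (tA a w φ - c a • φ) =
      (∑ a, ck k a • tA a w φ) - (∑ a, ck k a * c a) • φ := by
    simp only [smul_sub, Finset.sum_sub_distrib, Finset.sum_smul, smul_smul]
  rw [h1, RR_sub, ← lowU_RR, RR_smul]
  rfl

theorem sum_lowU_RR0 (w : Q → ℝ) (φ : WF Q) :
    ∑ k : Fin 6, nsq (lowU w (RR k φ)) = 4 * ∑ a, nsq (tA a w φ) := by
  have h := sum_lowU_RR w (fun _ => 0) φ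
  simpa using h

/-- the exchange of the spins at two sites -/
def sw (x y : Q) (φ : WF Q) : WF Q := fun η => φ (fun z => η (Equiv.swap x y z))

/-- adjoint of one-site operators -/
theorem op1_adj (x : Q) (A : Matrix Bool Bool ℂ) (φ χ : WF Q) :
    ip (op1 x A φ) χ = ip φ (op1 x A.conjTranspose χ) := by
  have hF : ∀ (U : Q → Matrix Bool Bool ℂ) (φ χ : WF Q),
      ip (t3a_ptF U φ) χ = ip φ (t3a_ptF (fun x => (U x).conjTranspose) χ) := by
    intro U φ χ
    unfold ip t3a_ptF
    simp_rw [map_sum, map_mul, map_prod, Finset.sum_mul, Finset.mul_sum]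
    rw [Finset.sum_comm]
    refine Finset.sum_congr rfl fun ζ _ => Finset.sum_congr rfl fun η _ => ?_
    simp only [Matrix.conjTranspose_apply, RCLike.star_def]
    ring
  rw [t3a_op1_eq, t3a_op1_eq, hF]
  congr 2
  funext z
  by_cases hz : z = x
  · subst hz; simp
  · simp [Function.update_of_ne hz]

/-- `∑ S^a_x S^a_y` -/
noncomputable def gH (φ : WF Q) (x y : Q) : ℝ :=
  ∑ a : Fin 3, (ip (op1 x (sgA a) φ) (op1 y (sgA a) φ)).re

theorem ip_add_right (φ χ ξ : WF Q) : ip φ (χ + ξ) = ip φ χ + ip φ ξ := by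
  unfold ip
  rw [← Finset.sum_add_distrib]
  refine Finset.sum_congr rfl fun η _ => ?_
  rw [Pi.add_apply, mul_add]

theorem ip_smul_right (s : ℂ) (φ χ : WF Q) : ip φ (s • χ) = s * ip φ χ := by
  unfold ip
  rw [Finset.mul_sum]
  refine Finset.sum_congr rfl fun η _ => ?_
  rw [Pi.smul_apply, smul_eq_mul]; ring

theorem ip_sum_right {ι : Type} (S : Finset ι) (φ : WF Q) (F : ι → WF Q) :
    ip φ (∑ i ∈ S, F i) = ∑ i ∈ S, ip φ (F i) := by
  unfold ip
  rw [Finset.sum_comm]
  refine Finset.sum_congr rfl fun η _ => ?_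
  rw [Finset.sum_apply, Finset.mul_sum]

theorem gH_off (φ : WF Q) (x y : Q) (hxy : x ≠ y) :
    gH φ x y = 1 / 2 * (ip φ (sw x y φ)).re - 1 / 4 * nsq φ := by
  have h1 : ∀ a : Fin 3, ip (op1 x (sgA a) φ) (op1 y (sgA a) φ) =
      ip φ (op1 x (sgA a) (op1 y (sgA a) φ)) := by
    intro a
    rw [op1_adj, sgA_star]
  have h2 : ∑ a : Fin 3, op1 x (sgA a) (op1 y (sgA a) φ) =
      (1 / 2 : ℂ) • sw x y φ + (-1 / 4 : ℂ) • φ := by
    funext η
    simp only [Finset.sum_apply, Pi.add_apply, Pi.smul_apply, smul_eq_mul]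
    have h3 : ∀ a : Fin 3, op1 x (sgA a) (op1 y (sgA a) φ) η =
        ∑ b, ∑ b', sgA a (η x) b * sgA a (η y) b' *
          φ (Function.update (Function.update η x b) y b') := by
      intro a
      unfold op1
      refine Finset.sum_congr rfl fun b _ => ?_
      rw [Finset.mul_sum]
      refine Finset.sum_congr rfl fun b' _ => ?_
      rw [Function.update_of_ne (Ne.symm hxy)]
      ring
    rw [Finset.sum_congr rfl fun a _ => h3 a, Finset.sum_comm]
    have h4 : ∀ b : Bool, ∑ a : Fin 3, ∑ b', sgA a (η x) b * sgA a (η y) b' *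
          φ (Function.update (Function.update η x b) y b') =
        ∑ b', ((if b = η y ∧ b' = η x then 1 / 2 else 0) - (if b = η x ∧ b' = η y then 1 / 4 else 0))
          * φ (Function.update (Function.update η x b) y b') := by
      intro b
      rw [Finset.sum_comm]
      refine Finset.sum_congr rfl fun b' _ => ?_
      rw [← Finset.sum_mul, sum_sgA]
    rw [Finset.sum_congr rfl fun b _ => h4 b]
    have h5 : (fun z => η (Equiv.swap x y z)) = Function.update (Function.update η x (η y)) y (η x) := by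
      funext z
      by_cases hzy : z = y
      · subst hzy; simp
      · rw [Function.update_of_ne hzy]
        by_cases hzx : z = x
        · subst hzx; simp
        · rw [Function.update_of_ne hzx, Equiv.swap_apply_of_ne_of_ne hzx hzy]
    have h6 : Function.update (Function.update η x (η x)) y (η y) = η := by simp
    have h7 : sw x y φ η = φ (Function.update (Function.update η x (η y)) y (η x)) := by
      unfold sw; rw [h5]
    rw [h7]
    rw [show φ η = φ (Function.update (Function.update η x (η x)) y (η y)) by rw [h6]]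
    simp only [Fintype.sum_bool]
    cases η x <;> cases η y <;> simp <;> ring
  unfold gH
  rw [Finset.sum_congr rfl fun a _ => congrArg Complex.re (h1 a), ← Complex.re_sum,
    ← ip_sum_right, h2, ip_add_right, ip_smul_right, ip_smul_right, Complex.add_re, t3a_nsq]
  have e1 : ((1 / 2 : ℂ) * ip φ (sw x y φ)).re = 1 / 2 * (ip φ (sw x y φ)).re := by
    have : (1 / 2 : ℂ) = ((1 / 2 : ℝ) : ℂ) := by push_cast; ring
    rw [this, Complex.re_ofReal_mul]
  have e2 : ((-1 / 4 : ℂ) * ip φ φ).re = -1 / 4 * (ip φ φ).re := by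
    have : (-1 / 4 : ℂ) = ((-1 / 4 : ℝ) : ℂ) := by push_cast; ring
    rw [this, Complex.re_ofReal_mul]
  rw [e1, e2]
  ring

theorem gH_diag (φ : WF Q) (x : Q) : gH φ x x = 3 / 4 * nsq φ := by
  have h1 : ∀ a : Fin 3, ip (op1 x (sgA a) φ) (op1 x (sgA a) φ) =
      ip φ (op1 x (sgA a * sgA a) φ) := by
    intro a
    rw [op1_adj, sgA_star, t3a_op1_eq, t3a_op1_eq, t3a_op1_eq, t3a_ptF_ptF]
    congr 2
    funext z
    by_cases hz : z = x
    · subst hz; simp
    · simp [Function.update_of_ne hz]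
  have h2 : ∑ a : Fin 3, op1 x (sgA a * sgA a) φ = (3 / 4 : ℂ) • φ := by
    have h3 : ∑ a : Fin 3, op1 x (sgA a * sgA a) φ = op1 x (∑ a : Fin 3, sgA a * sgA a) φ := by
      rw [Fin.sum_univ_three, Fin.sum_univ_three, op1_add_mat, op1_add_mat]
    rw [h3, sum_sgA_sq, op1_smul_mat]
    congr 1
    rw [t3a_op1_eq]
    have : (Function.update (fun _ => (1 : Matrix Bool Bool ℂ)) x 1 : Q → Matrix Bool Bool ℂ) =
        fun _ => 1 := by
      funext z
      by_cases hz : z = x
      · subst hz; simp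
      · simp [Function.update_of_ne hz]
    rw [this, ← t3a_pt_eq, pt_one]
  unfold gH
  rw [Finset.sum_congr rfl fun a _ => congrArg Complex.re (h1 a), ← Complex.re_sum,
    ← ip_sum_right, h2, ip_smul_right, t3a_nsq]
  have : (3 / 4 : ℂ) = ((3 / 4 : ℝ) : ℂ) := by push_cast; ring
  rw [this, Complex.re_ofReal_mul]

theorem quadA (w : Q → ℝ) (φ : WF Q) :
    ∑ a, nsq (tA a w φ) = ∑ x, ∑ y, w x * w y * gH φ x y := by
  have h1 : ∀ a : Fin 3, nsq (tA a w φ) = ∑ x, ∑ y, w x * w y *
      (ip (op1 x (sgA a) φ) (op1 y (sgA a) φ)).re := by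
    intro a
    rw [t3a_nsq]
    unfold tA
    rw [ip_sum_right]
    have h2 : ∀ y, ip (∑ x, (w x : ℂ) • op1 x (sgA a) φ) ((w y : ℂ) • op1 y (sgA a) φ) =
        ∑ x, ((w x * w y : ℝ) : ℂ) * ip (op1 x (sgA a) φ) (op1 y (sgA a) φ) := by
      intro y
      rw [ip_smul_right]
      unfold ip
      rw [Finset.mul_sum]
      simp only [Finset.sum_apply, map_sum, Pi.smul_apply, smul_eq_mul, map_mul, Complex.conj_ofReal,
        Finset.sum_mul, Finset.mul_sum]
      rw [Finset.sum_comm]
      refine Finset.sum_congr rfl fun x _ => Finset.sum_congr rfl fun η _ => ?_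
      push_cast
      ring
    rw [Finset.sum_congr rfl fun y _ => h2 y, Finset.sum_comm, Complex.re_sum]
    refine Finset.sum_congr rfl fun x _ => ?_
    rw [Complex.re_sum]
    refine Finset.sum_congr rfl fun y _ => ?_
    rw [Complex.re_ofReal_mul]
  rw [Finset.sum_congr rfl fun a _ => h1 a, Finset.sum_comm]
  refine Finset.sum_congr rfl fun x _ => ?_
  rw [Finset.sum_comm]
  refine Finset.sum_congr rfl fun y _ => ?_
  unfold gH
  rw [Finset.mul_sum]

end ops

end Pool.Agent.TH268.HB
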