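import Pool.Agent.TH268.HB.Defs
import Pool.Agent.TH268.TB.Step1

/-!
# The trial states
-/

set_option autoImplicit false

open Finset BigOperators

namespace Pool.Agent.TH268.HB

open Pool.Agent.H11R2.BEC Pool.Agent.H11R2.BEC.T2c Pool.Agent.TH268.TB

/-- product operators and products over tiles -/
theorem pt_prodV {Λ I Q : Type} [Fintype Λ] [DecidableEq Λ] [Fintype I] [DecidableEq I] [Fintype Q]
    [DecidableEq Q] (e : Λ ≃ I × Q) {κ : Type} (u : Matrix Bool Bool ℂ) (χ : I → κ → WF Q)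
    (K : I → κ) : pt u (prodV e χ K) = prodV e (fun i k => pt u (χ i k)) K := by
  funext η
  unfold pt prodV
  rw [← Equiv.sum_comp (h873cfg e).symm]
  have h1 : ∀ ξ : I → Q → Bool, (∏ x, u (η x) ((h873cfg e).symm ξ x)) *
      (∏ i, χ i (K i) (h873tile e ((h873cfg e).symm ξ) i)) =
      ∏ i, ((∏ y, u (h873tile e η i y) (ξ i y)) * χ i (K i) (ξ i)) := by
    intro ξ
    rw [Finset.prod_mul_distrib]
    congr 1
    · rw [← Equiv.prod_comp e.symm, Fintype.prod_prod_type]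
      refine Finset.prod_congr rfl fun i _ => Finset.prod_congr rfl fun y _ => ?_
      have h2 : (h873cfg e).symm ξ (e.symm (i, y)) = ξ i y := by
        have h3 : h873cfg e ((h873cfg e).symm ξ) = ξ := Equiv.apply_symm_apply _ _
        exact congrFun (congrFun h3 i) y
      rw [h2]
      rfl
    · refine Finset.prod_congr rfl fun i _ => ?_
      have h3 : h873cfg e ((h873cfg e).symm ξ) = ξ := Equiv.apply_symm_apply _ _
      have h4 : h873tile e ((h873cfg e).symm ξ) i = ξ i := congrFun h3 i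
      rw [h4]
  rw [Finset.sum_congr rfl fun ξ _ => h1 ξ]
  have h5 := Finset.prod_univ_sum (fun _ : I => (univ : Finset (Q → Bool)))
    (fun i ζ => (∏ y, u (h873tile e η i y) (ζ y)) * χ i (K i) ζ)
  rw [Fintype.piFinset_univ] at h5
  exact h5.symm

/-- the energy of the trial states -/
theorem trial_energy {d J j : ℕ} (hj : j ≤ J) {q μ : ℝ} (hq0 : 0 ≤ q) (hq1 : q ≤ 1)
    (e : Site d J ≃ (Fin d → Fin (2 ^ (J - j))) × Site d j)
    (h1 : ∀ x : Site d J, (e x).2 = red j x)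
    (h2 : ∀ (i : Fin d → Fin (2 ^ (J - j))) (z : Site d j) (s : ℕ) (u : Fin d → Fin (2 ^ s)),
        (∀ ν, (z ν).val + (u ν : ℕ) < 2 ^ j) →
          e.symm (i, z) + cu J u = e.symm (i, z + cu j u))
    (χ : (Site d j → Bool) → WF (Site d j)) (r : (Site d j → Bool) → ℝ) (hr : ∀ k, 0 ≤ r k)
    (P : ℝ) (hP : ∑ k, r k * nsq (χ k) = P) (hP0 : 0 < P) (c : ℂ) {θ : ℝ} (hθ : 0 < θ) :
    ∑ K : (Fin d → Fin (2 ^ (J - j))) → (Site d j → Bool), (∏ i, (r (K i) / P)) *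
      en q 0 μ (prodV e (fun _ => χ) K) ≤ 1 / P * ∑ k, r k * rhs q μ θ J c (χ k) := by
  classical
  let e' : Site d J ⊕ ((Fin d → Fin (2 ^ (J - j))) × Site d j) ≃
      (Fin d → Fin (2 ^ (J - j))) × (Site d j ⊕ Site d j) :=
    (Equiv.sumCongr e (Equiv.refl _)).trans (Equiv.prodSumDistrib _ _ _).symm
  have H : ∀ x, e' (Sum.inl x) = ((e x).1, Sum.inl (e x).2) := fun x => rfl
  let Φ : WF (Site d j ⊕ Site d j) := fun ω =>
    ((Real.sqrt (r (fun y => ω (Sum.inr y)) / P) : ℝ) : ℂ) *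
      χ (fun y => ω (Sum.inr y)) (fun y => ω (Sum.inl y))
  have hslice : ∀ ξ : Site d j → Bool, slice ξ Φ =
      fun η => ((Real.sqrt (r ξ / P) : ℝ) : ℂ) * χ ξ η := fun ξ => rfl
  have hnorm : ∀ x : ℝ, 0 ≤ x → ‖((Real.sqrt x : ℝ) : ℂ)‖ ^ 2 = x := by
    intro x hx
    rw [Complex.norm_real, Real.norm_eq_abs, sq_abs, Real.sq_sqrt hx]
  have hrP : ∀ ξ, 0 ≤ r ξ / P := fun ξ => div_nonneg (hr ξ) hP0.le
  have hΦ : nsq Φ = 1 := by
    rw [slice_nsq]
    have : ∀ ξ : Site d j → Bool, nsq (slice ξ Φ) = r ξ * nsq (χ ξ) / P := by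
      intro ξ
      rw [hslice, nsq_smul, hnorm _ (hrP ξ)]; ring
    rw [Finset.sum_congr rfl fun ξ _ => this ξ, ← Finset.sum_div, hP, div_self hP0.ne']
  set Ψ := prodSt e' Φ with hΨ
  let K : ((Fin d → Fin (2 ^ (J - j))) × Site d j → Bool) →
    ((Fin d → Fin (2 ^ (J - j))) → (Site d j → Bool)) := fun ξ i y => ξ (i, y)
  have hsl : ∀ ξ, slice ξ Ψ = fun η => ((∏ i, Real.sqrt (r (K ξ i) / P) : ℝ) : ℂ) *
      prodV e (fun _ => χ) (K ξ) η := by
    intro ξ
    funext η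
    change prodSt e' Φ (Sum.elim η ξ) = _
    unfold prodSt prodV
    rw [Complex.ofReal_prod, ← Finset.prod_mul_distrib]
    rfl
  let w : ((Fin d → Fin (2 ^ (J - j))) → (Site d j → Bool)) → ℝ := fun k => ∏ i, (r (k i) / P)
  have hwn : ∀ ξ, ‖((∏ i, Real.sqrt (r (K ξ i) / P) : ℝ) : ℂ)‖ ^ 2 = w (K ξ) := by
    intro ξ
    rw [Complex.norm_real, Real.norm_eq_abs, sq_abs, ← Finset.prod_pow]
    exact Finset.prod_congr rfl fun i _ => Real.sq_sqrt (hrP _)
  have hsumK : ∀ F : ((Fin d → Fin (2 ^ (J - j))) → (Site d j → Bool)) → ℝ,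
      ∑ ξ : (Fin d → Fin (2 ^ (J - j))) × Site d j → Bool, F (K ξ) = ∑ k, F k := fun F =>
    Equiv.sum_comp (Equiv.curry (Fin d → Fin (2 ^ (J - j))) (Site d j) Bool) F
  have e1 : ∑ k, w k * en q 0 μ (prodV e (fun _ => χ) k) = ∑ ξ, en q 0 μ (slice ξ Ψ) := by
    rw [← hsumK]
    refine Finset.sum_congr rfl fun ξ _ => ?_
    rw [hsl, en_smul, hwn]
  have e2 := trialI_one e h1 h2 Sum.inl Sum.inl e' H Φ (q := q) (μ := μ) hq0 hq1 hΦ c hθ hj
  rw [rhs_slice, en_slice] at e2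
  have e3 : ∑ ξ : Site d j → Bool, rhs q μ θ J c (slice ξ Φ) =
      1 / P * ∑ k, r k * rhs q μ θ J c (χ k) := by
    rw [Finset.mul_sum]
    refine Finset.sum_congr rfl fun ξ _ => ?_
    rw [hslice, rhs_smul, hnorm _ (hrP ξ)]
    ring
  change ∑ k, w k * en q 0 μ (prodV e (fun _ => χ) k) ≤ _
  rw [e1, ← e3]
  exact e2

/-- the right side of the trial inequality, all the pictures -/
noncomputable def rhsH {d j : ℕ} (q θ : ℝ) (J : ℕ) (c : Fin 3 → ℂ) (χ : WF (Site d j)) : ℝ :=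
  1 / 4 * ∑ k : Fin 6, rhs q 0 θ J (∑ a, ck k a * c a) (RR k χ)

theorem trialTH {d J j : ℕ} (hj : j ≤ J) {q β : ℝ} (hq0 : 0 ≤ q) (hq1 : q ≤ 1) (hβ : 0 < β)
    {ψ : (Site d J → Bool) → WF (Site d J)} {E : (Site d J → Bool) → ℝ} (hψ : ONB ψ)
    (hE : ∀ χ : WF (Site d J), (2 : ℝ) ^ (d * J) * enH q χ = ∑ m, E m * ‖gip (ψ m) χ‖ ^ 2)
    (χ : (Site d j → Bool) → WF (Site d j)) (r : (Site d j → Bool) → ℝ) (hr : ∀ k, 0 ≤ r k)
    (P : ℝ) (hP : ∑ k, r k * nsq (χ k) = P) (hP0 : 0 < P)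
    (hB : ∀ v, ∑ k, ‖ip (χ k) v‖ ^ 2 ≤ nsq v) (c : Fin 3 → ℂ) {θ : ℝ} (hθ : 0 < θ) :
    - (β * ∑ k, r k * rhsH q θ J c (χ k)) - (1 / (2 : ℝ) ^ (d * j)) *
        (∑ k, r k * nsq (χ k) * Real.log (r k) - P * Real.log P) ≤
      P * (Real.log (∑ m, Real.exp (-(β * E m))) / 2 ^ (d * J)) := by
  classical
  obtain ⟨e, h1, h2, h3⟩ := tile_exists (d := d) hj
  set V : ℝ := (2 : ℝ) ^ (d * J) with hV
  have hV0 : 0 < V := by positivity
  have hrP : ∀ ξ, 0 ≤ r ξ / P := fun ξ => div_nonneg (hr ξ) hP0.le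
  obtain ⟨w, hw⟩ : ∃ w : ((Fin d → Fin (2 ^ (J - j))) → (Site d j → Bool)) → ℝ,
    w = fun k => ∏ i, (r (k i) / P) := ⟨_, rfl⟩
  have hw0 : ∀ k, 0 ≤ w k := fun k => by rw [hw]; exact Finset.prod_nonneg fun i _ => hrP _
  have hn : ∀ k, gns (prodV e (fun _ => χ) k) = ∏ i, nsq (χ (k i)) := fun k =>
      prodV_nsq e (fun _ => χ) k
  have hone : ∑ x, r x / P * nsq (χ x) = 1 := by
    have : ∀ x, r x / P * nsq (χ x) = r x * nsq (χ x) / P := fun x => by ring
    rw [Finset.sum_congr rfl fun x _ => this x, ← Finset.sum_div, hP, div_self hP0.ne']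
  have hN : ∑ k, w k * gns (prodV e (fun _ => χ) k) = 1 := by
    rw [hw]
    have h4 : ∀ k : (Fin d → Fin (2 ^ (J - j))) → (Site d j → Bool),
        (∏ i, (r (k i) / P)) * gns (prodV e (fun _ => χ) k) =
        ∏ i, (fun x => r x / P * nsq (χ x)) (k i) := by
      intro k
      rw [hn, ← Finset.prod_mul_distrib]
    rw [Finset.sum_congr rfl fun k _ => h4 k]
    exact sum_prod_one (I := Fin d → Fin (2 ^ (J - j))) (fun x => r x / P * nsq (χ x)) hone
  have hbes : ∀ v : WF (Site d J), ∑ k, ‖gip (prodV e (fun _ => χ) k) v‖ ^ 2 ≤ gns v :=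
    fun v => prodV_bessel e (fun _ => χ) (fun _ => hB) v
  have hG := gibbs_lower hψ E β (prodV e (fun _ => χ)) w hw0 hN hbes
  -- the energy
  have hen : ∑ k, w k * ∑ m, E m * ‖gip (ψ m) (prodV e (fun _ => χ) k)‖ ^ 2 ≤
      V * (1 / P * ∑ k, r k * rhsH q θ J c (χ k)) := by
    have e1 : ∑ k, w k * ∑ m, E m * ‖gip (ψ m) (prodV e (fun _ => χ) k)‖ ^ 2 =
        V * (1 / 4 * ∑ κ : Fin 6, ∑ k, w k * en q 0 0 (prodV e (fun _ x => RR κ (χ x)) k)) := by
      rw [Finset.sum_comm, Finset.mul_sum, Finset.mul_sum]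
      refine Finset.sum_congr rfl fun k _ => ?_
      rw [← hE]
      have t1 : enH q (prodV e (fun _ => χ) k) =
          1 / 4 * ∑ κ : Fin 6, en q 0 0 (prodV e (fun _ x => RR κ (χ x)) k) := by
        have t2 : ∀ κ : Fin 6, prodV e (fun _ x => RR κ (χ x)) k =
            RR κ (prodV e (fun _ => χ) k) := fun κ => (pt_prodV e (pk κ) (fun _ => χ) k).symm
        rw [Finset.sum_congr rfl fun κ _ => congrArg (en q 0 0) (t2 κ), enH_eq]
        ring
      rw [t1, ← Finset.mul_sum]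
      ring
    have e2 : ∀ κ : Fin 6, ∑ k, w k * en q 0 0 (prodV e (fun _ x => RR κ (χ x)) k) ≤
        1 / P * ∑ k, r k * rhs q 0 θ J (∑ a, ck κ a * c a) (RR κ (χ k)) := by
      intro κ
      rw [hw]
      exact trial_energy hj hq0 hq1 e h1 h2 (fun x => RR κ (χ x)) r hr P
        (by simp only [nsq_RR]; exact hP) hP0 _ hθ
    rw [e1]
    refine mul_le_mul_of_nonneg_left ?_ hV0.le
    have e3 := Finset.sum_le_sum (s := (univ : Finset (Fin 6))) fun κ _ => e2 κ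
    have e4 := mul_le_mul_of_nonneg_left e3 (show (0 : ℝ) ≤ 1 / 4 by norm_num)
    refine e4.trans (le_of_eq ?_)
    unfold rhsH
    rw [← Finset.mul_sum, Finset.sum_comm]
    have e5 : ∀ k, r k * (1 / 4 * ∑ κ : Fin 6, rhs q 0 θ J (∑ a, ck κ a * c a) (RR κ (χ k))) =
        1 / 4 * ∑ κ : Fin 6, r k * rhs q 0 θ J (∑ a, ck κ a * c a) (RR κ (χ k)) := by
      intro k
      rw [← Finset.mul_sum]; ring
    rw [Finset.sum_congr rfl fun k _ => e5 k, ← Finset.mul_sum]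
    ring
  -- the entropy
  have hent : ∑ k, w k * gns (prodV e (fun _ => χ) k) * Real.log (w k) =
      (V / 2 ^ (d * j)) * (1 / P * (∑ k, r k * nsq (χ k) * Real.log (r k) - P * Real.log P)) := by
    have e2 := log_prod_weights (I := Fin d → Fin (2 ^ (J - j))) (fun k => r k / P)
      (fun k => nsq (χ k)) hone
    simp only [hn, hw]
    rw [e2]
    have e3 : (Fintype.card (Fin d → Fin (2 ^ (J - j))) : ℝ) = V / 2 ^ (d * j) := by
      rw [Fintype.card_fun, Fintype.card_fin, Fintype.card_fin, eq_div_iff (by positivity)]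
      push_cast
      rw [hV, ← pow_mul, ← pow_add]
      congr 1
      have := Nat.sub_add_cancel hj
      calc (J - j) * d + d * j = d * ((J - j) + j) := by ring
        _ = d * J := by rw [this]
    rw [e3]
    congr 1
    rw [mul_sub, Finset.mul_sum, ← mul_assoc, one_div, inv_mul_cancel₀ hP0.ne', one_mul]
    have e4 : ∀ x, r x / P * nsq (χ x) * Real.log (r x / P) =
        P⁻¹ * (r x * nsq (χ x) * Real.log (r x)) - (r x * nsq (χ x)) * (P⁻¹ * Real.log P) := by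
      intro x
      by_cases hx : r x = 0
      · rw [hx]; simp
      · rw [Real.log_div hx hP0.ne']; ring
    rw [Finset.sum_congr rfl fun x _ => e4 x, Finset.sum_sub_distrib, ← Finset.sum_mul, hP,
      ← mul_assoc, mul_inv_cancel₀ hP0.ne', one_mul]
  rw [hent] at hG
  -- conclusion
  have hfin : - (β * (V * (1 / P * ∑ k, r k * rhsH q θ J c (χ k)))) -
      (V / 2 ^ (d * j)) * (1 / P * (∑ k, r k * nsq (χ k) * Real.log (r k) - P * Real.log P)) ≤
      Real.log (∑ m, Real.exp (-(β * E m))) := by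
    refine le_trans ?_ hG
    have := mul_le_mul_of_nonneg_left hen hβ.le
    linarith
  have hPV : 0 < P / V := by positivity
  have h5 := mul_le_mul_of_nonneg_left hfin hPV.le
  refine le_trans (le_of_eq ?_) (h5.trans (le_of_eq ?_))
  · field_simp
  · field_simp

end Pool.Agent.TH268.HB
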