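import Pool.Agent.TH268.HB.Loc3
import Pool.Agent.TH268.HB.MargH
import Pool.Agent.TH268.HB.TrialH

/-!
# The trial inequality for one cube
-/

set_option autoImplicit false

open Finset BigOperators

namespace Pool.Agent.TH268.HB

open Pool.Agent.H11R2.BEC Pool.Agent.H11R2.BEC.T2c Pool.Agent.TH268.TB

theorem avS_diff {d j : ℕ} (a : Fin 3) (s : ℕ) (z : Site d j) (s' : ℕ) (z' : Site d j)
    (χ : WF (Site d j)) :
    avS a s z χ - avS a s' z' χ = tA a (fun x => kiW s z x - kiW s' z' x) χ := by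
  unfold avS tA
  rw [← Finset.sum_sub_distrib]
  refine Finset.sum_congr rfl fun x _ => ?_
  rw [← sub_smul]
  push_cast
  rfl

theorem avS_top {d j : ℕ} (a : Fin 3) (χ : WF (Site d j)) :
    avS a j (0 : Site d j) χ = (1 / (2 : ℂ) ^ (d * j)) • tA a (fun _ => 1) χ := by
  rw [avS_cube]
  congr 1
  unfold tA
  simp only [zero_add, Complex.ofReal_one, one_smul]
  exact (ki_cu_bij d j).sum_comp (fun x => op1 x (sgA a) χ)

/-- quadratic forms are preserved by the localisation -/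
theorem stabH {Λ A : Type} [Fintype Λ] [DecidableEq Λ] [Fintype A] (L : A → WF Λ) (φ : WF Λ)
    (h : ∀ x y, ∑ α, gH (L α) x y = gH φ x y) (u : Λ → ℝ) :
    ∑ α, ∑ a, nsq (tA a u (L α)) = ∑ a, nsq (tA a u φ) := by
  simp only [quadA]
  rw [Finset.sum_comm]
  refine Finset.sum_congr rfl fun x _ => ?_
  rw [Finset.sum_comm]
  refine Finset.sum_congr rfl fun y _ => ?_
  rw [← Finset.mul_sum, h]

theorem rhsH_eq {d j : ℕ} (q θ : ℝ) (J : ℕ) (c : Fin 3 → ℂ) (χ : WF (Site d j)) :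
    rhsH q θ J c χ = - ∑ a, nsq (avS a j 0 χ) + ∑ a, nsq (avS a j 0 χ - c a • χ)
      - ∑ s ∈ range j, cf q J s * ((1 / (2 : ℝ) ^ (d * j)) * ∑ z ∈ inn j s,
          ((1 - θ) * ∑ a, nsq (avS a s z χ - avS a j 0 χ)
            - (∑ a, nsq (avS a j 0 χ - c a • χ)) / θ)) := by
  have h1 : ∑ k : Fin 6, nsq (fun η => av j 0 (RR k χ) η - (∑ a, ck k a * c a) * RR k χ η) =
      4 * ∑ a, nsq (avS a j 0 χ - c a • χ) := by
    have := sum_lowU_RR (kiW j (0 : Site d j)) c χ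
    simp only [← ki_av_lowU] at this
    exact this
  unfold rhsH rhs
  simp only [zero_mul, sub_zero]
  rw [Finset.sum_sub_distrib, Finset.sum_add_distrib, Finset.sum_neg_distrib, sum_av_RR, h1,
    Finset.sum_comm]
  have h2 : ∀ s : ℕ, ∑ k : Fin 6, cf q J s * ((1 / (2 : ℝ) ^ (d * j)) * ∑ z ∈ inn j s,
      ((1 - θ) * nsq (fun η => av s z (RR k χ) η - av j 0 (RR k χ) η) -
        nsq (fun η => av j 0 (RR k χ) η - (∑ a, ck k a * c a) * RR k χ η) / θ)) =
      4 * (cf q J s * ((1 / (2 : ℝ) ^ (d * j)) * ∑ z ∈ inn j s,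
          ((1 - θ) * ∑ a, nsq (avS a s z χ - avS a j 0 χ)
            - (∑ a, nsq (avS a j 0 χ - c a • χ)) / θ))) := by
    intro s
    rw [← Finset.mul_sum, ← Finset.mul_sum, Finset.sum_comm]
    have h3 : ∀ z : Site d j, ∑ k : Fin 6,
        ((1 - θ) * nsq (fun η => av s z (RR k χ) η - av j 0 (RR k χ) η) -
        nsq (fun η => av j 0 (RR k χ) η - (∑ a, ck k a * c a) * RR k χ η) / θ) =
        4 * ((1 - θ) * ∑ a, nsq (avS a s z χ - avS a j 0 χ)
            - (∑ a, nsq (avS a j 0 χ - c a • χ)) / θ) := by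
      intro z
      rw [Finset.sum_sub_distrib, ← Finset.mul_sum, ← Finset.sum_div, h1, sum_diff_RR]
      ring
    rw [Finset.sum_congr rfl fun z _ => h3 z, ← Finset.mul_sum]
    ring
  rw [Finset.sum_congr rfl fun s _ => h2 s, ← Finset.mul_sum]
  ring

/-- the bound after localisation -/
noncomputable def rhs2H {d j : ℕ} (q θ v : ℝ) (J : ℕ) (φ : WF (Site d j)) : ℝ :=
  - ∑ a, nsq (avS a j 0 φ) + v * nsq φ
      - ∑ s ∈ range j, cf q J s * ((1 / (2 : ℝ) ^ (d * j)) * ∑ z ∈ inn j s,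
          ((1 - θ) * ∑ a, nsq (avS a s z φ - avS a j 0 φ) - (v * nsq φ) / θ))

/-- the sum over the pieces of the localisation -/
theorem step1H {d J j : ℕ} {q : ℝ} (hq0 : 0 ≤ q) (hq1 : q ≤ 1)
    {θ : ℝ} (hθ : 0 < θ)
    {A : Type} [Fintype A] (L : A → WF (Site d j)) (c : A → Fin 3 → ℝ) (φ : WF (Site d j))
    (R v : ℝ) (hv : v = R / ((2 : ℝ) ^ (d * j)) ^ 2)
    (h2 : ∀ x y, ∑ α, gH (L α) x y = gH φ x y)
    (h4 : ∑ α, ∑ a, nsq (tA a (fun _ => 1) (L α) - ((c α a : ℝ) : ℂ) • L α) ≤ R * nsq φ) :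
    ∑ α, rhsH q θ J (fun a => ((c α a / (2 : ℝ) ^ (d * j) : ℝ) : ℂ)) (L α) ≤ rhs2H q θ v J φ := by
  set M : ℝ := (2 : ℝ) ^ (d * j) with hM
  have hM0 : 0 < M := by positivity
  have hT2 : ∑ α, ∑ a, nsq (avS a j 0 (L α) - ((c α a / M : ℝ) : ℂ) • L α) ≤ v * nsq φ := by
    have e : ∀ α a, nsq (avS a j 0 (L α) - ((c α a / M : ℝ) : ℂ) • L α) =
        (1 / M ^ 2) * nsq (tA a (fun _ => 1) (L α) - ((c α a : ℝ) : ℂ) • L α) := by
      intro α a
      have e1 : avS a j 0 (L α) - ((c α a / M : ℝ) : ℂ) • L α =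
          ((1 / M : ℝ) : ℂ) • (tA a (fun _ => 1) (L α) - ((c α a : ℝ) : ℂ) • L α) := by
        rw [avS_top, smul_sub, smul_smul, hM]
        congr 2
        · push_cast; rfl
        · push_cast; ring
      rw [e1, T3d.nsq_smul]
      congr 1
      rw [Complex.norm_real, Real.norm_eq_abs, sq_abs]
      ring
    simp only [e, ← Finset.mul_sum]
    calc 1 / M ^ 2 * ∑ α, ∑ a, nsq (tA a (fun _ => 1) (L α) - ((c α a : ℝ) : ℂ) • L α)
        ≤ 1 / M ^ 2 * (R * nsq φ) := mul_le_mul_of_nonneg_left h4 (by positivity)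
      _ = v * nsq φ := by rw [hv]; ring
  have hT1 : ∑ α, ∑ a, nsq (avS a j 0 (L α)) = ∑ a, nsq (avS a j 0 φ) :=
    stabH L φ h2 (kiW j (0 : Site d j))
  have hX : ∀ (s : ℕ) (z : Site d j), ∑ α, ∑ a, nsq (avS a s z (L α) - avS a j 0 (L α)) =
      ∑ a, nsq (avS a s z φ - avS a j 0 φ) := by
    intro s z
    simp only [avS_diff]
    exact stabH L φ h2 _
  simp only [rhsH_eq]
  unfold rhs2H
  simp only [← hM]
  rw [Finset.sum_sub_distrib, Finset.sum_add_distrib, Finset.sum_neg_distrib, hT1]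
  have hT3 : ∑ s ∈ range j, cf q J s * ((1 / M) * ∑ z ∈ inn j s,
          ((1 - θ) * ∑ a, nsq (avS a s z φ - avS a j 0 φ) - (v * nsq φ) / θ)) ≤
      ∑ α, ∑ s ∈ range j, cf q J s * ((1 / M) * ∑ z ∈ inn j s,
          ((1 - θ) * ∑ a, nsq (avS a s z (L α) - avS a j 0 (L α))
            - (∑ a, nsq (avS a j 0 (L α) - ((c α a / M : ℝ) : ℂ) • L α)) / θ)) := by
    rw [Finset.sum_comm]
    refine Finset.sum_le_sum fun s _ => ?_
    rw [← Finset.mul_sum]
    refine mul_le_mul_of_nonneg_left ?_ (ki_cf_nonneg hq0 hq1 J s)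
    rw [← Finset.mul_sum]
    refine mul_le_mul_of_nonneg_left ?_ (by positivity)
    rw [Finset.sum_comm]
    refine Finset.sum_le_sum fun z _ => ?_
    rw [Finset.sum_sub_distrib, ← Finset.mul_sum, ← Finset.sum_div, hX]
    have a2 := div_le_div_of_nonneg_right hT2 hθ.le
    linarith
  linarith

/-- the trial inequality for one cube -/
theorem step2H {d J j : ℕ} (hj : j ≤ J) {q β : ℝ} (hq0 : 0 ≤ q) (hq1 : q ≤ 1) (hβ : 0 < β)
    {ψ : (Site d J → Bool) → WF (Site d J)} {E : (Site d J → Bool) → ℝ} (hψ : ONB ψ)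
    (hE : ∀ χ : WF (Site d J), (2 : ℝ) ^ (d * J) * enH q χ = ∑ m, E m * ‖gip (ψ m) χ‖ ^ 2)
    (W : ℕ) (hW : 1 ≤ W) {θ : ℝ} (hθ : 0 < θ) (v : ℝ)
    (hv : v = (7 * (W : ℝ) ^ 2 + 6 * ((2 : ℝ) ^ (d * j)) ^ 2 / (W : ℝ) ^ 2) /
      ((2 : ℝ) ^ (d * j)) ^ 2)
    (φ : (Site d j → Bool) → WF (Site d j)) (r : (Site d j → Bool) → ℝ) (hφ : ONB φ)
    (hr : ∀ k, 0 ≤ r k) (hr1 : ∑ k, r k = 1) :
    - (β * ∑ k, r k * rhs2H q θ v J (φ k)) - (1 / (2 : ℝ) ^ (d * j)) *
        (∑ k, r k * Real.log (r k) + Real.log (((2 : ℝ) ^ (d * j) + 2 * W + 1) ^ 3)) ≤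
      Real.log (∑ m, Real.exp (-(β * E m))) / 2 ^ (d * J) := by
  classical
  obtain ⟨A, hA, L, c, hcard, hadj, hL⟩ := localize3 (Q := Site d j) W hW
  set M : ℝ := (2 : ℝ) ^ (d * j) with hM
  have hM0 : 0 < M := by positivity
  set p : ℝ := Real.log (∑ m, Real.exp (-(β * E m))) / 2 ^ (d * J) with hp
  set P : A → ℝ := fun α => ∑ k, r k * nsq (L α (φ k)) with hP
  have hP0 : ∀ α, 0 ≤ P α := fun α =>
    Finset.sum_nonneg fun k _ => mul_nonneg (hr k) (ki_nsq_nonneg _)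
  have hφ1 : ∀ k, nsq (φ k) = 1 := fun k => hφ.norm k
  have hP1 : ∑ α, P α = 1 := by
    simp only [hP]
    rw [Finset.sum_comm, ← hr1]
    refine Finset.sum_congr rfl fun k _ => ?_
    rw [← Finset.mul_sum, (hL (φ k)).1, hφ1, mul_one]
  have hbes : ∀ α, ∀ u : WF (Site d j), ∑ k, ‖ip (L α (φ k)) u‖ ^ 2 ≤ nsq u := by
    intro α u
    obtain ⟨L', h1, h2⟩ := hadj α
    simp only [h1]
    exact (hφ.pars (L' u)).le.trans (h2 u)
  have hrhs0 : ∀ (cc : Fin 3 → ℂ) (χ : WF (Site d j)), nsq χ = 0 → rhsH q θ J cc χ = 0 := by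
    intro cc χ h
    unfold rhsH
    have h0 : ∀ k : Fin 6, rhs q 0 θ J (∑ a, ck k a * cc a) (RR k χ) = 0 := by
      intro k
      have h5 : nsq (RR k χ) = 0 := by rw [nsq_RR]; exact h
      have h4 : RR k χ = fun η => (0 : ℂ) * (RR k χ) η := by
        rw [nsq_eq_zero h5]
        funext η; simp
      rw [h4, rhs_smul]
      simp
    simp [h0]
  have hT : ∀ α, - (β * ∑ k, r k * rhsH q θ J (fun a => ((c α a / M : ℝ) : ℂ)) (L α (φ k))) -
      (1 / M) * (∑ k, r k * nsq (L α (φ k)) * Real.log (r k) - P α * Real.log (P α)) ≤ P α * p := by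
    intro α
    rcases (hP0 α).eq_or_lt with h0 | h0
    · have h1 : ∀ k, r k = 0 ∨ nsq (L α (φ k)) = 0 := by
        intro k
        have h2 := (Finset.sum_eq_zero_iff_of_nonneg (fun k _ => mul_nonneg (hr k)
          (ki_nsq_nonneg (L α (φ k))))).1 h0.symm k (Finset.mem_univ k)
        exact mul_eq_zero.1 h2
      have h3 : ∀ k, r k * rhsH q θ J (fun a => ((c α a / M : ℝ) : ℂ)) (L α (φ k)) = 0 := by
        intro k
        rcases h1 k with h | h
        · rw [h, zero_mul]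
        · rw [hrhs0 _ _ h, mul_zero]
      have h5 : ∀ k, r k * nsq (L α (φ k)) * Real.log (r k) = 0 := by
        intro k
        rcases h1 k with h | h
        · rw [h]; simp
        · rw [h]; simp
      rw [Finset.sum_congr rfl fun k _ => h3 k, Finset.sum_congr rfl fun k _ => h5 k, ← h0]
      simp
    · exact trialTH hj hq0 hq1 hβ hψ hE (fun k => L α (φ k)) r hr (P α) rfl h0 (hbes α) _ hθ
  have hsum := Finset.sum_le_sum (s := (univ : Finset A)) fun α _ => hT α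
  rw [← Finset.sum_mul, hP1, one_mul] at hsum
  refine le_trans ?_ hsum
  rw [Finset.sum_sub_distrib, Finset.sum_neg_distrib, ← Finset.mul_sum, ← Finset.mul_sum,
    Finset.sum_sub_distrib]
  have e1 : ∑ α, ∑ k, r k * rhsH q θ J (fun a => ((c α a / M : ℝ) : ℂ)) (L α (φ k)) ≤
      ∑ k, r k * rhs2H q θ v J (φ k) := by
    rw [Finset.sum_comm]
    refine Finset.sum_le_sum fun k _ => ?_
    rw [← Finset.mul_sum]
    refine mul_le_mul_of_nonneg_left ?_ (hr k)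
    exact step1H hq0 hq1 hθ (fun α => L α (φ k)) c (φ k)
      (7 * (W : ℝ) ^ 2 + 6 * M ^ 2 / (W : ℝ) ^ 2) v hv
      (hL (φ k)).2.1
      (by have := (hL (φ k)).2.2; rw [ki_card_site, ← hM] at this; exact this)
  have e2 : ∑ α, ∑ k, r k * nsq (L α (φ k)) * Real.log (r k) = ∑ k, r k * Real.log (r k) := by
    rw [Finset.sum_comm]
    refine Finset.sum_congr rfl fun k _ => ?_
    rw [← Finset.sum_mul, ← Finset.mul_sum, (hL (φ k)).1, hφ1, mul_one]
  have e3 := entropy_le_card P hP0 hP1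
  have e4 : (Fintype.card A : ℝ) = (M + 2 * W + 1) ^ 3 := by
    rw [hcard]
    push_cast
    rw [ki_card_site]
  rw [e4] at e3
  rw [e2]
  have e5 := mul_le_mul_of_nonneg_left e1 hβ.le
  have e6 : (1 / M) * (∑ k, r k * Real.log (r k) - ∑ α, P α * Real.log (P α)) ≤
      (1 / M) * (∑ k, r k * Real.log (r k) + Real.log ((M + 2 * W + 1) ^ 3)) :=
    mul_le_mul_of_nonneg_left (by linarith) (by positivity)
  linarith

end Pool.Agent.TH268.HB
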